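import Pool.Agent.Work.MP_f82ddf_W.Interface

set_option autoImplicit false

/-! # THEOREM W, block DIX (helper22): the points over `Mer` have dimension at most `a - 1`
(adapted from `MP_f82ddf_V/B_DIF.lean`) -/

open Pool.Agent.Work.MP_f82ddf_nt.DQ

namespace Pool.MPW

open MvPolynomial
open Pool.Agent.Work.MP_f82ddf_nt (PSpace HolomorphicOn complexPoints points KobayashiHyperbolic
  eval₂_smul_hom)
open Pool.ThmP (Mor OnX OnK tm)
open Pool.MPV (Ful Full)

theorem DIX_countable (K : Type) [Field K] [NumberField K] : Countable (AlgebraicClosure K) := by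
  rw [← Cardinal.mk_le_aleph0_iff]
  have h1 : Cardinal.mk K ≤ Cardinal.aleph0 := by
    refine (Algebra.IsAlgebraic.cardinalMk_le_max ℚ K).trans ?_
    simp
  refine (Algebra.IsAlgebraic.cardinalMk_le_max K (AlgebraicClosure K)).trans ?_
  exact max_le h1 le_rfl

/-- If the quotients `z j / z 0` are algebraically independent, then `z` satisfies no homogeneous
relation. -/
theorem DIX_alg {a e : ℕ} (z : Fin (a + 1) → Mer) (hz0 : z 0 ≠ 0)
    (D : MvPolynomial (Fin (a + 1)) ℂ) (hD : D.IsHomogeneous e) (hD0 : D ≠ 0)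
    (h : eval₂ (algebraMap ℂ Mer) z D = 0) :
    ¬ AlgebraicIndependent ℂ (fun j : Fin a => z j.succ / z 0) := by
  intro ht
  let φ : Fin (a + 1) → MvPolynomial (Fin a) ℂ := Fin.cons 1 X
  have hφ0 : φ 0 = 1 := rfl
  have hφs : ∀ j : Fin a, φ j.succ = X j := fun j => rfl
  have hG : aeval (fun j : Fin a => z j.succ / z 0) (aeval φ D) = 0 := by
    have h1 : aeval (fun j : Fin a => z j.succ / z 0) (aeval φ D) =
        aeval (fun i => z i / z 0) D := by
      have h2 : (aeval (fun j : Fin a => z j.succ / z 0)).comp (aeval φ) =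
          (aeval (fun i => z i / z 0) : MvPolynomial (Fin (a + 1)) ℂ →ₐ[ℂ] Mer) := by
        apply MvPolynomial.algHom_ext
        intro i
        rw [AlgHom.comp_apply, aeval_X, aeval_X]
        refine Fin.cases ?_ (fun j => ?_) i
        · rw [hφ0, map_one, div_self hz0]
        · rw [hφs, aeval_X]
      exact congrArg (fun f => f D) h2
    rw [h1]
    have h3 : (fun i => z i / z 0) = (z 0)⁻¹ • z := by
      funext i
      rw [Pi.smul_apply, smul_eq_mul, div_eq_inv_mul]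
    rw [h3]
    have h4 : aeval ((z 0)⁻¹ • z) D = eval₂ (algebraMap ℂ Mer) ((z 0)⁻¹ • z) D := rfl
    rw [h4, eval₂_smul_hom hD, h, mul_zero]
  have hG0 : aeval φ D = 0 := (algebraicIndependent_iff.1 ht) _ hG
  have h1 : D * X 0 ≠ 0 := mul_ne_zero hD0 (X_ne_zero 0)
  obtain ⟨w, hw⟩ : ∃ w : Fin (a + 1) → ℂ, eval w (D * X 0) ≠ 0 := by
    by_contra hcon
    push Not at hcon
    exact h1 (MvPolynomial.funext fun w => by rw [hcon w, map_zero])
  rw [map_mul, eval_X] at hw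
  have hw0 : w 0 ≠ 0 := right_ne_zero_of_mul hw
  have hwD : eval w D ≠ 0 := left_ne_zero_of_mul hw
  have h2 : eval ((w 0)⁻¹ • w) D ≠ 0 := by
    have h3 : eval ((w 0)⁻¹ • w) D = eval₂ (RingHom.id ℂ) ((w 0)⁻¹ • w) D := rfl
    rw [h3, eval₂_smul_hom hD]
    exact mul_ne_zero (pow_ne_zero _ (inv_ne_zero hw0)) hwD
  apply h2
  have h5 : (aeval (fun j : Fin a => (w 0)⁻¹ * w j.succ) : MvPolynomial (Fin a) ℂ →ₐ[ℂ] ℂ)
      (aeval φ D) = aeval ((w 0)⁻¹ • w) D := by
    have h6 : ((aeval (fun j : Fin a => (w 0)⁻¹ * w j.succ) :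
        MvPolynomial (Fin a) ℂ →ₐ[ℂ] ℂ)).comp (aeval φ) = (aeval ((w 0)⁻¹ • w) :
        MvPolynomial (Fin (a + 1)) ℂ →ₐ[ℂ] ℂ) := by
      apply MvPolynomial.algHom_ext
      intro i
      rw [AlgHom.comp_apply, aeval_X, aeval_X]
      refine Fin.cases ?_ (fun j => ?_) i
      · rw [hφ0, map_one, Pi.smul_apply, smul_eq_mul, inv_mul_cancel₀ hw0]
      · rw [hφs, aeval_X, Pi.smul_apply, smul_eq_mul]
    exact congrArg (fun f => f D) h6
  rw [hG0, map_zero] at h5
  have h7 : aeval ((w 0)⁻¹ • w) D = eval ((w 0)⁻¹ • w) D := rfl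
  rw [← h7, ← h5]

theorem p_DIX (h1 : Stmt_MPX) (hMPT : Pool.ThmP.Stmt_MPT) (hFIB : Pool.ThmP.Stmt_FIB)
    (hTRX : Pool.ThmP.Stmt_TRX) (hHOMR : Pool.ThmM0.Stmt_HOMR) : Stmt_DIX := by
  intro n c hn
  obtain ⟨N₀, hN₀⟩ := h1 n c hn
  refine ⟨N₀, ?_⟩
  intro N hN K _ _ l hl a q ha hnaq m S hS g hg hfull
  obtain ⟨b, rfl⟩ : ∃ b, a = b + 1 := ⟨a - 1, by omega⟩
  rw [Nat.add_sub_cancel]
  intro σ x hx r
  have := DIX_countable K
  obtain ⟨D, hD, hDx⟩ := hN₀ (AlgebraicClosure K) N l hN hl (b + 1) q ha hnaq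
  let τ : AlgebraicClosure K →+* ℂ :=
    letI : Algebra K ℂ := σ.toAlgebra
    (IsAlgClosed.lift (R := K) (M := ℂ) (S := AlgebraicClosure K)).toRingHom
  have hτ : τ.comp (algebraMap K (AlgebraicClosure K)) = σ := by
    let : Algebra K ℂ := σ.toAlgebra
    exact AlgHom.comp_algebraMap
      (IsAlgClosed.lift (R := K) (M := ℂ) (S := AlgebraicClosure K))
  have hx' : OnK (tm τ) S x := by
    intro F hF
    have h6 : (tm τ).comp (algebraMap K (AlgebraicClosure K)) =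
        (algebraMap ℂ Mer).comp σ := by
      rw [tm, RingHom.comp_assoc, hτ]
    rw [h6]
    exact hx F hF
  by_contra hcon
  push Not at hcon
  have hr0 : x (r 0) ≠ 0 := by
    have h := hcon 1 (X 0) (X_ne_zero _) (isHomogeneous_X _ _)
    rwa [aeval_X] at h
  have hx0 : x ≠ 0 := fun h => hr0 (congrFun h _)
  have hind := hHOMR b (fun i => x (r i)) hr0 hcon
  have hnc : ∃ i₀ i, x i₀ ≠ 0 ∧ ∀ a : ℂ, x i ≠ algebraMap ℂ Mer a * x i₀ := by
    refine ⟨r 0, r 1, hr0, fun a ha => ?_⟩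
    have h2 := hind.transcendental 0
    have h3 : x (r (Fin.succ 0)) / x (r 0) = algebraMap ℂ Mer a := by
      rw [div_eq_iff hr0]
      exact ha
    rw [h3] at h2
    exact h2 (isAlgebraic_algebraMap a)
  obtain ⟨M1, -⟩ := hMPT K (AlgebraicClosure K) Mer m n S g (tm τ) x hx'
  obtain ⟨s, hs, c₀, hc₀⟩ := M1 hx0
  have hDy := hDx K m S hS g hg hfull τ x hx' hnc s hs
  set y : Fin (n + 1) → Mer := fun c => eval₂ (tm τ) x (s c) with hy
  set A : Set Mer := Set.range fun c => y c / y c₀ with hA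
  have h2 : ∀ j : Fin (b + 1), IsAlgebraic (Algebra.adjoin ℂ A) (x (r j.succ) / x (r 0)) :=
    fun j => hFIB K (AlgebraicClosure K) m n S g hS hg τ x hx' s hs c₀ hc₀ (r j.succ) (r 0) hr0
  have h3 : ∀ a ∈ A, IsAlgebraic (Algebra.adjoin ℂ A) a := fun a ha =>
    isAlgebraic_algebraMap (⟨a, Algebra.subset_adjoin ha⟩ : Algebra.adjoin ℂ A)
  obtain ⟨t, ht1, ht2⟩ := hTRX (b + 1) _ A A hind h2 h3
  choose cc hcc using ht1
  simp only at hcc
  have hone : ∀ j, t j ≠ 1 := by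
    intro j hj
    have h4 := ht2.transcendental j
    rw [hj] at h4
    exact h4 isAlgebraic_one
  have hσ : Function.Injective (Fin.cons c₀ cc : Fin (b + 1 + 1) → Fin (n + 1)) := by
    rw [Fin.cons_injective_iff]
    constructor
    · rintro ⟨j, hj⟩
      exact hone j (by rw [← hcc j, hj, div_self hc₀])
    · intro i j hij
      exact ht2.injective (by rw [← hcc i, ← hcc j, hij])
  let ρ : Fin (b + 1 + 1) ↪ Fin (n + 1) := ⟨Fin.cons c₀ cc, hσ⟩
  have hρ0 : ρ 0 = c₀ := rfl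
  have hρs : ∀ j : Fin (b + 1), ρ j.succ = cc j := fun j => rfl
  obtain ⟨hD0, e, hDe⟩ := hD ρ
  have hDy' : eval₂ (algebraMap ℂ Mer) (fun i => y (ρ i)) (map τ (D ρ)) = 0 := by
    rw [eval₂_map]
    exact hDy ρ
  refine DIX_alg (fun i => y (ρ i)) hc₀ (map τ (D ρ)) (hDe.map τ) (fun h => ?_) hDy' ?_
  · exact hD0 (map_injective τ τ.injective (by rw [h, map_zero]))
  · have h5 : (fun j : Fin (b + 1) => y (ρ j.succ) / y (ρ 0)) = t := by
      funext j
      rw [hρs, hρ0, hcc]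
    rw [h5]
    exact ht2

end Pool.MPW
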