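import Pool.Agent.Work.MP_f82ddf_W.Interface

/-!
# Theorem W, block FW2
-/

set_option autoImplicit false

open Pool.Agent.Work.MP_f82ddf_nt.DQ

namespace Pool.MPW

open MvPolynomial
open Pool.Agent.Work.MP_f82ddf_nt (PSpace HolomorphicOn complexPoints points KobayashiHyperbolic
  exists_entire_curve not_kobayashi)

/-- If all pairs of coordinates of every point over `Mer` satisfy a relation, `X_σ` is
hyperbolic. -/
lemma FW2_hyp (hDHO : Pool.ThmM0.Stmt_DHO) {K : Type} [Field K] {m : ℕ}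
    (S : Set (MvPolynomial (Fin (m + 1)) K)) (hS : ∀ F ∈ S, ∃ d, F.IsHomogeneous d)
    (hD : Pool.ThmM0.DimMer S 0) (σ : K →+* ℂ) : KobayashiHyperbolic (complexPoints S σ) := by
  by_contra hX
  obtain ⟨f, hf, hfX, hab⟩ := exists_entire_curve hS σ hX
  obtain ⟨φ, hφ, i, hi, hF, hrep, hcon⟩ := exists_mer_of_curve hS σ f hf hfX
  obtain ⟨l, hl⟩ := hcon hab
  set x : Fin (m + 1) → Mer := fun j => Mer.mk (φ j) (hφ j) with hx
  have hi' : x i = 1 := hi
  have hx1 : x i ≠ 0 := by rw [hi']; exact one_ne_zero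
  obtain ⟨e, P, hP0, hPe, hP⟩ := hD σ x hF ![i, l]
  have hna := hDHO 0 e (fun t => x ((![i, l] : Fin 2 → Fin (m + 1)) t)) P hx1 hP0 hPe hP
  apply hna
  have h3 : (fun t : Fin (0 + 1) => x ((![i, l] : Fin 2 → Fin (m + 1)) t.succ) /
      x ((![i, l] : Fin 2 → Fin (m + 1)) 0)) = (fun _ : Fin (0 + 1) => x l) := by
    funext t
    fin_cases t
    show x l / x i = x l
    rw [hi', div_one]
  rw [h3]
  have htr : Transcendental ℂ (x l) := by
    intro halg
    have hint : IsIntegral ℂ (x l) := halg.isIntegral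
    have hdeg : (minpoly ℂ (x l)).degree = 1 :=
      IsAlgClosed.degree_eq_one_of_irreducible ℂ (minpoly.irreducible hint)
    obtain ⟨z, hz⟩ := minpoly.mem_range_of_degree_eq_one ℂ (x l) hdeg
    exact hl z hz.symm
  haveI : Unique (Fin (0 + 1)) := inferInstanceAs (Unique (Fin 1))
  exact (algebraicIndependent_unique_type_iff (ι := Fin (0 + 1)) (x := fun _ => x l)).2 htr

/-- FW2 -/
theorem p_FW2 (h1 : Stmt_DIX) (h2 : Pool.ThmM0.Stmt_IMG) (h3 : Pool.ThmM0.Stmt_PAI)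
    (h4 : Pool.MCL.stmt_P6C) (h5 : Pool.ThmM0.Stmt_DHO) : Stmt_FW2 := by
  intro n c hn
  obtain ⟨N₀, hN⟩ := h1 n c hn
  refine ⟨N₀, fun N hNN K _ _ l hc a q ha hnq m S hS g hfin hfull => ?_⟩
  have hdim : Pool.ThmM0.DimMer S (a - 1) := hN N hNN K l hc a q ha hnq m S hS g hfin hfull
  refine ⟨fun σ f hf hfS => h2 K m (a - 1) S hS hdim σ f hf hfS, fun ha1 σ => ?_, fun ha2 => ?_⟩
  · subst ha1
    exact FW2_hyp h5 S hS hdim σ
  · have hle : a - 1 ≤ 1 := by omega
    refine h4 K m S hS ?_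
    intro σ x i hi hF
    exact h3 K m (a - 1) S hle hdim σ x i hi hF

end Pool.MPW
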