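import Pool.Agent.Work.MP_f82ddf_W.Interface2

set_option autoImplicit false

/-! # THEOREM W, block SF (helper85): optimality of the dimension `n + 1 - k` -/

open Pool.Agent.Work.MP_f82ddf_nt.DQ

namespace Pool.MPW

open MvPolynomial
open Pool.Agent.Work.MP_f82ddf_nt (PSpace HolomorphicOn complexPoints points KobayashiHyperbolic)
open Pool.ThmP (Mor OnX OnK tm)
open Pool.MPV (Ful Full)

/-- values of homogeneous polynomials at multiples -/
theorem SF_smul {F : Type} [Field F] {m e : ℕ} {P : MvPolynomial (Fin m) F}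
    (hP : P.IsHomogeneous e) (c : F) (v : Fin m → F) :
    eval (fun i => c * v i) P = c ^ e * eval v P := by
  rw [eval_eq', eval_eq', Finset.mul_sum]
  refine Finset.sum_congr rfl fun d hd => ?_
  have h1 : ∑ i, d i = e := by
    have h2 := hP (mem_support_iff.1 hd)
    rw [← h2, Finsupp.weight_apply, Finsupp.sum_fintype]
    · simp
    · simp
  have h3 : ∏ i, (c * v i) ^ d i = c ^ e * ∏ i, v i ^ d i := by
    rw [← h1, ← Finset.prod_pow_eq_pow_sum, ← Finset.prod_mul_distrib]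
    exact Finset.prod_congr rfl fun i _ => mul_pow _ _ _
  rw [h3]
  ring

/-- two indices where `R` does not vanish -/
theorem SF_two {N d : ℕ} (hN : d + 2 ≤ N) {R : Polynomial ℂ} (hR : R ≠ 0) (hd : R.natDegree ≤ d) :
    ∃ i j : Fin (N + 1), i ≠ j ∧ R.eval ((i : ℕ) : ℂ) ≠ 0 ∧ R.eval ((j : ℕ) : ℂ) ≠ 0 := by
  classical
  set Z := Finset.univ.filter (fun j : Fin (N + 1) => R.eval ((j : ℕ) : ℂ) = 0) with hZ
  have hinj : Set.InjOn (fun j : Fin (N + 1) => ((j : ℕ) : ℂ)) Z := by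
    intro i _ j _ hij
    have h0 : ((i : ℕ) : ℂ) = ((j : ℕ) : ℂ) := hij
    have : (i : ℕ) = (j : ℕ) := by exact_mod_cast h0
    exact Fin.ext this
  have h1 : Z.card ≤ R.roots.toFinset.card := by
    rw [← Finset.card_image_of_injOn hinj]
    apply Finset.card_le_card
    intro z hz
    obtain ⟨j, hj, rfl⟩ := Finset.mem_image.1 hz
    rw [Multiset.mem_toFinset, Polynomial.mem_roots hR]
    exact (Finset.mem_filter.1 hj).2
  have h2 : Z.card ≤ d := h1.trans ((Multiset.toFinset_card_le _).trans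
    ((Polynomial.card_roots' R).trans hd))
  have h3 : 1 < (Finset.univ.filter (fun j : Fin (N + 1) => ¬ R.eval ((j : ℕ) : ℂ) = 0)).card := by
    have h4 := Finset.card_filter_add_card_filter_not (s := (Finset.univ : Finset (Fin (N + 1))))
      (fun j : Fin (N + 1) => R.eval ((j : ℕ) : ℂ) = 0)
    rw [Finset.card_univ, Fintype.card_fin] at h4
    have h5 : (Finset.univ.filter (fun j : Fin (N + 1) => R.eval ((j : ℕ) : ℂ) = 0)).card ≤ d := h2
    omega
  obtain ⟨i, hi, j, hj, hij⟩ := Finset.one_lt_card.1 h3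
  exact ⟨i, j, hij, (Finset.mem_filter.1 hi).2, (Finset.mem_filter.1 hj).2⟩

theorem p_SF (hSX : Stmt_SX) (hSV : Stmt_SV) (hSR : Stmt_SR) (hSL : Stmt_SL) : Stmt_SF := by
  intro n k d N hk hkd hnN
  obtain ⟨q, rfl⟩ : ∃ q, k = q + 1 := ⟨k - 1, by omega⟩
  have hq : 1 ≤ q := by omega
  have hn : n = q + d + 1 := by omega
  obtain ⟨S, g, hS, hfin, hne, hfull, hpt⟩ := hSX n (q + 1) N (by omega) hnN
  refine ⟨S, g, fun j i => ((j : ℕ) : AlgebraicClosure ℚ) ^ (i : ℕ), hS, hSV n N, hfin, hfull, ?_⟩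
  intro D hD τ
  have hs0 : ∀ i : Fin (d + 2), q + (i : ℕ) < n + 1 := fun i => by
    have := i.2
    omega
  let s₀ : Fin (d + 2) ↪ Fin (n + 1) := ⟨fun i => ⟨q + (i : ℕ), hs0 i⟩, by
    intro i j hij
    have : q + (i : ℕ) = q + (j : ℕ) := congrArg Fin.val hij
    exact Fin.ext (by omega)⟩
  obtain ⟨hD0, e, hDe⟩ := hD s₀
  set P := map τ (D s₀) with hP
  have hP0 : P ≠ 0 := by
    intro h
    exact hD0 (map_injective τ τ.injective (by rw [← hP, h, map_zero]))
  have hPe : P.IsHomogeneous e := hDe.map τ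
  have hPX : P * X (Fin.last (d + 1)) ≠ 0 := mul_ne_zero hP0 (X_ne_zero _)
  obtain ⟨p, hp⟩ : ∃ p : Fin (d + 2) → ℂ, eval p (P * X (Fin.last (d + 1))) ≠ 0 := by
    by_contra hcon
    push Not at hcon
    exact hPX (MvPolynomial.funext fun x => by rw [hcon x, map_zero])
  rw [map_mul, eval_X] at hp
  have hp1 : eval p P ≠ 0 := left_ne_zero_of_mul hp
  have hp2 : p (Fin.last (d + 1)) ≠ 0 := right_ne_zero_of_mul hp
  obtain ⟨s, R, hR0, hRd, hRc⟩ := hSR q d p hp2
  obtain ⟨i₁, i₂, hi, hR1, hR2⟩ := SF_two (N := N) (d := d) (by omega) hR0 hRd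
  have hρ : ∀ j : Fin (N + 1), ∃ ρ : ℂ, ρ ^ (q + 1) = R.eval ((j : ℕ) : ℂ) := fun j =>
    IsAlgClosed.exists_pow_nat_eq _ (by omega)
  choose ρ hρ using hρ
  have hρ0 : ∀ j : Fin (N + 1), R.eval ((j : ℕ) : ℂ) ≠ 0 → ρ j ≠ 0 := by
    intro j hj h
    apply hj
    rw [← hρ j, h, zero_pow (by omega)]
  obtain ⟨f, hf, hfc, hfz⟩ := hSL N ρ ⟨i₁, i₂, hi, hρ0 _ hR1, hρ0 _ hR2⟩
  have hkey : ∀ z c : ℂ, (∀ j : Fin (N + 1), (f z).rep j = c * (ρ j * (((j : ℕ) : ℂ) - z))) →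
      ∀ j : Fin (N + 1), ((f z).rep j) ^ (q + 1) = ∑ i : Fin (n + 1),
        (c ^ (q + 1) * (R * (Polynomial.X - Polynomial.C z) ^ (q + 1)).coeff (i : ℕ)) *
          ((j : ℕ) : ℂ) ^ (i : ℕ) := by
    intro z c hc j
    have hdeg : (R * (Polynomial.X - Polynomial.C z) ^ (q + 1)).natDegree < n + 1 := by
      refine lt_of_le_of_lt Polynomial.natDegree_mul_le ?_
      have h1 : ((Polynomial.X - Polynomial.C z) ^ (q + 1)).natDegree = q + 1 := by
        rw [Polynomial.natDegree_pow, Polynomial.natDegree_X_sub_C, mul_one]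
      rw [h1]
      omega
    have h2 := Polynomial.eval_eq_sum_range' hdeg ((j : ℕ) : ℂ)
    rw [Polynomial.eval_mul, Polynomial.eval_pow, Polynomial.eval_sub, Polynomial.eval_X,
      Polynomial.eval_C, Finset.sum_range] at h2
    rw [hc j, mul_pow, mul_pow, hρ j, h2, Finset.mul_sum]
    exact Finset.sum_congr rfl fun i _ => by ring
  refine ⟨f, hf, ?_, hfc, s, ?_⟩
  · intro z
    obtain ⟨c, hc0, hc⟩ := hfz z
    exact (hpt τ _ (f z).rep (hkey z c hc)).1
  · rintro ⟨-, hEx⟩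
    obtain ⟨c, hc0, hc⟩ := hfz s
    obtain ⟨t, ht⟩ := hne
    have h1 := hEx t ht s₀
    have h2 := (hpt τ _ (f s).rep (hkey s c hc)).2 t ht
    have h3 : (fun i => eval₂ τ (f s).rep (t (s₀ i))) = fun i => c ^ (q + 1) * p i := by
      funext i
      rw [h2 (s₀ i), ← hRc i]
      rfl
    rw [h3, eval₂_eq_eval_map, ← hP, SF_smul hPe] at h1
    exact mul_ne_zero (pow_ne_zero _ (pow_ne_zero _ hc0)) hp1 h1

end Pool.MPW
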