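import Pool.Agent.Work.MP_f82ddf_W.Interface

set_option autoImplicit false

/-! # Block GPC: `P` vanishes on all the lines through the generic point of a component -/

namespace Pool.MPW

open MvPolynomial
open Pool.Agent.Work.MP_f82ddf_M5 (at2)
open Pool.ThmM.Chow (PluF)

/-- algebraic elements and ring homomorphisms of the base rings -/
theorem GPC_alg {R S F : Type} [CommRing R] [CommRing S] [Field F] [Algebra R F] [Algebra S F]
    (f : R →+* S) (hf : Function.Injective f)
    (hc : ∀ r, algebraMap S F (f r) = algebraMap R F r) {x : F} (hx : IsAlgebraic R x) :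
    IsAlgebraic S x := by
  obtain ⟨p, hp0, hp⟩ := hx
  refine ⟨p.map f, (Polynomial.map_ne_zero_iff hf).2 hp0, ?_⟩
  have h1 : (algebraMap S F).comp f = algebraMap R F := RingHom.ext hc
  rw [Polynomial.aeval_def, Polynomial.eval₂_map, h1]
  exact hp

/-- values of `at2` and ring homomorphisms -/
theorem GPC_hom {N : ℕ} {R B B' : Type} [CommRing R] [CommRing B] [CommRing B'] (φ : R →+* B)
    (g : B →+* B') (a b : Fin N → B) (P : MvPolynomial (Fin 2 × Fin N) R) :
    g (at2 φ a b P) = at2 (g.comp φ) (fun j => g (a j)) (fun j => g (b j)) P := by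
  unfold at2
  rw [coe_eval₂Hom, coe_eval₂Hom, eval₂_comp_left]
  congr 1
  funext p
  simp only [Function.comp_apply]
  split_ifs <;> rfl

/-- the coordinates of a generic point, without one on which `P` depends, are algebraically
independent -/
theorem GPC_ind {σ M F : Type} [Field M] [Field F] [Algebra M F] (P : MvPolynomial σ M)
    (b : σ → F) (hirr : Irreducible P)
    (hgen : ∀ H : MvPolynomial σ M, eval₂ (algebraMap M F) b H = 0 ↔ P ∣ H) :
    ∃ p₀ : σ, AlgebraicIndependent M fun p : {p : σ // p ≠ p₀} => b p := by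
  classical
  obtain ⟨p₀, hp₀⟩ : ∃ p₀, p₀ ∈ P.vars := by
    by_contra hcon
    push Not at hcon
    have h1 : P.vars = ∅ := Finset.eq_empty_of_forall_notMem hcon
    rw [vars_eq_empty_iff_eq_C] at h1
    have h2 : P.coeff 0 ≠ 0 := by
      intro h
      rw [h, map_zero] at h1
      exact hirr.ne_zero h1
    apply hirr.not_isUnit
    rw [h1]
    exact (isUnit_iff_ne_zero.2 h2).map C
  refine ⟨p₀, ?_⟩
  rw [algebraicIndependent_iff]
  intro H hH
  by_contra hH0
  have h1 : eval₂ (algebraMap M F) b (rename Subtype.val H) = 0 := by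
    rw [eval₂_rename]
    exact hH
  obtain ⟨T, hT⟩ := (hgen _).1 h1
  have h2 : rename (Subtype.val : {p : σ // p ≠ p₀} → σ) H ≠ 0 := by
    intro h
    exact hH0 (rename_injective _ Subtype.val_injective (by rw [h, map_zero]))
  have h3 : T ≠ 0 := by
    rintro rfl
    rw [mul_zero] at hT
    exact h2 hT
  have h4 : (rename (Subtype.val : {p : σ // p ≠ p₀} → σ) H).degreeOf p₀ = 0 := by
    by_contra h
    have h5 := mem_vars_rename _ H (mem_vars_iff_degreeOf_ne_zero.2 h)
    obtain ⟨q, -, hq⟩ := h5
    exact q.2 hq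
  rw [hT, degreeOf_mul_eq hirr.ne_zero h3] at h4
  exact (mem_vars_iff_degreeOf_ne_zero.1 hp₀) (by omega)

/-- a polynomial which vanishes at algebraically independent elements -/
theorem GPC_van {N : ℕ} {M K F : Type} [Field M] [Field K] [Field F] [Algebra M F] [Algebra K F]
    (g : M →+* K) (hg : ∀ a, algebraMap K F (g a) = algebraMap M F a) (b₁ : Fin N → F)
    (v : Fin N → K) (hind : AlgebraicIndependent K b₁) (P : MvPolynomial (Fin 2 × Fin N) M)
    (h : at2 (algebraMap M F) b₁ (fun j => algebraMap K F (v j)) P = 0) (b' : Fin N → F) :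
    at2 (algebraMap M F) b' (fun j => algebraMap K F (v j)) P = 0 := by
  have key : ∀ a : Fin N → F, aeval (R := K) a (at2 ((C : K →+* MvPolynomial (Fin N) K).comp g)
      (fun j => X j) (fun j => C (v j)) P) =
      at2 (algebraMap M F) a (fun j => algebraMap K F (v j)) P := by
    intro a
    have h2 := GPC_hom ((C : K →+* MvPolynomial (Fin N) K).comp g)
      ((aeval a : MvPolynomial (Fin N) K →ₐ[K] F) : MvPolynomial (Fin N) K →+* F)
      (fun j => X j) (fun j => C (v j)) P
    change aeval a _ = _ at h2
    rw [h2]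
    have h3 : (((aeval a : MvPolynomial (Fin N) K →ₐ[K] F) : MvPolynomial (Fin N) K →+* F).comp
        ((C : K →+* MvPolynomial (Fin N) K).comp g)) = algebraMap M F := by
      ext c
      simp [hg]
    have h4 : (fun j : Fin N => ((aeval a : MvPolynomial (Fin N) K →ₐ[K] F) :
        MvPolynomial (Fin N) K →+* F) (X j)) = a := by
      funext j
      simp
    have h5 : (fun j : Fin N => ((aeval a : MvPolynomial (Fin N) K →ₐ[K] F) :
        MvPolynomial (Fin N) K →+* F) (C (v j))) = fun j => algebraMap K F (v j) := by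
      funext j
      simp
    rw [h3, h4, h5]
  rw [algebraicIndependent_iff] at hind
  have h6 := hind _ ((key b₁).trans h)
  rw [← key b', h6, map_zero]

theorem p_GPC (hTRM : Stmt_TRM) (hPGL : Pool.ThmM.Chow.Stmt_PGL) : Stmt_GPC := by
  classical
  intro M F _ _ _ w ρ P b s u hirr hplu hgen hv b'
  -- (1)
  have h1 : at2 (algebraMap M F) (fun j => b (0, j)) (pv b s) P = 0 := by
    have h2 := (hplu F (algebraMap M F) (fun j => b (0, j)) (fun j => b (1, j)) s).2.1
    have h3 : (fun j => b (1, j) + s * b (0, j)) = pv b s := by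
      funext j
      rw [pv, add_comm]
    rw [h3] at h2
    change at2 (algebraMap M F) (fun j => b (0, j)) (pv b s) P = _ at h2
    rw [h2]
    have h4 : (fun p : Fin 2 × Fin (w + 2) => if p.1 = 0 then b (0, p.2) else b (1, p.2)) = b := by
      funext p
      obtain ⟨i, j⟩ := p
      fin_cases i <;> rfl
    unfold at2
    rw [coe_eval₂Hom, h4]
    exact (hgen P).2 dvd_rfl
  -- (2)
  obtain ⟨K₀, hK₀⟩ : ∃ K₀ : IntermediateField M F,
    K₀ = IntermediateField.adjoin M (Set.range u) := ⟨_, rfl⟩
  rw [← hK₀] at hv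
  have hind : AlgebraicIndependent K₀ (fun j => b (0, j)) := by
    by_contra hcon
    obtain ⟨t, j₀, hj₀, halg⟩ : ∃ (t : Set (Fin (w + 2))) (j₀ : Fin (w + 2)), j₀ ∉ t ∧
        IsAlgebraic (Algebra.adjoin K₀ ((fun j => b (0, j)) '' t)) (b (0, j₀)) := by
      by_contra hcon'
      push Not at hcon'
      exact hcon (algebraicIndependent_of_finite_type' (algebraMap K₀ F).injective
        fun t _ _ i hi => hcon' t i hi)
    obtain ⟨s', hs'⟩ : ∃ s' : Fin (w + (w + 1) + 1) → F, s' = Fin.append (Fin.append u
      (fun i : Fin (w + 1) => b (0, j₀.succAbove i))) (fun _ : Fin 1 => s) := ⟨_, rfl⟩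
    obtain ⟨E, hE⟩ : ∃ E : IntermediateField M F,
      E = IntermediateField.adjoin M (Set.range s') := ⟨_, rfl⟩
    have hrange : ∀ i, s' i ∈ E := by
      intro i
      rw [hE]
      exact IntermediateField.subset_adjoin M _ ⟨i, rfl⟩
    have hu : ∀ i, u i ∈ E := by
      intro i
      have h2 := hrange (Fin.castAdd 1 (Fin.castAdd (w + 1) i))
      rwa [hs', Fin.append_left, Fin.append_left] at h2
    have hb : ∀ i, b (0, Fin.succAbove j₀ i) ∈ E := by
      intro i
      have h2 := hrange (Fin.castAdd 1 (Fin.natAdd w i))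
      rwa [hs', Fin.append_left, Fin.append_right] at h2
    have hs : s ∈ E := by
      have h2 := hrange (Fin.natAdd (w + (w + 1)) 0)
      rwa [hs', Fin.append_right] at h2
    have hb' : ∀ j, j ≠ j₀ → b (0, j) ∈ E := by
      intro j hj
      obtain ⟨i, rfl⟩ := Fin.exists_succAbove_eq hj
      exact hb i
    have hKE : K₀ ≤ E := by
      rw [hK₀, IntermediateField.adjoin_le_iff]
      rintro _ ⟨i, rfl⟩
      exact hu i
    have hmem : ∀ a ∈ Algebra.adjoin K₀ ((fun j => b (0, j)) '' t), a ∈ E := by
      intro a ha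
      induction ha using Algebra.adjoin_induction with
      | mem x hx =>
        obtain ⟨j, hj, rfl⟩ := hx
        exact hb' j (fun h => hj₀ (h ▸ hj))
      | algebraMap r => exact hKE r.2
      | add x y _ _ hx hy => exact add_mem hx hy
      | mul x y _ _ hx hy => exact mul_mem hx hy
    have halgE : ∀ j, IsAlgebraic E (b (0, j)) := by
      intro j
      by_cases hj : j = j₀
      · rw [hj]
        refine GPC_alg (R := Algebra.adjoin K₀ ((fun j => b (0, j)) '' t)) (S := E)
          { toFun := fun a => (⟨a.1, hmem a.1 a.2⟩ : E)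
            map_one' := rfl
            map_mul' := fun _ _ => rfl
            map_zero' := rfl
            map_add' := fun _ _ => rfl } ?_ ?_ halg
        · intro a a' haa
          exact Subtype.ext (congrArg (fun z : E => (z : F)) haa)
        · intro r
          rfl
      · exact isAlgebraic_algebraMap (⟨b (0, j), hb' j hj⟩ : E)
    have hvE : ∀ j, IsAlgebraic E (pv b s j) := by
      intro j
      refine GPC_alg (R := K₀) (S := E) (IntermediateField.inclusion hKE).toRingHom ?_ ?_ (hv j)
      · exact (IntermediateField.inclusion hKE).injective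
      · intro r
        rfl
    have hbE : ∀ p, IsAlgebraic E (b p) := by
      rintro ⟨i, j⟩
      have h2 : IsAlgebraic E (b (1, j)) := by
        have h3 : b (1, j) = pv b s j - s * b (0, j) := by
          rw [pv]
          ring
        rw [h3]
        exact (hvE j).sub ((isAlgebraic_algebraMap (⟨s, hs⟩ : E)).mul (halgE j))
      fin_cases i
      · exact halgE j
      · exact h2
    obtain ⟨p₀, hp₀⟩ := GPC_ind P b hirr hgen
    have hcard : Fintype.card {p : Fin 2 × Fin (w + 2) // p ≠ p₀} = 2 * w + 3 := by
      rw [Fintype.card_subtype_compl, Fintype.card_subtype_eq, Fintype.card_prod, Fintype.card_fin,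
        Fintype.card_fin]
      omega
    have hle := hTRM M F (2 * w + 3) (w + (w + 1) + 1)
      (fun i => b ((Fintype.equivFinOfCardEq hcard).symm i : Fin 2 × Fin (w + 2))) s'
      (hp₀.comp _ (Fintype.equivFinOfCardEq hcard).symm.injective)
      (by
        intro i
        rw [← hE]
        exact hbE _)
    omega
  -- (3)
  have hvK : ∀ j, pv b s j ∈ algebraicClosure K₀ F := fun j =>
    mem_algebraicClosure_iff.2 (hv j)
  have hfin : at2 (algebraMap M F) b' (pv b s) P = 0 :=
    GPC_van ((algebraMap K₀ (algebraicClosure K₀ F)).comp (algebraMap M K₀)) (fun _ => rfl)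
      (fun j => b (0, j)) (fun j => ⟨pv b s j, hvK j⟩) hind.algebraicClosure P h1 b'
  -- (4)
  have h6 := hPGL (w + 2) ρ M P hplu F (algebraMap M F) b' (pv b s) 0 1 1 0
  simp only [zero_mul, one_mul, zero_add, add_zero] at h6
  rw [hfin, mul_zero] at h6
  exact h6

end Pool.MPW
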