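import Pool.Agent.Work.MP_f82ddf_W.Interface

set_option autoImplicit false

/-! # ABS: irreducible polynomials over `ℂ` stay irreducible over extension fields -/

open Pool.Agent.Work.MP_f82ddf_nt.DQ

namespace Pool.MPW

open MvPolynomial

/-- a nonzero polynomial over a field which is not a unit has a monomial of positive degree -/
theorem ABS_deg {κ : Type} [Field κ] {N : ℕ} {P : MvPolynomial (Fin N) κ} (h0 : P ≠ 0)
    (hu : ¬ IsUnit P) : ∃ α : Fin N →₀ ℕ, α ≠ 0 ∧ coeff α P ≠ 0 := by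
  by_contra hh
  push Not at hh
  have h1 : P = C (coeff 0 P) := by
    ext m
    rw [coeff_C]
    split_ifs with hm
    · rw [hm]
    · exact hh m (Ne.symm hm)
  have h2 : coeff 0 P ≠ 0 := by
    intro h3
    rw [h3, C_0] at h1
    exact h0 h1
  apply hu
  rw [h1]
  exact (isUnit_iff_ne_zero.2 h2).map C

/-- a polynomial over a domain with a nonzero coefficient of positive degree is not a unit -/
theorem ABS_unit {N : ℕ} {P : MvPolynomial (Fin N) ℂ} {α : Fin N →₀ ℕ} (hα : α ≠ 0)
    (h : coeff α P ≠ 0) : ¬ IsUnit P := by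
  intro hu
  rw [isUnit_iff_eq_C_of_isReduced] at hu
  obtain ⟨r, _, rfl⟩ := hu
  rw [coeff_C, if_neg (Ne.symm hα)] at h
  exact h rfl

theorem p_ABS (hN : Pool.Agent.Work.MP_f82ddf_M5.Stmt_NUL) : Stmt_ABS := by
  classical
  intro κ _ _ N Q hQ
  have hinj : Function.Injective (algebraMap ℂ κ) := (algebraMap ℂ κ).injective
  have hQ0 : Q ≠ 0 := hQ.ne_zero
  have hm0 : map (algebraMap ℂ κ) Q ≠ 0 := by
    intro h
    rw [← map_zero (map (algebraMap ℂ κ))] at h
    exact hQ0 (map_injective _ hinj h)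
  refine ⟨?_, ?_⟩
  · intro hu
    rw [isUnit_iff_eq_C_of_isReduced] at hu
    obtain ⟨r, _, hr⟩ := hu
    obtain ⟨α, hα, hc⟩ := ABS_deg hQ0 hQ.not_isUnit
    have h1 : coeff α (map (algebraMap ℂ κ) Q) = 0 := by
      rw [hr, coeff_C, if_neg (Ne.symm hα)]
    rw [coeff_map, ← map_zero (algebraMap ℂ κ)] at h1
    exact hc (hinj h1)
  · intro A₁ A₂ hA
    by_contra hh
    push Not at hh
    have h10 : A₁ ≠ 0 := by
      rintro rfl
      rw [zero_mul] at hA
      exact hm0 hA
    have h20 : A₂ ≠ 0 := by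
      rintro rfl
      rw [mul_zero] at hA
      exact hm0 hA
    obtain ⟨α₁, hα₁, hc₁⟩ := ABS_deg h10 hh.1
    obtain ⟨α₂, hα₂, hc₂⟩ := ABS_deg h20 hh.2
    obtain ⟨B, θ, hB, hu, hθ⟩ := hN κ (A₁.support.image (fun m => coeff m A₁) ∪
      A₂.support.image (fun m => coeff m A₂)) (coeff α₁ A₁ * coeff α₂ A₂) (mul_ne_zero hc₁ hc₂)
    have hm1 : ∀ m, coeff m A₁ ∈ B := by
      intro m
      by_cases hm : coeff m A₁ = 0
      · rw [hm]; exact B.zero_mem
      · exact hB _ (Finset.mem_union_left _ (Finset.mem_image_of_mem _ (mem_support_iff.2 hm)))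
    have hm2 : ∀ m, coeff m A₂ ∈ B := by
      intro m
      by_cases hm : coeff m A₂ = 0
      · rw [hm]; exact B.zero_mem
      · exact hB _ (Finset.mem_union_right _ (Finset.mem_image_of_mem _ (mem_support_iff.2 hm)))
    have hlift : ∀ A : MvPolynomial (Fin N) κ, (∀ m, coeff m A ∈ B) →
        ∃ P : MvPolynomial (Fin N) B, map (algebraMap B κ) P = A := by
      intro A hA
      have h1 : A ∈ Set.range (map (algebraMap B κ) : MvPolynomial (Fin N) B →+* _) := by
        rw [mem_range_map_iff_coeffs_subset]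
        intro c hc
        obtain ⟨m, _, rfl⟩ := mem_coeffs_iff.1 (Finset.mem_coe.1 hc)
        exact ⟨⟨coeff m A, hA m⟩, rfl⟩
      exact h1
    obtain ⟨P₁, rfl⟩ := hlift A₁ hm1
    obtain ⟨P₂, rfl⟩ := hlift A₂ hm2
    have hBinj : Function.Injective (algebraMap B κ) := Subtype.val_injective
    have h3 : map (algebraMap ℂ B) Q = P₁ * P₂ := by
      apply map_injective _ hBinj
      rw [map_mul, ← hA, map_map]
      rfl
    have h4 : Q = map (θ : B →+* ℂ) P₁ * map (θ : B →+* ℂ) P₂ := by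
      rw [← map_mul, ← h3, map_map]
      have h5 : (θ : B →+* ℂ).comp (algebraMap ℂ B) = RingHom.id ℂ := by
        ext z
        exact θ.commutes z
      rw [h5, map_id]
    have h6 : θ ⟨coeff α₁ (map (algebraMap B κ) P₁) * coeff α₂ (map (algebraMap B κ) P₂), hu⟩ =
        θ (coeff α₁ P₁) * θ (coeff α₂ P₂) := by
      rw [← map_mul]
      refine congrArg θ (Subtype.ext ?_)
      show coeff α₁ (map (algebraMap B κ) P₁) * coeff α₂ (map (algebraMap B κ) P₂) =
        algebraMap B κ (coeff α₁ P₁) * algebraMap B κ (coeff α₂ P₂)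
      rw [coeff_map, coeff_map]
    rw [h6] at hθ
    rcases hQ.isUnit_or_isUnit h4 with h7 | h7
    · refine ABS_unit (α := α₁) hα₁ ?_ h7
      rw [coeff_map]
      exact left_ne_zero_of_mul hθ
    · refine ABS_unit (α := α₂) hα₂ ?_ h7
      rw [coeff_map]
      exact right_ne_zero_of_mul hθ

end Pool.MPW
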