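import Pool.Agent.Work.MP_f82ddf_W.Interface

set_option autoImplicit false

/-! # THEOREM W, block CNZ: the Chow form is not zero over any field (helper67) -/

namespace Pool.MPW

open MvPolynomial
open Pool.Agent.Work.MP_f82ddf_M5 (lineAt resAt chow at2 comb Data GoodDer)

private theorem CNZ_map {N n : ℕ} {R R' : Type} [CommRing R] [CommRing R'] (φ : ℂ →+* R)
    (θ : R →+* R') (A : Fin (n + 1) → MvPolynomial (Fin N) ℂ) (x : Fin (n + 1) → R) :
    map θ (comb φ A x) = comb (θ.comp φ) A (fun j => θ (x j)) := by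
  unfold comb
  rw [map_sum]
  refine Finset.sum_congr rfl fun i _ => ?_
  rw [map_mul, map_C, map_map]

private theorem CNZ_hom {N n D : ℕ} (A : Fin (n + 1) → MvPolynomial (Fin N) ℂ)
    (hA : ∀ i, (A i).IsHomogeneous D) (y : Fin (n + 1) → ℂ) :
    (comb (RingHom.id ℂ) A y).IsHomogeneous D := by
  unfold comb
  refine IsHomogeneous.sum _ _ _ fun i _ => ?_
  have h := (isHomogeneous_C (Fin N) (y i)).mul (hA i)
  rw [zero_add] at h
  rwa [map_id]

theorem p_CNZ : Pool.Agent.Work.MP_f82ddf_M5.Stmt_NUL → Pool.Agent.Work.MP_f82ddf_M5.Stmt_FUN →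
    Pool.Agent.Work.MP_f82ddf_M5.Stmt_LINE → Stmt_CNZ := by
  classical
  intro hNUL hFUN hLINE N n d D Q A hData κ _ _ x hx h0
  obtain ⟨-, -, -, -, -, hF⟩ := hFUN
  obtain ⟨i, hi⟩ := Function.ne_iff.1 hx
  obtain ⟨B, θ, hs, hu, hθ⟩ := hNUL κ (Finset.univ.image x) (x i) hi
  have hm : ∀ j, x j ∈ B := fun j => hs _ (Finset.mem_image_of_mem x (Finset.mem_univ j))
  let y : Fin (n + 1) → B := fun j => ⟨x j, hm j⟩
  let ι : B →+* κ := B.val.toRingHom
  have hι : Function.Injective ι := Subtype.val_injective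
  let θ' : B →+* ℂ := θ.toRingHom
  have e1 : ι.comp (algebraMap ℂ B) = algebraMap ℂ κ := RingHom.ext fun z => rfl
  have e2 : θ'.comp (algebraMap ℂ B) = RingHom.id ℂ := RingHom.ext fun z => θ.commutes z
  have h1 : chow d D (map (algebraMap ℂ B) Q) (comb (algebraMap ℂ B) A y) = 0 := by
    apply map_injective ι hι
    rw [hF, map_map, CNZ_map, e1, map_zero]
    exact h0
  have h2 : chow d D Q (comb (RingHom.id ℂ) A (fun j => θ' (y j))) = 0 := by
    have h3 := congrArg (map θ') h1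
    rw [hF, map_map, CNZ_map, e2, map_id, map_zero] at h3
    exact h3
  refine hLINE N d D Q _ hData.irr hData.hom (CNZ_hom A hData.homA _) ?_ h2
  intro hdvd
  have h3 := hData.nd _ hdvd
  exact hθ (congrFun h3 i)

end Pool.MPW
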