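import Pool.Agent.Work.MP_f82ddf_W.Interface

set_option autoImplicit false

/-! # MP_f82ddf_nt, theorem W, block DER: the resultant vanishes to order 2 (dual numbers) -/

namespace Pool.MPW

open MvPolynomial
open Pool.Agent.Work.MP_f82ddf_M5 (lineAt resAt)

section

variable {F : Type} [Field F]

theorem DER_fst (a c : F) : (dn a c).fst = a := by
  simp [dn]

theorem DER_snd (a c : F) : (dn a c).snd = c := by
  simp [dn]

theorem DER_mul (a c a' c' : F) : dn a c * dn a' c' = dn (a * a') (a * c' + a' * c) := by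
  apply TrivSqZeroExt.ext
  · rw [TrivSqZeroExt.fst_mul, DER_fst, DER_fst, DER_fst]
  · rw [TrivSqZeroExt.snd_mul, DER_snd, DER_snd, DER_snd, DER_fst, DER_fst]
    simp [mul_comm]

theorem DER_add (a c a' c' : F) : dn a c + dn a' c' = dn (a + a') (c + c') := by
  apply TrivSqZeroExt.ext
  · rw [TrivSqZeroExt.fst_add, DER_fst, DER_fst, DER_fst]
  · rw [TrivSqZeroExt.snd_add, DER_snd, DER_snd, DER_snd]

theorem DER_zero : dn (0 : F) 0 = 0 := by
  simp [dn]

theorem DER_alg (a : F) : algebraMap F (DualNumber F) a = dn a 0 := by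
  simp [dn, TrivSqZeroExt.algebraMap_eq_inl]

/-- Taylor -/
theorem DER_taylor {N : ℕ} (v w : Fin N → F) (H : MvPolynomial (Fin N) F) :
    eval₂ (algebraMap F (DualNumber F)) (fun j => dn (v j) (w j)) H =
      dn (eval v H) (∑ j, w j * eval v (pderiv j H)) := by
  induction H using MvPolynomial.induction_on with
  | C a => simp [DER_alg]
  | add p q hp hq =>
    rw [eval₂_add, hp, hq, DER_add, map_add]
    congr 1
    rw [← Finset.sum_add_distrib]
    refine Finset.sum_congr rfl fun j _ => ?_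
    rw [map_add, map_add, mul_add]
  | mul_X p i hp =>
    rw [eval₂_mul, hp, eval₂_X, DER_mul, map_mul, eval_X]
    congr 1
    have h : ∀ j, w j * eval v (pderiv j (p * X i)) =
        v i * (w j * eval v (pderiv j p)) + (if j = i then eval v p * w i else 0) := by
      intro j
      rw [pderiv_mul, map_add, map_mul, map_mul, eval_X, pderiv_X]
      by_cases hij : j = i
      · subst hij
        rw [if_pos rfl, Pi.single_eq_same, map_one]
        ring
      · rw [if_neg hij, Pi.single_eq_of_ne (fun h => hij h.symm), map_zero]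
        ring
    rw [Finset.sum_congr rfl fun j _ => h j, Finset.sum_add_distrib, ← Finset.mul_sum,
      Finset.sum_ite_eq' Finset.univ i, if_pos (Finset.mem_univ _)]
    ring

theorem DER_unit {a c : F} (ha : a ≠ 0) {x : DualNumber F} (h : dn a c * x = 0) : x = 0 := by
  have h1 : (dn a c * x).fst = 0 := by rw [h]; rfl
  have h2 : (dn a c * x).snd = 0 := by rw [h]; rfl
  rw [TrivSqZeroExt.fst_mul, DER_fst] at h1
  have h3 : x.fst = 0 := (mul_eq_zero.1 h1).resolve_left ha
  rw [TrivSqZeroExt.snd_mul, DER_fst, DER_snd, h3] at h2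
  have h4 : x.snd = 0 := by
    have h5 : a * x.snd = 0 := by simpa using h2
    exact (mul_eq_zero.1 h5).resolve_left ha
  exact TrivSqZeroExt.ext h3 h4

theorem DER_line {N : ℕ} (Q : MvPolynomial (Fin N) F) (a b : Fin N → DualNumber F)
    (s : DualNumber F) :
    (lineAt (algebraMap F (DualNumber F)) Q a b).eval s =
      eval₂ (algebraMap F (DualNumber F)) (fun j => a j * s + b j) Q := by
  have h := MvPolynomial.eval₂_comp_left (Polynomial.evalRingHom s)
    ((Polynomial.C : DualNumber F →+* Polynomial (DualNumber F)).comp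
      (algebraMap F (DualNumber F)))
    (fun i => Polynomial.C (a i) * Polynomial.X + Polynomial.C (b i)) Q
  refine h.trans ?_
  congr 1
  · ext x
    · simp
    · simp
  · funext j
    simp

end

theorem p_DER (hDEG : Pool.Agent.Work.MP_f82ddf_M5.Stmt_DEG) : Stmt_DER := by
  intro F _ N d D Q W v b₁ hQh hWh hQv hκ hOrd c₁ c₂
  obtain ⟨h, hh, hmem⟩ := hOrd
  have hd : d ≠ 0 := by
    rintro rfl
    apply hκ
    have h1 : Q = C (coeff 0 Q) := totalDegree_eq_zero_iff_eq_C.1
      (Nat.le_zero.1 hQh.totalDegree_le)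
    rw [h1]
    refine Finset.sum_eq_zero fun j _ => ?_
    rw [pderiv_C, map_zero, mul_zero]
  set κ : F := ∑ j, b₁ j * eval v (pderiv j Q) with hκdef
  set s₁ : F := -(∑ j, c₂ j * eval v (pderiv j Q)) / κ with hs₁
  -- the point
  have hp : (fun j => dn (b₁ j) (c₁ j) * dn 0 s₁ + dn (v j) (c₂ j)) =
      fun j => dn (v j) (c₂ j + s₁ * b₁ j) := by
    funext j
    rw [DER_mul, DER_add]
    congr 1
    · ring
    · ring
  set w : Fin N → F := fun j => c₂ j + s₁ * b₁ j with hw
  let ψ : MvPolynomial (Fin N) F →+* DualNumber F :=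
    eval₂Hom (algebraMap F (DualNumber F)) (fun j => dn (v j) (w j))
  have hψ : ∀ H, ψ H = dn (eval v H) (∑ j, w j * eval v (pderiv j H)) := fun H => DER_taylor v w H
  have hψQ : ψ Q = 0 := by
    rw [hψ, hQv]
    have h2 : ∑ j, w j * eval v (pderiv j Q) = 0 := by
      have h3 : ∀ j, w j * eval v (pderiv j Q) =
          c₂ j * eval v (pderiv j Q) + s₁ * (b₁ j * eval v (pderiv j Q)) := by
        intro j
        simp only [hw]
        ring
      rw [Finset.sum_congr rfl fun j _ => h3 j, Finset.sum_add_distrib, ← Finset.mul_sum,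
        ← hκdef, hs₁, div_mul_cancel₀ _ hκ]
      ring
    rw [h2, DER_zero]
  have hψμ : ∀ μ ∈ (RingHom.ker (eval v : MvPolynomial (Fin N) F →+* F)) ^ 2, ψ μ = 0 := by
    intro μ hμ
    have hle : (RingHom.ker (eval v : MvPolynomial (Fin N) F →+* F)) ^ 2 ≤ RingHom.ker ψ := by
      rw [sq, Ideal.mul_le]
      intro r hr s hs
      rw [RingHom.mem_ker] at hr hs ⊢
      rw [map_mul, hψ r, hψ s, hr, hs, DER_mul]
      simp [DER_zero]
    exact RingHom.mem_ker.1 (hle hμ)
  have hψW : ψ W = 0 := by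
    obtain ⟨μ, hμ, z, hz, hsum⟩ := Submodule.mem_sup.1 hmem
    obtain ⟨t, ht⟩ := Ideal.mem_span_singleton.1 hz
    have h4 : ψ h * ψ W = 0 := by
      rw [← map_mul, ← hsum, map_add, hψμ μ hμ, ht, map_mul, hψQ, zero_mul, add_zero]
    rw [hψ h] at h4
    exact DER_unit hh h4
  have e1 := DER_line Q (fun j => dn (b₁ j) (c₁ j)) (fun j => dn (v j) (c₂ j)) (dn 0 s₁)
  have e2 := DER_line W (fun j => dn (b₁ j) (c₁ j)) (fun j => dn (v j) (c₂ j)) (dn 0 s₁)
  rw [hp] at e1 e2
  have e1' : (lineAt (algebraMap F (DualNumber F)) Q (fun j => dn (b₁ j) (c₁ j))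
      (fun j => dn (v j) (c₂ j))).eval (dn 0 s₁) = 0 := e1.trans hψQ
  have e2' : (lineAt (algebraMap F (DualNumber F)) W (fun j => dn (b₁ j) (c₁ j))
      (fun j => dn (v j) (c₂ j))).eval (dn 0 s₁) = 0 := e2.trans hψW
  obtain ⟨P, R, -, -, hPR⟩ := Polynomial.exists_mul_add_mul_eq_C_resultant (m := d) (n := D)
    (lineAt (algebraMap F (DualNumber F)) Q (fun j => dn (b₁ j) (c₁ j))
      (fun j => dn (v j) (c₂ j)))
    (lineAt (algebraMap F (DualNumber F)) W (fun j => dn (b₁ j) (c₁ j))
      (fun j => dn (v j) (c₂ j)))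
    (hDEG N d F (DualNumber F) _ Q _ _ hQh).1 (hDEG N D F (DualNumber F) _ W _ _ hWh).1
    (Or.inl hd)
  have h5 := congrArg (Polynomial.eval (dn 0 s₁)) hPR
  rw [Polynomial.eval_add, Polynomial.eval_mul, Polynomial.eval_mul, e1', e2', zero_mul,
    zero_mul, add_zero, Polynomial.eval_C] at h5
  exact h5.symm

end Pool.MPW
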