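import Pool.Agent.Work.MP_f82ddf_W.Interface

set_option autoImplicit false

/-! Block DSF: the discriminant on lines. -/

open Pool.Agent.Work.MP_f82ddf_nt.DQ

namespace Pool.MPW

open MvPolynomial
open Pool.Agent.Work.MP_f82ddf_M5 (lineAt resAt chow at2 comb Data GoodDer)
open Pool.MPL (RX NC aq ae NPr Spn inc f0 fR gR)

theorem DSF_f0_C {N : ℕ} (a : ℂ) : f0 (C a : MvPolynomial (Fin N) ℂ) = Polynomial.C (C a) := by
  unfold f0 lineAt
  rw [eval₂_C]
  rfl

theorem DSF_f0_add {N : ℕ} (p q : MvPolynomial (Fin N) ℂ) : f0 (p + q) = f0 p + f0 q := by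
  unfold f0 lineAt
  rw [eval₂_add]

theorem DSF_f0_mul_X {N : ℕ} (p : MvPolynomial (Fin N) ℂ) (i : Fin N) :
    f0 (p * X i) = f0 p * (Polynomial.C (X (0, i)) * Polynomial.X + Polynomial.C (X (1, i))) := by
  unfold f0 lineAt
  rw [eval₂_mul, eval₂_X]

theorem DSF_ev {N : ℕ} {F : Type} [Field F] [Algebra ℂ F] (b : Fin 2 × Fin N → F) (s : F)
    (Q : MvPolynomial (Fin N) ℂ) :
    Polynomial.eval₂ (eval₂Hom (algebraMap ℂ F) b) s (f0 Q) =
      eval₂ (algebraMap ℂ F) (pv b s) Q := by
  induction Q using MvPolynomial.induction_on with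
  | C a => rw [DSF_f0_C, Polynomial.eval₂_C, eval₂_C, coe_eval₂Hom, eval₂_C]
  | add p q hp hq => rw [DSF_f0_add, Polynomial.eval₂_add, hp, hq, eval₂_add]
  | mul_X p i hp =>
    rw [DSF_f0_mul_X, Polynomial.eval₂_mul, hp, eval₂_mul, eval₂_X, Polynomial.eval₂_add,
      Polynomial.eval₂_mul, Polynomial.eval₂_C, Polynomial.eval₂_C, Polynomial.eval₂_X,
      coe_eval₂Hom, eval₂_X, eval₂_X]
    unfold pv
    ring

theorem DSF_dev {N : ℕ} {F : Type} [Field F] [Algebra ℂ F] (b : Fin 2 × Fin N → F) (s : F)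
    (Q : MvPolynomial (Fin N) ℂ) :
    Polynomial.eval₂ (eval₂Hom (algebraMap ℂ F) b) s (Polynomial.derivative (f0 Q)) =
      ∑ j, b (0, j) * eval₂ (algebraMap ℂ F) (pv b s) (pderiv j Q) := by
  classical
  induction Q using MvPolynomial.induction_on with
  | C a =>
    rw [DSF_f0_C, Polynomial.derivative_C, Polynomial.eval₂_zero]
    symm
    apply Finset.sum_eq_zero
    intro j _
    rw [pderiv_C, eval₂_zero, mul_zero]
  | add p q hp hq =>
    rw [DSF_f0_add, Polynomial.derivative_add, Polynomial.eval₂_add, hp, hq,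
      ← Finset.sum_add_distrib]
    refine Finset.sum_congr rfl fun j _ => ?_
    rw [map_add, eval₂_add]
    ring
  | mul_X p i hp =>
    rw [DSF_f0_mul_X, Polynomial.derivative_mul, Polynomial.eval₂_add, Polynomial.eval₂_mul,
      Polynomial.eval₂_mul, hp, DSF_ev]
    have h1 : Polynomial.derivative (Polynomial.C (X (0, i) : MvPolynomial (Fin 2 × Fin N) ℂ) *
        Polynomial.X + Polynomial.C (X (1, i))) = Polynomial.C (X (0, i)) := by
      rw [Polynomial.derivative_add, Polynomial.derivative_C, add_zero,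
        Polynomial.derivative_C_mul, Polynomial.derivative_X, mul_one]
    rw [h1, Polynomial.eval₂_C, Polynomial.eval₂_add, Polynomial.eval₂_mul, Polynomial.eval₂_C,
      Polynomial.eval₂_C, Polynomial.eval₂_X, coe_eval₂Hom, eval₂_X, eval₂_X]
    have h2 : ∀ j, b (0, j) * eval₂ (algebraMap ℂ F) (pv b s) (pderiv j (p * X i)) =
        (b (0, j) * eval₂ (algebraMap ℂ F) (pv b s) (pderiv j p)) * (b (0, i) * s + b (1, i)) +
        (if i = j then eval₂ (algebraMap ℂ F) (pv b s) p * b (0, j) else 0) := by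
      intro j
      rw [pderiv_mul, pderiv_X, eval₂_add, eval₂_mul, eval₂_mul, eval₂_X]
      by_cases hij : i = j
      · subst hij
        rw [Pi.single_eq_same, eval₂_one, if_pos rfl]
        unfold pv
        ring
      · rw [Pi.single_eq_of_ne hij, eval₂_zero, if_neg hij]
        unfold pv
        ring
    simp only [h2]
    rw [Finset.sum_add_distrib, ← Finset.sum_mul, Finset.sum_ite_eq]
    simp

theorem p_DSF (hFPR : Pool.MPL.Stmt_FPR) (hRES : Pool.Agent.Work.MP_f82ddf_M5.Stmt_RES) :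
    Stmt_DSF := by
  intro N d Q hQ hQd
  obtain ⟨hd1, hprime, hdeg, hcoeff, -⟩ := hFPR N d Q hQ hQd
  have hder : (Polynomial.derivative (f0 Q)).natDegree ≤ d - 1 := by
    rw [← hdeg]
    exact Polynomial.natDegree_derivative_le _
  have hder0 : Polynomial.derivative (f0 Q) ≠ 0 := by
    intro h
    have h1 := congrArg (fun p => Polynomial.coeff p (d - 1)) h
    simp only [Polynomial.coeff_derivative, Polynomial.coeff_zero] at h1
    rw [Nat.sub_add_cancel hd1] at h1
    rcases mul_eq_zero.1 h1 with h2 | h2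
    · exact hcoeff h2
    · have h3 : (((d - 1 : ℕ) : MvPolynomial (Fin 2 × Fin N) ℂ) + 1) =
          ((d : ℕ) : MvPolynomial (Fin 2 × Fin N) ℂ) := by
        rw [← Nat.cast_succ, Nat.succ_eq_add_one, Nat.sub_add_cancel hd1]
      rw [h3] at h2
      have h4 : d = 0 := by exact_mod_cast h2
      omega
  have hndvd : ¬ f0 Q ∣ Polynomial.derivative (f0 Q) := by
    intro h
    have h1 := Polynomial.natDegree_le_of_dvd h hder0
    omega
  have hres := hRES (MvPolynomial (Fin 2 × Fin N) ℂ) (f0 Q) (Polynomial.derivative (f0 Q)) d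
    (d - 1) hprime hdeg (by omega) hder hndvd
  refine ⟨_, hres, ?_⟩
  intro F _ _ b s hΔ hQ0 hsum
  obtain ⟨p, q, -, -, hpq⟩ := Polynomial.exists_mul_add_mul_eq_C_resultant (f0 Q)
    (Polynomial.derivative (f0 Q)) hdeg.le hder (Or.inl (by omega))
  apply hΔ
  have h1 := congrArg (Polynomial.eval₂ (eval₂Hom (algebraMap ℂ F) b) s) hpq
  rw [Polynomial.eval₂_add, Polynomial.eval₂_mul, Polynomial.eval₂_mul, DSF_ev, DSF_dev, hQ0,
    hsum, zero_mul, zero_mul, add_zero, Polynomial.eval₂_C, coe_eval₂Hom] at h1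
  exact h1.symm

end Pool.MPW
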