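import Pool.Agent.Work.MP_f82ddf_W.Interface

set_option autoImplicit false

/-! # Block DVP: a criterion for `P ^ 2 ∣ Φ` -/

namespace Pool.MPW

open MvPolynomial

section

variable {M : Type} [Field M] {σ : Type}

theorem DVP_C [CharZero M] {P : MvPolynomial σ M} (h : ∀ i, pderiv i P = 0) :
    P = C (coeff 0 P) := by
  classical
  ext m
  rw [coeff_C]
  split_ifs with h0
  · rw [← h0]
  · by_contra hm
    obtain ⟨i, hi⟩ : ∃ i, m i ≠ 0 := by
      by_contra hcon
      push Not at hcon
      exact h0 (by ext i; rw [hcon i]; rfl)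
    have h1 := coeff_pderiv (i := i) P (m - Finsupp.single i 1)
    rw [h i, coeff_zero] at h1
    have h2 : m - Finsupp.single i 1 + Finsupp.single i 1 = m := by
      rw [tsub_add_cancel_of_le]
      rw [Finsupp.single_le_iff]
      omega
    rw [h2] at h1
    rcases mul_eq_zero.1 h1.symm with h3 | h3
    · exact hm h3
    · exact Nat.cast_add_one_ne_zero _ h3

theorem DVP_deg {P : MvPolynomial σ M} {i : σ} (h : pderiv i P ≠ 0) :
    (pderiv i P).totalDegree < P.totalDegree := by
  classical
  have hstep : ∀ m ∈ (pderiv i P).support, (m.sum fun _ e => e) + 1 ≤ P.totalDegree := by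
    intro m hm
    rw [mem_support_iff, coeff_pderiv] at hm
    have h1 : m + Finsupp.single i 1 ∈ P.support := by
      rw [mem_support_iff]
      intro h0
      exact hm (by rw [h0, zero_mul])
    have h2 := le_totalDegree h1
    rw [Finsupp.sum_add_index' (by simp) (by simp), Finsupp.sum_single_index rfl] at h2
    exact h2
  obtain ⟨m0, hm0⟩ := support_nonempty.2 h
  have hpos := hstep m0 hm0
  rw [totalDegree, Finset.sup_lt_iff (by rw [Nat.bot_eq_zero]; omega)]
  intro m hm
  have := hstep m hm
  omega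

theorem DVP_dvd {P : MvPolynomial σ M} {i : σ} (h : P ∣ pderiv i P) : pderiv i P = 0 := by
  by_contra h0
  have := totalDegree_le_of_dvd_of_isDomain h h0
  have := DVP_deg h0
  omega

/-- the Taylor expansion of order one -/
theorem DVP_taylor {F : Type} [Field F] [Algebra M F] [Fintype σ] (b c : σ → F)
    (Ψ : MvPolynomial σ M) :
    eval₂ ((algebraMap F (DualNumber F)).comp (algebraMap M F)) (fun p => dn (b p) (c p)) Ψ =
      dn (eval₂ (algebraMap M F) b Ψ)
        (∑ p, c p * eval₂ (algebraMap M F) b (pderiv p Ψ)) := by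
  classical
  induction Ψ using MvPolynomial.induction_on with
  | C a =>
    rw [eval₂_C, eval₂_C]
    simp only [pderiv_C, eval₂_zero, mul_zero, Finset.sum_const_zero]
    unfold dn
    rw [TrivSqZeroExt.inr_zero, add_zero]
    rfl
  | add p q hp hq =>
    rw [eval₂_add, hp, hq, eval₂_add]
    simp only [map_add, eval₂_add, mul_add, Finset.sum_add_distrib]
    unfold dn
    rw [TrivSqZeroExt.inl_add, TrivSqZeroExt.inr_add]
    abel
  | mul_X p i hp =>
    rw [eval₂_mul, hp, eval₂_X, eval₂_mul, eval₂_X]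
    have h1 : ∀ j, c j * eval₂ (algebraMap M F) b (pderiv j (p * X i)) =
        c j * eval₂ (algebraMap M F) b (pderiv j p) * b i +
          (if j = i then c i * eval₂ (algebraMap M F) b p else 0) := by
      intro j
      rw [pderiv_mul, eval₂_add, eval₂_mul, eval₂_mul, eval₂_X]
      by_cases hj : j = i
      · subst hj
        rw [pderiv_X_self, if_pos rfl, eval₂_one]
        ring
      · rw [pderiv_X_of_ne (Ne.symm hj), if_neg hj, eval₂_zero]
        ring
    rw [Finset.sum_congr rfl fun j _ => h1 j, Finset.sum_add_distrib, ← Finset.sum_mul,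
      Finset.sum_ite_eq' Finset.univ i, if_pos (Finset.mem_univ i)]
    ext
    · simp [dn]
    · simp [dn]
      ring

end

/-- Block DVP. -/
theorem p_DVP : Stmt_DVP := by
  intro M F _ _ _ _ σ _ P Φ b hirr hP hΦ
  classical
  cases nonempty_fintype σ
  have key : ∀ c : σ → F, eval₂ (algebraMap M F) b Φ = 0 ∧
      ∑ p, c p * eval₂ (algebraMap M F) b (pderiv p Φ) = 0 := by
    intro c
    have h1 := hΦ c
    rw [DVP_taylor] at h1
    refine ⟨?_, ?_⟩
    · have := congrArg TrivSqZeroExt.fst h1
      simpa [dn] using this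
    · have := congrArg TrivSqZeroExt.snd h1
      simpa [dn] using this
  obtain ⟨Φ₁, hΦ₁⟩ := (hP Φ).1 (key 0).1
  have hder : ∀ p, P ∣ pderiv p Φ := by
    intro p
    apply (hP _).1
    have h2 := (key (Pi.single p 1)).2
    rw [Finset.sum_eq_single p] at h2
    · rwa [Pi.single_eq_same, one_mul] at h2
    · intro q _ hq
      rw [Pi.single_eq_of_ne hq, zero_mul]
    · intro h
      exact absurd (Finset.mem_univ _) h
  have hprime : Prime P := hirr.prime
  have h3 : ∀ p, P ∣ pderiv p P ∨ P ∣ Φ₁ := by
    intro p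
    have h4 := hder p
    rw [hΦ₁, pderiv_mul] at h4
    have h5 : P ∣ pderiv p P * Φ₁ := by
      have h6 : P ∣ P * pderiv p Φ₁ := dvd_mul_right _ _
      exact (dvd_add_left h6).1 h4
    exact hprime.dvd_or_dvd h5
  by_cases h7 : P ∣ Φ₁
  · obtain ⟨Φ₂, hΦ₂⟩ := h7
    exact ⟨Φ₂, by rw [hΦ₁, hΦ₂]; ring⟩
  · exfalso
    have h8 : ∀ p, pderiv p P = 0 := fun p => DVP_dvd ((h3 p).resolve_right h7)
    have h9 := DVP_C h8
    apply hirr.not_isUnit
    rw [h9]
    have h10 : coeff 0 P ≠ 0 := by
      intro h0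
      rw [h0, C_0] at h9
      exact hirr.ne_zero h9
    exact (isUnit_iff_ne_zero.2 h10).map C

end Pool.MPW
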