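import Pool.Agent.Work.MP_f82ddf_W.Interface
import Pool.Agent.Work.MP_f82ddf_U.B_FNU

set_option autoImplicit false

/-! # THEOREM W (MP_f82ddf_nt), block FW1 -/

open Pool.Agent.Work.MP_f82ddf_nt.DQ

namespace Pool.MPW

open MvPolynomial
open Pool.Agent.Work.MP_f82ddf_nt (PSpace HolomorphicOn complexPoints KobayashiHyperbolic
  exists_entire_curve not_kobayashi)
open Pool.ThmP (Mor OnX OnK tm)
open Pool.MPV (Full)
open Pool.MPL (FNU_countable FNU_G FNU_G_hom FNU_G_eval FNU_mono)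

/-- FW1 -/
theorem p_FW1 (h1 : Stmt_MPX) (h2 : Pool.ThmM0.Stmt_MREL) : Stmt_FW1 := by
  intro n c hn
  obtain ⟨N₀, hN⟩ := h1 n c hn
  refine ⟨N₀, fun N hNN K _ _ l hl a q ha hna => ?_⟩
  have : Countable (AlgebraicClosure K) := FNU_countable K
  obtain ⟨D, hD0, hD⟩ := hN (AlgebraicClosure K) N l hNN hl a q ha hna
  refine ⟨D, hD0, fun m S hS g hfin hdiv τ => ?_⟩
  set ι : K →+* ℂ := τ.comp (algebraMap K (AlgebraicClosure K)) with hι
  have hcurve : ∀ f : ℂ → PSpace ℂ m, HolomorphicOn f Set.univ →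
      (∀ z, f z ∈ complexPoints S ι) → (∃ a b, f a ≠ f b) → ∀ z, f z ∈ ExcW g D τ := by
    intro f hf hfX hab z
    obtain ⟨φ, hφ, i₀, hi₀, hF, hrep, hcon⟩ := exists_mer_of_curve hS ι f hf hfX
    obtain ⟨j, hj⟩ := hcon hab
    refine ⟨hfX z, fun s hs σ => ?_⟩
    obtain ⟨b, hb⟩ := g.homogeneous s hs
    obtain ⟨-, e, he⟩ := hD0 σ
    have hon : OnK (tm τ) S (fun j => Mer.mk (φ j) (hφ j)) := by
      intro F hFS
      have h3 : (tm τ).comp (algebraMap K (AlgebraicClosure K)) = (algebraMap ℂ Mer).comp ι := by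
        rw [tm, RingHom.comp_assoc, hι]
      rw [h3]
      exact hF F hFS
    have h4 := hD K m S hS g hfin hdiv τ (fun j => Mer.mk (φ j) (hφ j)) hon
      ⟨i₀, j, by rw [hi₀]; exact one_ne_zero, fun a => by rw [hi₀, mul_one]; exact hj a⟩ s hs σ
    have h5 : aeval (fun i => Mer.mk (φ (id i)) (hφ (id i)))
        (FNU_G τ (fun i => s (σ i)) (D σ)) = 0 := by
      rw [aeval_def, FNU_G_eval]
      exact h4
    have h6 := h2 m f φ hφ hf hrep (m + 1) (b * e) id (FNU_G τ (fun i => s (σ i)) (D σ))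
      (FNU_G_hom τ (fun i => s (σ i)) (D σ) (fun i => hb (σ i)) he) h5 z
    have h7 : eval (fun i => (f z).rep (id i)) (FNU_G τ (fun i => s (σ i)) (D σ)) =
        eval₂ (RingHom.id ℂ) (f z).rep (FNU_G τ (fun i => s (σ i)) (D σ)) := rfl
    rw [h7, FNU_G_eval, RingHom.id_comp] at h6
    exact h6
  refine ⟨hcurve, fun hX => ?_, fun hZ => ?_⟩
  · exact FNU_mono (fun p hp => hp.1) hX
  · by_contra hX
    obtain ⟨f, hf, hfX, a, b, hab⟩ := exists_entire_curve hS ι hX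
    exact not_kobayashi f hf (hcurve f hf hfX ⟨a, b, hab⟩) a b hab hZ

end Pool.MPW
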