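import Pool.Agent.Work.MP_f82ddf_W.Interface
import Pool.Agent.Work.MP_f82ddf_U.B_UIR

set_option autoImplicit false

/-! # THEOREM W: block GIR (the universal Chow form is irreducible up to a fixed factor) -/

open Pool.Agent.Work.MP_f82ddf_nt.DQ

namespace Pool.MPW

open MvPolynomial
open Pool.Agent.Work.MP_f82ddf_M5 (lineAt resAt chow at2 comb Data GoodDer)
open Pool.ThmM (NonProp HypData IsRat om dv vP)
open Pool.ThmM0 (Per ImageDimLE)
open Pool.ThmM.Chow (ppt Phi Mov subC PluF)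
open Pool.ThmP (Mor OnX OnK tm)
open Pool.MPL (RX NC aq ae NPr Spn inc f0 fR gR)
open Pool.MPV (Ful Full)

theorem p_GIR (hGLN : Stmt_GLN) (hGT2 : Stmt_GT2) (hGSM : Stmt_GSM) : Stmt_GIR := by
  intro N n d D Q A hn hD
  obtain ⟨-, -, -, hUF⟩ := hGLN N n d D Q A hD
  obtain ⟨H, δ, hH, hHU, hδ, hdvd⟩ := hGT2 N n d D Q A hD
  obtain ⟨v, b, L, h, hL, hLh, hev⟩ := hGSM N n d D Q A hn hD
  obtain ⟨μ, F, hHF, hUF'⟩ := WfDvdMonoid.max_power_factor hUF hH
  have hFdvd : F ∣ inc n (Fin 2 × Fin N) δ := by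
    have h1 : IsRelPrime F (H ^ d) := ((hH.isRelPrime_iff_not_dvd.2 hHF).pow_left).symm
    exact h1.dvd_of_dvd_mul_right ((Dvd.intro_left _ hUF'.symm).trans hdvd)
  obtain ⟨Fix, hFix, hF⟩ := Pool.MPL.UIR_fix n _ δ F hδ hFdvd
  have hFix0 : Fix ≠ 0 := by
    rintro rfl
    exact hδ (zero_dvd_iff.1 hFix)
  -- the value at the special pair
  have hev2 : L * h = eval (fun p => C (ppt v b p)) H ^ μ * C (eval (ppt v b) Fix) := by
    rw [← hev, hUF', map_mul, map_pow, hF, Pool.MPL.UIR_eval]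
  have hLh0 : L * h ≠ 0 := by
    refine mul_ne_zero hL.ne_zero ?_
    rintro rfl
    exact hLh (dvd_zero L)
  have hc0 : eval (ppt v b) Fix ≠ 0 := by
    intro h0
    rw [h0, C_0, mul_zero] at hev2
    exact hLh0 hev2
  have hunit : IsUnit (C (eval (ppt v b) Fix) : RX n) := (isUnit_iff_ne_zero.2 hc0).map C
  have hLpow : L ∣ eval (fun p => C (ppt v b p)) H ^ μ := by
    rw [← hunit.dvd_mul_right, ← hev2]
    exact dvd_mul_right L h
  have hμ0 : μ ≠ 0 := by
    rintro rfl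
    rw [pow_zero] at hLpow
    exact hL.not_unit (isUnit_of_dvd_one hLpow)
  have hLH := hL.dvd_of_dvd_pow hLpow
  have hμ1 : μ = 1 := by
    by_contra hne
    have h2 : L * L ∣ L * h := by
      rw [hev2, hunit.dvd_mul_right, ← pow_two]
      exact (pow_dvd_pow_of_dvd hLH 2).trans (pow_dvd_pow _ (by omega))
    exact hLh ((mul_dvd_mul_iff_left hL.ne_zero).1 h2)
  refine ⟨Fix, H, hFix0, hH, ?_⟩
  rw [hUF', hμ1, pow_one, hF, mul_comm]

end Pool.MPW
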