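import Pool.Agent.Work.MP_f82ddf_W.Interface

set_option autoImplicit false

/-! # THEOREM W, block GNB -/

open Pool.Agent.Work.MP_f82ddf_nt.DQ

namespace Pool.MPW

open MvPolynomial
open Pool.Agent.Work.MP_f82ddf_M5 (lineAt resAt chow at2 comb Data)
open Pool.ThmM (NonProp HypData IsRat)
open Pool.ThmM0 (Per)
open Pool.ThmM.Chow (ppt Phi Mov)
open Pool.MPL (RX aq inc)

/-- `φ = (aeval x) ∘ (map α)` -/
private noncomputable def GNB_phi {n : ℕ} (α : ℂ ≃+* ℂ) (x : Fin (n + 1) → Mer) : RX n →+* Mer :=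
  ((aeval x : RX n →ₐ[ℂ] Mer) : RX n →+* Mer).comp (map (α : ℂ →+* ℂ))

private lemma GNB_phi_alg {n : ℕ} (α : ℂ ≃+* ℂ) (x : Fin (n + 1) → Mer) :
    (GNB_phi α x).comp (algebraMap ℂ (RX n)) = (algebraMap ℂ Mer).comp (α : ℂ →+* ℂ) := by
  ext a
  simp [GNB_phi, algebraMap_eq]

private lemma GNB_phi_X {n : ℕ} (α : ℂ ≃+* ℂ) (x : Fin (n + 1) → Mer) (i : Fin (n + 1)) :
    GNB_phi α x (X i) = x i := by
  simp [GNB_phi]

private lemma GNB_map {σ : Type} {n : ℕ} (α : ℂ ≃+* ℂ) (x : Fin (n + 1) → Mer)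
    (F : MvPolynomial σ ℂ) : map (GNB_phi α x) (map (algebraMap ℂ (RX n)) F) =
      map (algebraMap ℂ Mer) (map (α : ℂ →+* ℂ) F) := by
  rw [map_map, map_map, GNB_phi_alg]

private lemma GNB_UG {N n : ℕ} (hFUN : Pool.Agent.Work.MP_f82ddf_M5.Stmt_FUN) (d D : ℕ)
    (Q : MvPolynomial (Fin N) ℂ) (A : Fin (n + 1) → MvPolynomial (Fin N) ℂ) (α : ℂ ≃+* ℂ)
    (x : Fin (n + 1) → Mer) :
    map (GNB_phi α x) (UG d D Q A) = chow d D (map (algebraMap ℂ Mer) (aq α Q))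
      (comb (algebraMap ℂ Mer) (fun i => aq α (A i)) x) := by
  unfold UG
  rw [hFUN.2.2.2.2.2, GNB_map]
  congr 1
  unfold comb
  rw [map_sum]
  refine Finset.sum_congr rfl fun i _ => ?_
  rw [map_mul, map_C, GNB_phi_X, GNB_map]
  rfl

theorem p_GNB : Pool.MPL.Stmt_MIR → Pool.MPL.Stmt_DSC → Stmt_GLN → Stmt_GIR →
    Pool.Agent.Work.MP_f82ddf_M5.Stmt_FUN → Stmt_GNB := by
  intro hMIR hDSC _hGLN hGIR hFUN N n d D Q A hn hdat
  obtain ⟨Fix0, H, hF0, hHirr, hUG⟩ := hGIR N n d D Q A hn hdat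
  obtain ⟨D₀, hD, hD2⟩ := hDSC (Fin 2 × Fin N) (RX n) H hHirr
  refine ⟨D₀, hD, ?_⟩
  intro α x P hPirr hPmov hPsq
  have hmap : chow d D (map (algebraMap ℂ Mer) (aq α Q))
      (comb (algebraMap ℂ Mer) (fun i => aq α (A i)) x) =
      map (algebraMap ℂ Mer) (map (α : ℂ →+* ℂ) Fix0) * map (GNB_phi α x) H := by
    rw [← GNB_UG hFUN, hUG, map_mul, inc, GNB_map]
  rw [hmap] at hPsq
  have hF0' : map (α : ℂ →+* ℂ) Fix0 ≠ 0 := by
    intro h0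
    exact hF0 (map_injective (α : ℂ →+* ℂ) α.injective (h0.trans (map_zero _).symm))
  have hPH := hPirr.prime.pow_dvd_of_dvd_mul_left 2
    (hMIR (Fin 2 × Fin N) P (map (α : ℂ →+* ℂ) Fix0) hPirr hPmov hF0') hPsq
  have h := hD2 Mer (GNB_phi α x) P hPirr hPH
  exact h

end Pool.MPW
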