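import Pool.Agent.Work.MP_f82ddf_W.Interface

set_option autoImplicit false

open Pool.Agent.Work.MP_f82ddf_nt.DQ

namespace Pool.MPW

open MvPolynomial
open Pool.Agent.Work.MP_f82ddf_M5 (lineAt resAt chow at2 comb Data GoodDer)

theorem GPA_eval_line {N : ℕ} {R F : Type} [CommRing R] [Field F] (φ : R →+* F)
    (Q : MvPolynomial (Fin N) R) (b : Fin 2 × Fin N → F) (s : F) :
    (lineAt φ Q (fun j => b (0, j)) (fun j => b (1, j))).eval s = eval₂ φ (pv b s) Q := by
  unfold lineAt pv
  induction Q using MvPolynomial.induction_on with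
  | C a => rw [eval₂_C, eval₂_C, RingHom.comp_apply, Polynomial.eval_C]
  | add p q hp hq => rw [eval₂_add, Polynomial.eval_add, hp, hq, eval₂_add]
  | mul_X p i hp =>
    rw [eval₂_mul, Polynomial.eval_mul, hp, eval₂_mul, eval₂_X, eval₂_X, Polynomial.eval_add,
      Polynomial.eval_mul, Polynomial.eval_C, Polynomial.eval_C, Polynomial.eval_X, mul_comm s]

theorem p_GPA (hFUN : Pool.Agent.Work.MP_f82ddf_M5.Stmt_FUN)
    (hDEG : Pool.Agent.Work.MP_f82ddf_M5.Stmt_DEG) (hDSF : Stmt_DSF) : Stmt_GPA := by
  classical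
  intro M _ _ N d D Q G P hQ hQd hGD hP hmov hdvd
  obtain ⟨_, _, _, hF4, hF5, hF6⟩ := hFUN
  have hPp : Prime P := hP.prime
  have hI : (Ideal.span {P}).IsPrime := (Ideal.span_singleton_prime hPp.ne_zero).mpr hPp
  let R := MvPolynomial (Fin 2 × Fin N) M ⧸ Ideal.span {P}
  have : IsDomain R := (Ideal.Quotient.isDomain_iff_prime _).mpr hI
  let L := FractionRing R
  let F := AlgebraicClosure L
  let φ : MvPolynomial (Fin 2 × Fin N) M →+* F :=
    (algebraMap L F).comp ((algebraMap R L).comp (Ideal.Quotient.mk (Ideal.span {P})))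
  letI : Algebra M F := (φ.comp C).toAlgebra
  have halg : algebraMap M F = φ.comp C := rfl
  have hev : ∀ H : MvPolynomial (Fin 2 × Fin N) M,
      eval₂ (algebraMap M F) (fun p => φ (X p)) H = φ H := by
    intro H
    rw [halg]
    induction H using MvPolynomial.induction_on with
    | C a => simp
    | add p q hp hq => rw [eval₂_add, hp, hq, map_add]
    | mul_X p i hp => rw [eval₂_mul, hp, eval₂_X, map_mul]
  have hker : ∀ H : MvPolynomial (Fin 2 × Fin N) M, φ H = 0 ↔ P ∣ H := by
    intro H
    have h1 : Function.Injective (algebraMap L F) := (algebraMap L F).injective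
    have h2 : Function.Injective (algebraMap R L) := IsFractionRing.injective R L
    constructor
    · intro h
      have h3 : (Ideal.Quotient.mk (Ideal.span {P})) H = 0 := by
        apply h2
        apply h1
        rw [map_zero, map_zero]
        exact h
      rwa [Ideal.Quotient.eq_zero_iff_mem, Ideal.mem_span_singleton] at h3
    · intro h
      have h3 : (Ideal.Quotient.mk (Ideal.span {P})) H = 0 := by
        rwa [Ideal.Quotient.eq_zero_iff_mem, Ideal.mem_span_singleton]
      change algebraMap L F (algebraMap R L ((Ideal.Quotient.mk (Ideal.span {P})) H)) = 0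
      rw [h3, map_zero, map_zero]
  have hgen : ∀ H : MvPolynomial (Fin 2 × Fin N) M,
      eval₂ (algebraMap M F) (fun p => φ (X p)) H = 0 ↔ P ∣ H := fun H => by rw [hev, hker]
  have hd : d ≠ 0 := by
    rintro rfl
    have h0 : Q.totalDegree = 0 := hQd.totalDegree hQ.ne_zero
    rw [totalDegree_eq_zero_iff_eq_C] at h0
    refine hQ.not_isUnit ?_
    rw [h0]
    refine (isUnit_iff_ne_zero.mpr fun hc => hQ.ne_zero ?_).map C
    rw [h0, hc, map_zero]
  set b : Fin 2 × Fin N → F := fun p => φ (X p) with hb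
  set f := lineAt (algebraMap M F) (map (algebraMap ℂ M) Q) (fun j => b (0, j)) (fun j => b (1, j))
    with hf
  set g := lineAt (algebraMap M F) G (fun j => b (0, j)) (fun j => b (1, j)) with hg
  obtain ⟨hf1, hf2, -, -⟩ := hDEG N d M F (algebraMap M F) (map (algebraMap ℂ M) Q)
    (fun j => b (0, j)) (fun j => b (1, j)) (hQd.map _)
  obtain ⟨hg1, -, -, -⟩ := hDEG N D M F (algebraMap M F) G
    (fun j => b (0, j)) (fun j => b (1, j)) hGD
  have hlead : f.coeff d ≠ 0 := by
    rw [hf2]
    intro h0
    have hne : rename (fun j : Fin N => ((0 : Fin 2), j)) Q ≠ 0 := by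
      intro h
      apply hQ.ne_zero
      apply rename_injective (fun j : Fin N => ((0 : Fin 2), j))
        (fun i j hij => (Prod.mk.inj hij).2)
      rw [h, map_zero]
    refine hmov _ hne ((hgen _).mp ?_)
    rw [map_rename, eval₂_rename]
    exact h0
  have hfd : f.natDegree = d := le_antisymm hf1 (Polynomial.le_natDegree_of_ne_zero hlead)
  have hf0 : f ≠ 0 := by
    intro h
    rw [h, Polynomial.coeff_zero] at hlead
    exact hlead rfl
  have hres : f.resultant g d D = 0 := by
    have h := hF5 N d D M F (algebraMap M F) (map (algebraMap ℂ M) Q) G (fun j => b (0, j))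
      (fun j => b (1, j))
    have h2 : at2 (algebraMap M F) (fun j => b (0, j)) (fun j => b (1, j))
        (chow d D (map (algebraMap ℂ M) Q) G) = 0 := by
      rw [← (hgen (chow d D (map (algebraMap ℂ M) Q) G)).mpr hdvd]
      unfold at2
      rw [coe_eval₂Hom]
      congr 1
      funext p
      rcases p with ⟨i, j⟩
      fin_cases i <;> simp
    rw [h2] at h
    exact h.symm
  have hncop : ¬ IsCoprime f g := by
    intro hcop
    have h1 := Polynomial.resultant_ne_zero _ _ hcop
    obtain ⟨k, hk⟩ := Nat.exists_eq_add_of_le hg1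
    rw [hk, Polynomial.resultant_add_right_deg _ _ _ _ k le_rfl, ← hfd] at hres
    rcases mul_eq_zero.mp hres with h | h
    · refine pow_ne_zero _ ?_ h
      rw [Polynomial.coeff_natDegree]
      exact Polynomial.leadingCoeff_ne_zero.mpr hf0
    · exact h1 h
  obtain ⟨s, hs1, hs2⟩ : ∃ s : F, f.eval s = 0 ∧ g.eval s = 0 := by
    have hgcd : (EuclideanDomain.gcd f g).degree ≠ 0 := by
      intro h0
      apply hncop
      rw [← EuclideanDomain.gcd_isUnit_iff, Polynomial.isUnit_iff_degree_eq_zero]
      exact h0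
    obtain ⟨s, hs⟩ := IsAlgClosed.exists_root _ hgcd
    refine ⟨s, ?_, ?_⟩
    · exact Polynomial.eval_eq_zero_of_dvd_of_eval_eq_zero (EuclideanDomain.gcd_dvd_left f g) hs
    · exact Polynomial.eval_eq_zero_of_dvd_of_eval_eq_zero (EuclideanDomain.gcd_dvd_right f g) hs
  rw [hf, GPA_eval_line] at hs1
  rw [hg, GPA_eval_line] at hs2
  refine ⟨F, inferInstance, inferInstance, b, s, hgen, hs1, hs2, ?_⟩
  obtain ⟨Δ, hΔ, hΔ2⟩ := hDSF N d Q hQ hQd
  letI : Algebra ℂ F := ((algebraMap M F).comp (algebraMap ℂ M)).toAlgebra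
  have h5 : algebraMap ℂ F = (algebraMap M F).comp (algebraMap ℂ M) := rfl
  have h6 := hΔ2 F b s
    (by
      intro h
      rw [h5, ← eval₂_map] at h
      exact hmov Δ hΔ ((hgen _).mp h))
    (by
      rw [h5, ← eval₂_map]
      exact hs1)
  rw [h5] at h6
  intro h7
  apply h6
  rw [← h7]
  refine Finset.sum_congr rfl fun j _ => ?_
  rw [eval₂_map]

end Pool.MPW
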