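import Pool.Agent.Work.MP_f82ddf_W.Interface

set_option autoImplicit false

/-! # Block GPB of THEOREM W (MP_f82ddf_nt): the transcendence degree of a point of `Q = G = 0` -/

namespace Pool.MPW

open MvPolynomial

theorem GPB_eval {M F : Type} [Field M] [Field F] [Algebra M F] {w : ℕ}
    (H : MvPolynomial (Fin (w + 1)) M) (v : Fin (w + 1) → F) :
    eval₂ (algebraMap M F) v H =
      Polynomial.eval₂ (eval₂Hom (algebraMap M F) (fun i : Fin w => v i.succ)) (v 0)
        (finSuccEquiv M w H) := by
  have h : eval₂Hom (algebraMap M F) v =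
      (Polynomial.eval₂RingHom (eval₂Hom (algebraMap M F) (fun i : Fin w => v i.succ)) (v 0)).comp
        (finSuccEquiv M w : MvPolynomial (Fin (w + 1)) M →+* Polynomial (MvPolynomial (Fin w) M)) := by
    apply ringHom_ext
    · intro r
      simp [finSuccEquiv_apply]
    · intro p
      refine Fin.cases ?_ (fun k => ?_) p
      · simp [finSuccEquiv_X_zero]
      · simp [finSuccEquiv_X_succ]
  exact congrArg (fun f : MvPolynomial (Fin (w + 1)) M →+* F => f H) h

theorem GPB_core (hRES : Pool.Agent.Work.MP_f82ddf_M5.Stmt_RES) {M F : Type} [Field M] [Field F]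
    [Algebra M F] {w : ℕ} (Q G : MvPolynomial (Fin (w + 1)) M) (v : Fin (w + 1) → F)
    (hQ : Irreducible Q) (hG : ¬ Q ∣ G) (hQv : eval₂ (algebraMap M F) v Q = 0)
    (hGv : eval₂ (algebraMap M F) v G = 0)
    (hind : AlgebraicIndependent M (fun i : Fin w => v i.succ)) : False := by
  rw [GPB_eval] at hQv hGv
  have hinj : Function.Injective (eval₂Hom (algebraMap M F) (fun i : Fin w => v i.succ)) := hind
  generalize eval₂Hom (algebraMap M F) (fun i : Fin w => v i.succ) = ψ at hQv hGv hinj
  have hf : Irreducible (finSuccEquiv M w Q) :=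
    (MulEquiv.irreducible_iff (finSuccEquiv M w).toMulEquiv).2 hQ
  have hfg : ¬ finSuccEquiv M w Q ∣ finSuccEquiv M w G := by
    intro h
    exact hG ((map_dvd_iff (finSuccEquiv M w)).1 h)
  generalize finSuccEquiv M w Q = f at hf hfg hQv
  generalize finSuccEquiv M w G = g at hfg hGv
  have hdeg : 0 < f.natDegree := by
    rcases Nat.eq_zero_or_pos f.natDegree with h0 | h0
    · exfalso
      rw [Polynomial.eq_C_of_natDegree_eq_zero h0, Polynomial.eval₂_C] at hQv
      have h1 : f.coeff 0 = 0 := hinj (by rw [hQv, map_zero])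
      apply hf.ne_zero
      rw [Polynomial.eq_C_of_natDegree_eq_zero h0, h1, Polynomial.C_0]
    · exact h0
  have hr := hRES (MvPolynomial (Fin w) M) f g f.natDegree g.natDegree hf.prime rfl hdeg le_rfl hfg
  apply hr
  apply hinj
  rw [map_zero]
  obtain ⟨p, q, _, _, hpq⟩ := Polynomial.exists_mul_add_mul_eq_C_resultant f g
    (m := f.natDegree) (n := g.natDegree) le_rfl le_rfl (Or.inl hdeg.ne')
  have h2 := congrArg (Polynomial.eval₂ ψ (v 0)) hpq
  rw [Polynomial.eval₂_add, Polynomial.eval₂_mul, Polynomial.eval₂_mul, hQv, hGv,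
    Polynomial.eval₂_C, zero_mul, zero_mul, add_zero] at h2
  exact h2.symm

theorem GPB_fill {F : Type} [Field F] {m w : ℕ} (v : Fin m → F) (I : Finset (Fin m))
    (hI : I.card ≤ w) : ∃ u : Fin w → F, v '' (I : Set (Fin m)) ⊆ Set.range u := by
  classical
  refine ⟨fun k => if h : (k : ℕ) < I.card then v (I.equivFin.symm ⟨k, h⟩) else 0, ?_⟩
  rintro _ ⟨i, hi, rfl⟩
  have hi' : i ∈ I := hi
  refine ⟨⟨(I.equivFin ⟨i, hi'⟩ : Fin I.card), lt_of_lt_of_le (Fin.is_lt _) hI⟩, ?_⟩
  simp

theorem p_GPB (hRES : Pool.Agent.Work.MP_f82ddf_M5.Stmt_RES) : Stmt_GPB := by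
  classical
  intro M F _ _ _ w Q G v hQ hG hQv hGv
  have hne : (Finset.univ.filter
      (fun I : Finset (Fin (w + 2)) => AlgebraicIndepOn M v (I : Set (Fin (w + 2))))).Nonempty := by
    refine ⟨∅, ?_⟩
    rw [Finset.mem_filter]
    refine ⟨Finset.mem_univ _, ?_⟩
    rw [Finset.coe_empty, AlgebraicIndepOn, algebraicIndependent_empty_type_iff]
    exact (algebraMap M F).injective
  obtain ⟨I, hI, hmax⟩ := Finset.exists_max_image _ Finset.card hne
  rw [Finset.mem_filter] at hI
  have hI := hI.2
  have hcl : ∀ j, IsAlgebraic (Algebra.adjoin M (v '' (I : Set (Fin (w + 2))))) (v j) := by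
    intro j
    by_cases hj : j ∈ I
    · exact isAlgebraic_algebraMap
        (⟨v j, Algebra.subset_adjoin ⟨j, hj, rfl⟩⟩ : Algebra.adjoin M (v '' (I : Set _)))
    · by_contra hcon
      have h1 : AlgebraicIndepOn M v ((insert j I : Finset (Fin (w + 2))) : Set (Fin (w + 2))) := by
        rw [Finset.coe_insert, AlgebraicIndepOn.insert_iff (by simpa using hj)]
        exact ⟨hI, hcon⟩
      have h2 := hmax (insert j I) (by rw [Finset.mem_filter]; exact ⟨Finset.mem_univ _, h1⟩)
      rw [Finset.card_insert_of_notMem hj] at h2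
      omega
  rcases Nat.lt_or_ge w I.card with hcard | hcard
  · exfalso
    -- all the indices but one
    obtain ⟨j₁, hj₁⟩ : ∃ j₁ : Fin (w + 2), ∀ j, j ≠ j₁ → j ∈ I := by
      have h1 : Iᶜ.card ≤ 1 := by
        have h3 := Finset.card_compl I
        rw [Fintype.card_fin] at h3
        omega
      rcases Finset.eq_empty_or_nonempty Iᶜ with h2 | ⟨j₁, h2⟩
      · refine ⟨0, fun j _ => ?_⟩
        by_contra h
        have : j ∈ Iᶜ := Finset.mem_compl.2 h
        rw [h2] at this
        exact absurd this (Finset.notMem_empty j)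
      · refine ⟨j₁, fun j hj => ?_⟩
        by_contra h
        exact hj (Finset.card_le_one.1 h1 j (Finset.mem_compl.2 h) j₁ h2)
    have hσσ : ∀ j, (Equiv.swap 0 j₁) ((Equiv.swap 0 j₁) j) = j := fun j => by simp
    have hmem : ∀ i : Fin (w + 1), (Equiv.swap 0 j₁) i.succ ∈ (I : Set (Fin (w + 2))) := by
      intro i
      apply hj₁
      intro h
      have h2 : i.succ = 0 := by
        have h3 := congrArg (Equiv.swap 0 j₁) h
        rw [hσσ, Equiv.swap_apply_right] at h3
        exact h3
      exact Fin.succ_ne_zero i h2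
    have hind : AlgebraicIndependent M
        (fun i : Fin (w + 1) => (v ∘ (Equiv.swap 0 j₁)) i.succ) := by
      have h1 := hI.comp (fun i : Fin (w + 1) =>
        (⟨(Equiv.swap 0 j₁) i.succ, hmem i⟩ : (I : Set (Fin (w + 2))))) (by
          intro a b hab
          have h2 := congrArg Subtype.val hab
          exact Fin.succ_injective _ ((Equiv.swap 0 j₁).injective h2))
      exact h1
    have hren : ∀ H : MvPolynomial (Fin (w + 2)) M,
        eval₂ (algebraMap M F) (v ∘ (Equiv.swap 0 j₁)) (renameEquiv M (Equiv.swap 0 j₁) H)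
          = eval₂ (algebraMap M F) v H := by
      intro H
      rw [renameEquiv_apply, eval₂_rename]
      congr 1
      funext j
      simp only [Function.comp_apply, hσσ]
    refine GPB_core hRES (renameEquiv M (Equiv.swap 0 j₁) Q) (renameEquiv M (Equiv.swap 0 j₁) G)
      (v ∘ (Equiv.swap 0 j₁)) ?_ ?_ ?_ ?_ hind
    · exact (MulEquiv.irreducible_iff (renameEquiv M (Equiv.swap 0 j₁)).toMulEquiv).2 hQ
    · intro h
      exact hG ((map_dvd_iff (renameEquiv M (Equiv.swap 0 j₁))).1 h)
    · rw [hren, hQv]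
    · rw [hren, hGv]
  · obtain ⟨u, hu⟩ := GPB_fill v I hcard
    refine ⟨u, fun j => ?_⟩
    rw [IntermediateField.isAlgebraic_adjoin_iff]
    have hF : FaithfulSMul M F := inferInstance
    have h1 : v j ∈ (AlgebraicIndependent.matroid M F).closure (v '' (I : Set (Fin (w + 2)))) := by
      rw [AlgebraicIndependent.matroid_closure_eq, SetLike.mem_coe, Subalgebra.mem_algebraicClosure]
      exact hcl j
    have h2 := (AlgebraicIndependent.matroid M F).closure_subset_closure hu h1
    rw [AlgebraicIndependent.matroid_closure_eq, SetLike.mem_coe,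
      Subalgebra.mem_algebraicClosure] at h2
    exact h2

end Pool.MPW
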