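import Pool.Agent.Work.MP_f82ddf_W.Interface
import Pool.Agent.Work.MP_f82ddf_U.B_USM

set_option autoImplicit false

/-! # THEOREM W, block GSM: a special line with a simple linear factor (forms of degree `D`) -/

namespace Pool.MPW

open MvPolynomial
open Pool.Agent.Work.MP_f82ddf_M5 (lineAt resAt chow at2 comb Data)
open Pool.ThmM.Chow (ppt Phi Mov)
open Pool.MPL (RX USM_point USM_deg USM_pd USM_ndvd USM_hom USM_prime)

theorem p_GSM : Pool.Agent.Work.MP_f82ddf_M5.Stmt_FUN → Pool.Agent.Work.MP_f82ddf_M5.Stmt_PTD →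
    Pool.Agent.Work.MP_f82ddf_M5.Stmt_IDE → Stmt_GSM := by
  intro hFUN hPTD hIDE N n d D Q A hn hdat
  obtain ⟨-, -, F3, F4, F5, -⟩ := hFUN
  obtain ⟨e, rfl⟩ : ∃ e, d = e + 1 := Nat.exists_eq_succ_of_ne_zero (USM_deg hdat.irr hdat.hom)
  have hQ0 : Q ≠ 0 := hdat.irr.ne_zero
  obtain ⟨i', hi'⟩ := USM_pd hQ0 hdat.hom
  have hndQ := USM_ndvd hQ0 hdat.hom hi'
  have hA0 : ¬ Q ∣ A 0 := by
    intro h
    have h1 : comb (RingHom.id ℂ) A (Pi.single 0 1) = A 0 := by
      unfold comb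
      rw [Finset.sum_eq_single 0]
      · rw [Pi.single_eq_same, C_1, one_mul, MvPolynomial.map_id]
      · intro j _ hj
        rw [Pi.single_eq_of_ne hj, C_0, zero_mul]
      · intro h1
        exact absurd (Finset.mem_univ _) h1
    have h2 := hdat.nd (Pi.single 0 1) (by rw [h1]; exact h)
    have h3 := congrFun h2 0
    rw [Pi.single_eq_same, Pi.zero_apply] at h3
    exact one_ne_zero h3
  have hnd : ¬ Q ∣ pderiv i' Q * A 0 := by
    intro h
    rcases hdat.irr.prime.dvd_or_dvd h with h | h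
    · exact hndQ h
    · exact hA0 h
  obtain ⟨v, hvQ, hv⟩ := USM_point hdat.irr hnd
  rw [map_mul] at hv
  have hv1 : eval v (pderiv i' Q) ≠ 0 := left_ne_zero_of_mul hv
  have hv0 : eval v (A 0) ≠ 0 := right_ne_zero_of_mul hv
  obtain ⟨i1, hi1⟩ : ∃ i1 : Fin (n + 1), i1 ≠ 0 := ⟨⟨1, by omega⟩, fun h => by
    have := congrArg Fin.val h
    simp at this⟩
  obtain ⟨y, hy⟩ : ∃ y : Fin (n + 1) → ℂ,
    y = Pi.single 0 (eval v (A i1)) - Pi.single i1 (eval v (A 0)) := ⟨_, rfl⟩
  have hy1 : y i1 = - eval v (A 0) := by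
    rw [hy, Pi.sub_apply, Pi.single_eq_of_ne hi1, Pi.single_eq_same, zero_sub]
  have hy0 : y 0 = eval v (A i1) := by
    rw [hy, Pi.sub_apply, Pi.single_eq_of_ne hi1.symm, Pi.single_eq_same, sub_zero]
  have hyo : ∀ j, j ≠ 0 → j ≠ i1 → y j = 0 := by
    intro j h1 h2
    rw [hy, Pi.sub_apply, Pi.single_eq_of_ne h1, Pi.single_eq_of_ne h2, sub_zero]
  have hyn : y ≠ 0 := by
    intro h
    rw [h, Pi.zero_apply] at hy1
    exact hv0 (neg_eq_zero.mp hy1.symm)
  have hsum : ∑ i, eval v (A i) * y i = 0 := by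
    rw [← Finset.add_sum_erase _ _ (Finset.mem_univ (0 : Fin (n + 1))),
      Finset.sum_eq_single i1]
    · rw [hy0, hy1]
      ring
    · intro j hj hj1
      rw [hyo j (Finset.ne_of_mem_erase hj) hj1, mul_zero]
    · intro h
      exact absurd (Finset.mem_erase.mpr ⟨hi1, Finset.mem_univ _⟩) h
  have hG : ¬ Q ∣ comb (RingHom.id ℂ) A y := fun h => hyn (hdat.nd y h)
  obtain ⟨b, hb, -⟩ := hPTD N e D Q (comb (RingHom.id ℂ) A y) 1 v hdat.irr hdat.hom
    (USM_hom _ A hdat.homA y) hG hvQ ⟨i', hv1⟩ one_ne_zero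
  -- the value of the universal form
  obtain ⟨va, hva⟩ : ∃ va : Fin N → RX n, va = fun j => C (v j) := ⟨_, rfl⟩
  obtain ⟨vb, hvb⟩ : ∃ vb : Fin N → RX n, vb = fun j => C (b j) := ⟨_, rfl⟩
  obtain ⟨q, hq⟩ : ∃ q : MvPolynomial (Fin N) (RX n), q = map (algebraMap ℂ (RX n)) Q := ⟨_, rfl⟩
  obtain ⟨g, hg⟩ : ∃ g : MvPolynomial (Fin N) (RX n), g = comb (algebraMap ℂ (RX n)) A X :=
    ⟨_, rfl⟩
  have hval : eval (fun p => C (ppt v b p)) (UG (e + 1) D Q A) =
      resAt (RingHom.id (RX n)) q g va vb (e + 1) D := by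
    rw [← F5]
    unfold UG at2
    rw [hq, hg, coe_eval₂Hom]
    show eval₂ (RingHom.id (RX n)) _ _ = _
    congr 1
    funext p
    rw [hva, hvb]
    unfold ppt
    by_cases h : p.1 = 0
    · rw [if_pos h, if_pos h]
    · rw [if_neg h, if_neg h]
  have hvq : eval₂ (RingHom.id (RX n)) va q = 0 := by
    rw [hq, eval₂_map]
    have h1 : va = fun j => (algebraMap ℂ (RX n)) (v j) := by
      rw [hva]
      rfl
    have h2 : eval₂ ((RingHom.id (RX n)).comp (algebraMap ℂ (RX n))) va Q =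
        algebraMap ℂ (RX n) (eval v Q) := by
      rw [h1, RingHom.id_comp]
      exact (MvPolynomial.eval₂_comp_left (algebraMap ℂ (RX n)) (RingHom.id ℂ) v Q).symm
    rw [h2, hvQ, map_zero]
  have hvg : eval₂ (RingHom.id (RX n)) va g = ∑ i, C (eval v (A i)) * X i := by
    rw [hg]
    unfold comb
    show eval va _ = _
    rw [map_sum]
    refine Finset.sum_congr rfl fun i _ => ?_
    rw [map_mul, eval_C, mul_comm]
    congr 1
    show eval₂ (RingHom.id (RX n)) va _ = _
    rw [eval₂_map]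
    have h1 : va = fun j => (algebraMap ℂ (RX n)) (v j) := by
      rw [hva]
      rfl
    rw [h1, RingHom.id_comp]
    exact (MvPolynomial.eval₂_comp_left (algebraMap ℂ (RX n)) (RingHom.id ℂ) v (A i)).symm
  have hide := hIDE N e D (RX n) (RX n) (RingHom.id (RX n)) q g va vb
    (by rw [hq]; exact hdat.hom.map _) (by rw [hg]; exact USM_hom _ A hdat.homA X) hvq
  rw [hvg] at hide
  refine ⟨v, b, ∑ i, C (eval v (A i)) * X i,
    (-1) ^ D * resAt (RingHom.id (RX n)) q g va vb e D,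
    USM_prime (fun i => eval v (A i)) hv0, ?_, ?_⟩
  · intro hdvd
    obtain ⟨s, hs⟩ := hdvd
    have h1 := congrArg (eval y) hs
    rw [map_mul, map_mul, map_sum] at h1
    have h2 : ∑ i, eval y (C (eval v (A i)) * X i : RX n) = 0 := by
      rw [← hsum]
      refine Finset.sum_congr rfl fun i _ => ?_
      rw [map_mul, eval_C, eval_X]
    rw [h2, zero_mul, map_pow, map_neg, map_one] at h1
    have h3 : eval y (resAt (RingHom.id (RX n)) q g va vb e D) = 0 := by
      rcases mul_eq_zero.mp h1 with h | h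
      · exact absurd h (pow_ne_zero _ (neg_ne_zero.mpr one_ne_zero))
      · exact h
    apply hb
    rw [← h3, F3, RingHom.comp_id]
    have h4 := F4 N e D (RX n) ℂ ℂ (RingHom.id ℂ) (eval y) q g v b
    rw [RingHom.id_comp] at h4
    have h5 : (fun i => eval y (va i)) = v := by
      funext j
      rw [hva, eval_C]
    have h6 : (fun i => eval y (vb i)) = b := by
      funext j
      rw [hvb, eval_C]
    rw [h5, h6, ← h4]
    have h7 : (eval y).comp (algebraMap ℂ (RX n)) = RingHom.id ℂ := by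
      ext z
      simp
    have h8 : map (eval y) q = Q := by
      rw [hq, map_map, h7, MvPolynomial.map_id]
    have h9 : map (eval y) g = comb (RingHom.id ℂ) A y := by
      rw [hg]
      unfold comb
      rw [map_sum]
      refine Finset.sum_congr rfl fun i _ => ?_
      rw [map_mul, map_C, map_map, h7, eval_X]
    rw [h8, h9]
  · rw [hval, hide]
    ring

end Pool.MPW
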