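import Pool.Agent.Work.MP_f82ddf_W.Interface
import Pool.Agent.Work.MP_f82ddf_U.B_TR1

set_option autoImplicit false

/-! # Block GT1: a linear factor over the field of one root -/

open Pool.Agent.Work.MP_f82ddf_nt.DQ

namespace Pool.MPW

open MvPolynomial
open Pool.Agent.Work.MP_f82ddf_M5 (lineAt resAt chow at2 comb Data)
open Pool.MPL (RX NC aq ae NPr Spn inc f0 fR gR)
open Pool.MPL (TR1_lin TR1_b TR1_inv TR1_th TR1_inv_C TR1_inv_X TR1_inv_th' TR1_th_inv' TR1_th_fR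
  TR1_th_gR TR1_th_inc TR1_den TR1_denM TR1_fac TR1_field TR1_sub)

theorem p_GT1 : Pool.MPL.Stmt_FPR → Stmt_GLN → Pool.Agent.Work.MP_f82ddf_M5.Stmt_RES →
    Stmt_GT1 := by
  classical
  intro hFPR hGLN hRES N n d D Q A hD
  obtain ⟨hd, hprime, hdeg, -, hdvd⟩ := hFPR N d Q hD.irr hD.hom
  obtain ⟨hUF, ⟨hdf, hdg⟩, -, hUF0⟩ := hGLN N n d D Q A hD
  obtain ⟨K, _, ψ, hker, hsurj⟩ := TR1_field (f0 Q) hprime
  have hden := TR1_den hRES (f0 Q) hprime (by omega) ψ hker hsurj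
  -- the homomorphism
  set Ψ : Polynomial (MvPolynomial (Fin 2 × Fin N) (RX n)) →+* MvPolynomial (Fin (n + 1)) K :=
    (MvPolynomial.map ψ).comp (TR1_th n) with hΨ
  have hΨker : ∀ a, Ψ a = 0 → fR n Q ∣ a := by
    intro a ha
    have h1 : C (f0 Q) ∣ TR1_th n a := (C_dvd_iff_map_hom_eq_zero ψ (f0 Q) hker _).2 ha
    obtain ⟨b, hb⟩ := h1
    refine ⟨TR1_inv n b, ?_⟩
    rw [← TR1_inv_th' n a, hb, map_mul, TR1_inv_C]
    rfl
  have hΨf : Ψ (fR n Q) = 0 := by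
    rw [hΨ, RingHom.comp_apply, TR1_th_fR, map_C, (hker _).2 dvd_rfl, C_0]
  have hΨg : Ψ (gR A) = ∑ i, X i * C (ψ (f0 (A i))) := by
    rw [hΨ, RingHom.comp_apply, TR1_th_gR, map_sum]
    refine Finset.sum_congr rfl fun i _ => ?_
    rw [map_mul, map_X, map_C]
  have hA0 : ψ (f0 (A 0)) ≠ 0 := by
    intro h0
    have h1 : Q ∣ A 0 := hdvd _ ((hker _).1 h0)
    have h2 := hD.nd (Pi.single 0 1) (by
      unfold comb
      rw [Finset.sum_eq_single 0]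
      · rw [Pi.single_eq_same, C_1, one_mul, MvPolynomial.map_id]
        exact h1
      · intro j _ hj
        rw [Pi.single_eq_of_ne hj, C_0, zero_mul]
      · intro h
        exact absurd (Finset.mem_univ _) h)
    have h3 := congrFun h2 0
    simp at h3
  have hL : Prime (Ψ (gR A)) := by
    rw [hΨg]
    exact TR1_lin _ 0 hA0
  -- the resultant is divisible by `L`
  obtain ⟨p, q, -, -, hpq⟩ := Polynomial.exists_mul_add_mul_eq_C_resultant (fR n Q) (gR A)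
    (m := d) (n := D) hdf hdg (Or.inl (by omega))
  rw [← hUF] at hpq
  have hdiv : Ψ (gR A) ∣ (Ψ.comp Polynomial.C) (UG d D Q A) := by
    refine ⟨Ψ q, ?_⟩
    rw [RingHom.comp_apply, ← hpq, map_add, map_mul, map_mul, hΨf, zero_mul, zero_add]
  obtain ⟨H, hHirr, hHd, M', hM'⟩ := TR1_fac (Ψ.comp Polynomial.C) hL (UG d D Q A) hUF0 hdiv
  obtain ⟨q₁, M₁, hq₁, hM₁⟩ := TR1_denM ψ hden M'
  have hzero : Ψ (Polynomial.C (inc n (Fin 2 × Fin N) q₁ * H) - gR A * TR1_inv n M₁) = 0 := by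
    have h1 : Ψ (Polynomial.C (inc n (Fin 2 × Fin N) q₁)) = C (ψ (Polynomial.C q₁)) := by
      rw [hΨ, RingHom.comp_apply, TR1_th_inc, map_C]
    have h2 : Ψ (TR1_inv n M₁) = map ψ M₁ := by
      rw [hΨ, RingHom.comp_apply, TR1_th_inv']
    rw [RingHom.comp_apply] at hM'
    refine TR1_sub (R := Polynomial (MvPolynomial (Fin 2 × Fin N) (RX n)))
      (S := MvPolynomial (Fin (n + 1)) K) Ψ _ _ ?_
    rw [Polynomial.C_mul, map_mul, h1, hM', map_mul, h2, ← hM₁]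
    ring
  obtain ⟨P, hP⟩ := hΨker _ hzero
  refine ⟨H, q₁, TR1_inv n M₁, P, hHirr, hHd, hq₁, ?_⟩
  rw [← hP]
  ring

end Pool.MPW
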