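import Pool.Agent.Work.MP_f82ddf_W.Interface

set_option autoImplicit false

/-! # Theorem W, block GT2: the norm argument with resultants, forms of degree `D` -/

namespace Pool.MPW

open MvPolynomial
open Pool.MPL (RX NC aq ae NPr Spn inc f0 fR gR)
open Pool.Agent.Work.MP_f82ddf_M5 (lineAt resAt chow at2 comb Data)

/-- if `C c = g M + f P`, then the resultant of `f` and `g` divides a power of the leading
coefficient of `f` times `c ^ d` -/
theorem GT2_res {R : Type} [CommRing R] (f g M P : Polynomial R) (c : R) (d D : ℕ)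
    (hf : f.natDegree ≤ d) (hg : g.natDegree ≤ D) (h : Polynomial.C c = g * M + f * P) :
    ∃ s : ℕ, f.resultant g d D ∣ f.coeff d ^ s * c ^ d := by
  obtain ⟨a, ha⟩ := Nat.exists_eq_add_of_le hg
  set e := P.natDegree + d with he
  set n' := g.natDegree + M.natDegree + e with hn'
  refine ⟨a + n', ?_⟩
  have h1 : f.resultant g d D = f.coeff d ^ a * f.resultant g d g.natDegree := by
    conv_lhs => rw [show f.resultant g d D = f.resultant g d (g.natDegree + a) by rw [← ha]]
    exact Polynomial.resultant_add_right_deg _ _ _ _ _ le_rfl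
  have h2 : f.resultant (g * M) d n' =
      f.coeff d ^ e * (f.resultant g d g.natDegree * f.resultant M d M.natDegree) := by
    rw [hn', Polynomial.resultant_add_right_deg _ _ _ _ _ Polynomial.natDegree_mul_le,
      Polynomial.resultant_mul_right _ _ _ _ hf]
  have h3 : f.resultant (g * M) d n' = f.coeff d ^ n' * c ^ d := by
    have h4 : g * M = Polynomial.C c + f * (-P) := by
      rw [h]
      ring
    rw [h4, Polynomial.resultant_add_mul_right _ _ _ _ _ ?_ hf, Polynomial.resultant_C_right]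
    rw [Polynomial.natDegree_neg, hn', he]
    omega
  refine ⟨f.coeff d ^ e * f.resultant M d M.natDegree, ?_⟩
  rw [h1, pow_add, mul_assoc, ← h3, h2]
  ring

theorem p_GT2 (hFPR : Pool.MPL.Stmt_FPR) (hGLN : Stmt_GLN) (hGT1 : Stmt_GT1) : Stmt_GT2 := by
  intro N n d D Q A hD
  obtain ⟨H, q, M, P, hH, hdvd, hq, hC⟩ := hGT1 N n d D Q A hD
  obtain ⟨_, _, _, hlc, _⟩ := hFPR N d Q hD.irr hD.hom
  obtain ⟨hUF, ⟨hf, hg⟩, _, _⟩ := hGLN N n d D Q A hD
  obtain ⟨s, hs⟩ := GT2_res (fR n Q) (gR A) M P _ d D hf hg hC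
  refine ⟨H, (f0 Q).coeff d ^ s * q ^ d, hH, hdvd,
    mul_ne_zero (pow_ne_zero _ hlc) (pow_ne_zero _ hq), ?_⟩
  rw [hUF]
  refine hs.trans (dvd_of_eq ?_)
  rw [map_mul, map_pow, map_pow, mul_pow]
  have h1 : (fR n Q).coeff d = inc n (Fin 2 × Fin N) ((f0 Q).coeff d) := by
    unfold fR
    rw [Polynomial.coeff_map]
  rw [h1, mul_assoc]

end Pool.MPW
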