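import Pool.Agent.Work.MP_f82ddf_W.Interface
import Pool.Agent.Work.MP_f82ddf_M5.T_GDR

set_option autoImplicit false

/-! # Block HGD (THEOREM W): a homogeneous good derivation (the proof of M5.GDR, with degrees) -/

namespace Pool.MPW

open MvPolynomial
open Pool.Agent.Work.MP_f82ddf_M5 (Pr)
open Pool.Agent.Work.MP_f82ddf_M5.GDR

theorem p_HGD (hCON : Pool.Agent.Work.MP_f82ddf_M5.Stmt_CON) : Stmt_HGD := by
  classical
  intro N d Q hQ hQd
  have hQp : Prime Q := hQ.prime
  obtain ⟨i₀, hd⟩ := exists_var hQ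
  obtain ⟨c, hc⟩ := hCON N
  set f : Pr N := pderiv i₀ Q with hf
  have hfQ : ¬ Q ∣ f := not_dvd_pderiv hQ.ne_zero hd
  set D₀ : Derivation ℂ (Pr N) (Pr N) := mkDerivation ℂ (fun i => C (c i) * X i) with hD₀
  let v : Fin N → Pr N := fun i => if i = i₀ then
    -∑ j ∈ Finset.univ.erase i₀, C (c j) * X j * pderiv j Q else f * (C (c i) * X i)
  set D₁ : Derivation ℂ (Pr N) (Pr N) := mkDerivation ℂ v with hD₁
  have hX0 : D₁ (X i₀) = -∑ j ∈ Finset.univ.erase i₀, C (c j) * X j * pderiv j Q := by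
    rw [hD₁, mkDerivation_X]
    exact if_pos rfl
  have hX1 : ∀ i, i ≠ i₀ → D₁ (X i) = f * D₀ (X i) := by
    intro i hi
    rw [hD₁, mkDerivation_X, hD₀, mkDerivation_X]
    exact if_neg hi
  have hDQ : D₁ Q = 0 := by
    rw [deriv_eq D₁ Q, ← Finset.add_sum_erase _ _ (Finset.mem_univ i₀), hX0, neg_mul,
      Finset.sum_mul, neg_add_eq_zero]
    refine Finset.sum_congr rfl fun j hj => ?_
    rw [hX1 j (Finset.ne_of_mem_erase hj), hD₀, mkDerivation_X]
    ring
  -- the derivations on the polynomials without `X i₀`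
  have hE1 : ∀ p ∈ EE N i₀, D₁ p = f * D₀ p ∧ D₀ p ∈ EE N i₀ := by
    intro p hp
    rw [EE, supported_eq_adjoin_X] at hp
    induction hp using Algebra.adjoin_induction with
    | mem x hx =>
      obtain ⟨i, hi, rfl⟩ := hx
      refine ⟨hX1 i hi, ?_⟩
      rw [hD₀, mkDerivation_X]
      refine Subalgebra.mul_mem _ ?_ ?_
      · exact (EE N i₀).algebraMap_mem (c i)
      · rw [EE, X_mem_supported]
        exact hi
    | algebraMap r =>
      rw [Derivation.map_algebraMap, Derivation.map_algebraMap]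
      exact ⟨by rw [mul_zero], Subalgebra.zero_mem _⟩
    | add x y _ _ hx hy =>
      rw [map_add, map_add]
      exact ⟨by rw [hx.1, hy.1]; ring, Subalgebra.add_mem _ hx.2 hy.2⟩
    | mul x y hx' hy' hx hy =>
      rw [← supported_eq_adjoin_X] at hx' hy'
      rw [Derivation.leibniz, Derivation.leibniz, smul_eq_mul, smul_eq_mul, smul_eq_mul,
        smul_eq_mul]
      exact ⟨by rw [hx.1, hy.1]; ring, Subalgebra.add_mem _ (Subalgebra.mul_mem _ hx' hy.2)
        (Subalgebra.mul_mem _ hy' hx.2)⟩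
  -- homogeneity
  have hd1 : 1 ≤ d := by
    by_contra hcon
    have hd0 : d = 0 := by omega
    rw [hd0] at hQd
    have h1 : ¬ degreeOf i₀ Q ≤ 0 := by omega
    rw [degreeOf_le_iff] at h1
    push Not at h1
    obtain ⟨u, hu, hu2⟩ := h1
    have h2 := hQd (mem_support_iff.1 hu)
    rw [Finsupp.weight_apply, Finsupp.sum] at h2
    have h3 : u i₀ ≤ 0 := by
      rw [← h2]
      have h4 : i₀ ∈ u.support := by rw [Finsupp.mem_support_iff]; omega
      have h5 := Finset.single_le_sum (f := fun a => u a • (1 : Fin N → ℕ) a)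
        (fun _ _ => Nat.zero_le _) h4
      simpa using h5
    omega
  have hCX : ∀ (j i : Fin N), ((C (c j) * X j : Pr N) * pderiv i Q).IsHomogeneous d := by
    intro j i
    have h1 : ((C (c j) * X j : Pr N) * pderiv i Q).IsHomogeneous (0 + 1 + (d - 1)) :=
      ((isHomogeneous_C (Fin N) (c j)).mul (isHomogeneous_X ℂ j)).mul hQd.pderiv
    convert h1 using 1
    omega
  have hXd : ∀ i, (D₁ (X i)).IsHomogeneous d := by
    intro i
    by_cases hi : i = i₀
    · rw [hi, hX0]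
      apply IsHomogeneous.neg
      apply IsHomogeneous.sum
      intro j _
      exact hCX j j
    · rw [hX1 i hi, hD₀, mkDerivation_X, mul_comm]
      exact hCX i i₀
  have hhom : ∀ (e : ℕ) (g : Pr N), g.IsHomogeneous e → (D₁ g).IsHomogeneous (e + (d - 1)) := by
    intro e g hg
    rw [deriv_eq D₁ g]
    apply IsHomogeneous.sum
    intro i _
    rcases Nat.eq_zero_or_pos e with he | he
    · subst he
      have h1 : g = C (coeff 0 g) := (totalDegree_eq_zero_iff_eq_C).1 (by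
        have := hg.totalDegree_le
        omega)
      rw [h1, pderiv_C, mul_zero]
      exact isHomogeneous_zero _ _ _
    · have h1 := (hXd i).mul (hg.pderiv (i := i))
      convert h1 using 1
      omega
  refine ⟨D₁, ⟨hDQ, ?_⟩, hhom⟩
  intro a b hb hab
  have hprime : (Ideal.span {Q}).IsPrime := (Ideal.span_singleton_prime hQp.ne_zero).2 hQp
  have hdom : IsDomain (Pr N ⧸ Ideal.span {Q}) := Ideal.Quotient.isDomain _
  set S := Pr N ⧸ Ideal.span {Q} with hS
  let mk : Pr N →+* S := Ideal.Quotient.mk (Ideal.span {Q})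
  have hmk : ∀ P, mk P = 0 ↔ Q ∣ P := by
    intro P
    show Ideal.Quotient.mk (Ideal.span {Q}) P = 0 ↔ Q ∣ P
    rw [Ideal.Quotient.eq_zero_iff_mem, Ideal.mem_span_singleton]
  have hB0 : mk b ≠ 0 := by rw [Ne, hmk]; exact hb
  have hf0 : mk f ≠ 0 := by rw [Ne, hmk]; exact hfQ
  have hab' : mk a * mk (D₁ b) = mk b * mk (D₁ a) := by
    rw [← sub_eq_zero, ← map_mul, ← map_mul, ← map_sub, hmk]
    exact hab
  -- the minimal relation
  let Rel : ℕ → Prop := fun s => ∃ p : ℕ → Pr N, (∀ j, p j ∈ EE N i₀) ∧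
    (∃ j, j ≤ s ∧ p j ≠ 0) ∧ Q ∣ ∑ j ∈ Finset.range (s + 1), p j * (a ^ j * b ^ (s - j))
  have hex : ∃ s, Rel s := exists_rel hQp i₀ a b hb
  obtain ⟨s, hs, hmin⟩ : ∃ s, Rel s ∧ ∀ m < s, ¬ Rel m :=
    ⟨Nat.find hex, Nat.find_spec hex, fun m hm => Nat.find_min hex hm⟩
  obtain ⟨p, hpE, hpne, hpQ⟩ := hs
  -- cancelling `b`
  have hcancel : ∀ (t : ℕ) (q : ℕ → Pr N), q (t + 1) = 0 →
      mk (∑ j ∈ Finset.range (t + 1 + 1), q j * (a ^ j * b ^ (t + 1 - j))) = 0 →
      Q ∣ ∑ j ∈ Finset.range (t + 1), q j * (a ^ j * b ^ (t - j)) := by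
    intro t q hq0 h1
    rw [Finset.sum_range_succ, hq0, zero_mul, add_zero] at h1
    have h2 : ∑ j ∈ Finset.range (t + 1), q j * (a ^ j * b ^ (t + 1 - j)) =
        b * ∑ j ∈ Finset.range (t + 1), q j * (a ^ j * b ^ (t - j)) := by
      rw [Finset.mul_sum]
      refine Finset.sum_congr rfl fun j hj => ?_
      have hj' : j ≤ t := by rw [Finset.mem_range] at hj; omega
      rw [show t + 1 - j = (t - j) + 1 by omega, pow_succ]
      ring
    rw [h2, map_mul] at h1
    rw [← hmk]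
    exact (mul_eq_zero.1 h1).resolve_left hB0
  have hs0 : s ≠ 0 := by
    rintro rfl
    obtain ⟨j, hj, hpj⟩ := hpne
    have hj0 : j = 0 := by omega
    rw [hj0] at hpj
    apply hpj
    apply not_dvd_E hQ.ne_zero hd (hpE 0)
    simpa using hpQ
  obtain ⟨t, rfl⟩ := Nat.exists_eq_succ_of_ne_zero hs0
  have hps : p (t + 1) ≠ 0 := by
    intro h0
    apply hmin t (Nat.lt_succ_self t)
    refine ⟨p, hpE, ?_, hcancel t p h0 ((hmk _).2 hpQ)⟩
    obtain ⟨j, hj, hpj⟩ := hpne
    refine ⟨j, ?_, hpj⟩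
    have : j ≠ t + 1 := by
      rintro rfl
      exact hpj h0
    have hj' : j ≤ t + 1 := hj
    omega
  -- apply the derivation
  have hder : mk (∑ j ∈ Finset.range (t + 1 + 1), D₀ (p j) * (a ^ j * b ^ (t + 1 - j))) = 0 := by
    have h1 : mk (D₁ (∑ j ∈ Finset.range (t + 1 + 1), p j * (a ^ j * b ^ (t + 1 - j)))) = 0 := by
      obtain ⟨r, hr⟩ := hpQ
      have hr' : ∑ j ∈ Finset.range (t + 1 + 1), p j * (a ^ j * b ^ (t + 1 - j)) = Q * r := hr
      rw [hr', D₁.leibniz, hDQ, smul_zero, add_zero, smul_eq_mul, hmk]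
      exact dvd_mul_right _ _
    have h2 : mk b * mk (D₁ (∑ j ∈ Finset.range (t + 1 + 1),
        p j * (a ^ j * b ^ (t + 1 - j)))) =
        mk b * (mk f * mk (∑ j ∈ Finset.range (t + 1 + 1),
          D₀ (p j) * (a ^ j * b ^ (t + 1 - j)))) +
        ((t + 1 : ℕ) : S) * mk (D₁ b) * mk (∑ j ∈ Finset.range (t + 1 + 1),
          p j * (a ^ j * b ^ (t + 1 - j))) := by
      rw [map_sum, map_sum, map_sum, map_sum, Finset.mul_sum, Finset.mul_sum, Finset.mul_sum,
        Finset.mul_sum, ← Finset.sum_add_distrib]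
      refine Finset.sum_congr rfl fun j hj => ?_
      have hj' : j ≤ t + 1 := by rw [Finset.mem_range] at hj; omega
      have e0 : mk (D₁ (p j * (a ^ j * b ^ (t + 1 - j)))) =
          mk (p j) * mk (D₁ (a ^ j * b ^ (t + 1 - j))) +
          mk (a ^ j * b ^ (t + 1 - j)) * (mk f * mk (D₀ (p j))) := by
        rw [D₁.leibniz, smul_eq_mul, smul_eq_mul, map_add, (hE1 _ (hpE j)).1,
          map_mul mk (p j) (D₁ (a ^ j * b ^ (t + 1 - j))),
          map_mul mk (a ^ j * b ^ (t + 1 - j)) (f * D₀ (p j)), map_mul mk f]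
      rw [e0, mul_add]
      have h3 := leib mk D₁ a b hab' j (t + 1 - j)
      have h4 : ((j + (t + 1 - j) : ℕ) : S) = ((t + 1 : ℕ) : S) := by
        congr 1
        omega
      rw [h4] at h3
      have h5 : mk b * (mk (p j) * mk (D₁ (a ^ j * b ^ (t + 1 - j)))) =
          mk (p j) * (((t + 1 : ℕ) : S) * (mk (a ^ j * b ^ (t + 1 - j)) * mk (D₁ b))) := by
        rw [← h3]; ring
      rw [h5, map_mul mk (D₀ (p j)), map_mul mk (p j)]
      ring
    have h6 : mk (∑ j ∈ Finset.range (t + 1 + 1), p j * (a ^ j * b ^ (t + 1 - j))) = 0 :=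
      (hmk _).2 hpQ
    rw [h1, h6, mul_zero, mul_zero, add_zero] at h2
    have h7 := (mul_eq_zero.1 h2.symm).resolve_left hB0
    exact (mul_eq_zero.1 h7).resolve_left hf0
  -- the combination
  have hcomb : ∀ j, j ≤ t → p (t + 1) * D₀ (p j) - p j * D₀ (p (t + 1)) = 0 := by
    by_contra hcon
    push Not at hcon
    obtain ⟨j, hj, hne⟩ := hcon
    apply hmin t (Nat.lt_succ_self t)
    refine ⟨fun j => p (t + 1) * D₀ (p j) - p j * D₀ (p (t + 1)), fun j => ?_, ⟨j, hj, hne⟩, ?_⟩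
    · exact Subalgebra.sub_mem _ (Subalgebra.mul_mem _ (hpE _) (hE1 _ (hpE _)).2)
        (Subalgebra.mul_mem _ (hpE _) (hE1 _ (hpE _)).2)
    · apply hcancel t
      · ring
      · have h6 : mk (∑ j ∈ Finset.range (t + 1 + 1), p j * (a ^ j * b ^ (t + 1 - j))) = 0 :=
          (hmk _).2 hpQ
        have h7 : ∑ j ∈ Finset.range (t + 1 + 1),
            (p (t + 1) * D₀ (p j) - p j * D₀ (p (t + 1))) * (a ^ j * b ^ (t + 1 - j)) =
            p (t + 1) * ∑ j ∈ Finset.range (t + 1 + 1), D₀ (p j) * (a ^ j * b ^ (t + 1 - j)) -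
            D₀ (p (t + 1)) * ∑ j ∈ Finset.range (t + 1 + 1),
              p j * (a ^ j * b ^ (t + 1 - j)) := by
          rw [Finset.mul_sum, Finset.mul_sum, ← Finset.sum_sub_distrib]
          refine Finset.sum_congr rfl fun j _ => ?_
          ring
        rw [h7, map_sub, map_mul, map_mul, hder, h6, mul_zero, mul_zero, sub_zero]
  -- the coefficients are constant multiples
  have hz : ∀ j, ∃ z : ℂ, j ≤ t + 1 → p j = C z * p (t + 1) := by
    intro j
    by_cases hj : j ≤ t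
    · obtain ⟨z, hz⟩ := hc (p j) (p (t + 1)) hps (by
        have h1 := hcomb j hj
        rw [sub_eq_zero] at h1
        exact h1.symm)
      exact ⟨z, fun _ => hz⟩
    · by_cases hj2 : j = t + 1
      · exact ⟨1, fun _ => by rw [hj2, C_1, one_mul]⟩
      · exact ⟨0, fun h => by omega⟩
  choose z hz using hz
  have hz1 : z (t + 1) = 1 := by
    have h1 := hz (t + 1) le_rfl
    have h2 : (C (z (t + 1)) - 1) * p (t + 1) = 0 := by
      rw [sub_mul, one_mul, ← h1, sub_self]
    have h3 := (mul_eq_zero.1 h2).resolve_right hps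
    rw [sub_eq_zero, ← C_1] at h3
    exact C_injective _ _ h3
  refine exists_root hQp a b hb (t + 1) z hz1 ?_
  have h1 : ∑ j ∈ Finset.range (t + 1 + 1), p j * (a ^ j * b ^ (t + 1 - j)) =
      p (t + 1) * ∑ j ∈ Finset.range (t + 1 + 1), C (z j) * (a ^ j * b ^ (t + 1 - j)) := by
    rw [Finset.mul_sum]
    refine Finset.sum_congr rfl fun j hj => ?_
    have hj' : j ≤ t + 1 := by rw [Finset.mem_range] at hj; omega
    rw [hz j hj']
    have h2 := hz j hj'
    ring
  have h2 : Q ∣ p (t + 1) * ∑ j ∈ Finset.range (t + 1 + 1), C (z j) *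
      (a ^ j * b ^ (t + 1 - j)) := by
    rw [← h1]
    exact hpQ
  rcases hQp.dvd_or_dvd h2 with h3 | h3
  · exact absurd (not_dvd_E hQ.ne_zero hd (hpE _) h3) hps
  · exact h3

end Pool.MPW
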