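import Pool.Agent.Work.MP_f82ddf_W.Interface

set_option autoImplicit false

/-! # THEOREM W, block IJE (helper67) -/

namespace Pool.MPW

theorem p_IJE : Stmt_IJE := by
  classical
  intro n a q σ hn
  have h1 : Fintype.card ((Set.range σ)ᶜ : Set (Fin (n + 1))) = q := by
    rw [Fintype.card_compl_set, Fintype.card_fin, Fintype.card_congr
      (Equiv.ofInjective σ σ.injective).symm, Fintype.card_fin]
    omega
  let e2 : Fin q ≃ ((Set.range σ)ᶜ : Set (Fin (n + 1))) := (Fintype.equivFinOfCardEq h1).symm
  refine ⟨(Equiv.sumCongr (Equiv.ofInjective σ σ.injective) e2).trans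
    (Equiv.Set.sumCompl (Set.range σ)), fun i => ?_⟩
  rfl

end Pool.MPW
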