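import Pool.Agent.Work.MP_f82ddf_W.Interface

set_option autoImplicit false

/-! # Block OVF of THEOREM W (MP_f82ddf_nt): the order at a point of the hypersurface -/

namespace Pool.MPW

open MvPolynomial
open Pool.Agent.Work.MP_f82ddf_M5 (lineAt resAt chow at2 comb Data GoodDer)

theorem OVF_comb_hom {N n D : ℕ} {F : Type} [Field F] [Algebra ℂ F]
    {A : Fin (n + 1) → MvPolynomial (Fin N) ℂ} (hA : ∀ i, (A i).IsHomogeneous D)
    (y : Fin (n + 1) → F) : (comb (algebraMap ℂ F) A y).IsHomogeneous D := by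
  unfold comb
  apply IsHomogeneous.sum
  intro i _
  have h1 := (isHomogeneous_C (Fin N) (y i)).mul ((hA i).map (algebraMap ℂ F))
  rwa [zero_add] at h1

theorem OVF_eval_at2 {N : ℕ} {F : Type} [Field F] (v : Fin N → F)
    (a b : Fin N → MvPolynomial (Fin N) F) (H : MvPolynomial (Fin 2 × Fin N) F) :
    eval v (at2 C a b H)
      = at2 (RingHom.id F) (fun i => eval v (a i)) (fun i => eval v (b i)) H := by
  have h : (eval v).comp (at2 (B := MvPolynomial (Fin N) F) C a b)
      = at2 (RingHom.id F) (fun i => eval v (a i)) (fun i => eval v (b i)) := by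
    apply ringHom_ext
    · intro r
      simp [at2]
    · intro p
      simp only [at2, RingHom.comp_apply, eval₂Hom_X']
      split_ifs <;> rfl
  exact congrArg (fun f : MvPolynomial (Fin 2 × Fin N) F →+* F => f H) h

theorem p_OVF (hFUN : Pool.Agent.Work.MP_f82ddf_M5.Stmt_FUN)
    (hIDE : Pool.Agent.Work.MP_f82ddf_M5.Stmt_IDE) (hPTK : Stmt_PTK) (hNDX : Stmt_NDX)
    (hABS : Stmt_ABS) : Stmt_OVF := by
  intro F _ _ N n e D k Q A hData x v hx hv hsm Ψ hΨ hat
  haveI : CharZero F := charZero_of_injective_algebraMap (algebraMap ℂ F).injective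
  have hirr : Irreducible (map (algebraMap ℂ F) Q) := hABS F N Q hData.irr
  have hnd : ¬ map (algebraMap ℂ F) Q ∣ comb (algebraMap ℂ F) A x := fun h =>
    hx (hNDX N n (e + 1) D Q A hData F x h)
  have hG := OVF_comb_hom (F := F) hData.homA x
  have hQh : (map (algebraMap ℂ F) Q).IsHomogeneous (e + 1) := hData.hom.map _
  generalize comb (algebraMap ℂ F) A x = G at hnd hG hΨ ⊢
  generalize map (algebraMap ℂ F) Q = QF at hirr hnd hv hsm hΨ hQh ⊢
  obtain ⟨b, hres⟩ := hPTK F N e D QF G v hirr hQh hG hnd hv hsm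
  -- the polynomial P
  have hP := hFUN.2.2.2.2.1 N (e + 1) D F (MvPolynomial (Fin N) F) C QF G X (fun i => C (b i))
  -- h
  have hhv := hFUN.2.2.1 N e D F (MvPolynomial (Fin N) F) F C (eval v) QF G X (fun i => C (b i))
  have hevC : (eval v).comp (C : F →+* MvPolynomial (Fin N) F) = RingHom.id F := by
    ext r
    simp
  simp only [eval_C, eval_X, hevC] at hhv
  -- modulo Q
  have hI := hIDE N e D F (MvPolynomial (Fin N) F ⧸ Ideal.span {QF})
    ((Ideal.Quotient.mk (Ideal.span {QF})).comp C) QF G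
    (fun i => Ideal.Quotient.mk (Ideal.span {QF}) (X i))
    (fun i => Ideal.Quotient.mk (Ideal.span {QF}) (C (b i))) hQh hG
  have hev2 : ∀ H : MvPolynomial (Fin N) F, eval₂ ((Ideal.Quotient.mk (Ideal.span {QF})).comp C)
      (fun i => Ideal.Quotient.mk (Ideal.span {QF}) (X i)) H
        = Ideal.Quotient.mk (Ideal.span {QF}) H := by
    intro H
    have h1 : eval₂Hom ((Ideal.Quotient.mk (Ideal.span {QF})).comp C)
        (fun i => Ideal.Quotient.mk (Ideal.span {QF}) (X i))
          = Ideal.Quotient.mk (Ideal.span {QF}) := by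
      apply ringHom_ext
      · intro r
        simp
      · intro p
        simp
    exact congrArg (fun f : MvPolynomial (Fin N) F →+*
      (MvPolynomial (Fin N) F ⧸ Ideal.span {QF}) => f H) h1
  have hQ0 : Ideal.Quotient.mk (Ideal.span {QF}) QF = 0 :=
    Ideal.Quotient.eq_zero_iff_mem.2 (Ideal.mem_span_singleton_self QF)
  rw [hev2, hev2] at hI
  have hI2 := hI hQ0
  have hF1 := hFUN.2.2.1 N (e + 1) D F (MvPolynomial (Fin N) F)
    (MvPolynomial (Fin N) F ⧸ Ideal.span {QF}) C
    (Ideal.Quotient.mk (Ideal.span {QF})) QF G X (fun i => C (b i))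
  have hF0 := hFUN.2.2.1 N e D F (MvPolynomial (Fin N) F)
    (MvPolynomial (Fin N) F ⧸ Ideal.span {QF}) C
    (Ideal.Quotient.mk (Ideal.span {QF})) QF G X (fun i => C (b i))
  rw [← hF1, ← hF0] at hI2
  generalize hh : resAt C QF G X (fun i => C (b i)) e D = h at hI2 hhv
  generalize hPP : resAt C QF G X (fun i => C (b i)) (e + 1) D = P at hI2 hP
  have hdvd : QF ∣ P - (-1) ^ D * G * h := by
    rw [← Ideal.mem_span_singleton, ← Ideal.Quotient.eq_zero_iff_mem, map_sub, hI2]
    simp
  -- `P` is in the `k`-th power of the maximal ideal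
  have hPsi : eval v (at2 (B := MvPolynomial (Fin N) F) C X (fun i => C (b i)) Ψ) = 0 := by
    have h1 := OVF_eval_at2 v X (fun i => C (b i)) Ψ
    simp only [eval_C, eval_X] at h1
    rw [h1]
    exact hat b
  have hPm : P ∈ (RingHom.ker (eval v : MvPolynomial (Fin N) F →+* F)) ^ k := by
    obtain ⟨w, hw⟩ := hΨ
    rw [hw, map_mul, map_pow] at hP
    rw [← hP]
    apply Ideal.mul_mem_right
    exact Ideal.pow_mem_pow ((RingHom.mem_ker).2 hPsi) k
  have hsg : ((-1 : MvPolynomial (Fin N) F) ^ D) * (-1) ^ D = 1 := by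
    rw [← mul_pow]
    simp
  refine ⟨h, ?_, ?_⟩
  · rw [hhv]
    exact hres
  · obtain ⟨w, hw⟩ := hdvd
    have h2 : h * G = (-1) ^ D * P + QF * (-((-1) ^ D * w)) := by
      have h3 : P = QF * w + (-1) ^ D * G * h := by rw [← hw]; ring
      rw [h3]
      have h4 : (-1 : MvPolynomial (Fin N) F) ^ D * (QF * w + (-1) ^ D * G * h)
          + QF * (-((-1) ^ D * w)) = ((-1) ^ D * (-1) ^ D) * (h * G) := by ring
      rw [h4, hsg, one_mul]
    rw [h2]
    apply Submodule.add_mem_sup
    · exact Ideal.mul_mem_left _ _ hPm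
    · exact Ideal.mul_mem_right _ _ (Ideal.mem_span_singleton_self QF)

end Pool.MPW
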