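import Pool.Agent.Work.MP_f82ddf_W.Interface

set_option autoImplicit false

/-! # Block OWR (THEOREM W): rules for orders -/

namespace Pool.MPW

open MvPolynomial

theorem OWR_der {R A : Type} [CommRing R] [CommRing A] [Algebra R A] (δ : Derivation R A A)
    (m : Ideal A) : ∀ (j : ℕ) (x : A), x ∈ m ^ (j + 1) → δ x ∈ m ^ j := by
  intro j
  induction j with
  | zero =>
    intro x _
    rw [pow_zero, Ideal.one_eq_top]
    exact Submodule.mem_top
  | succ j ih =>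
    intro x hx
    rw [pow_succ] at hx
    refine Submodule.mul_induction_on hx ?_ ?_
    · intro y hy z hz
      rw [δ.leibniz, smul_eq_mul, smul_eq_mul]
      refine Ideal.add_mem _ (Ideal.mul_mem_right _ _ hy) ?_
      rw [pow_succ']
      exact Ideal.mul_mem_mul hz (ih y hy)
    · intro y z hy hz
      rw [map_add]
      exact Ideal.add_mem _ hy hz

theorem p_OWR : Stmt_OWR := by
  intro F _ N Q v δ hδ
  have hmem : ∀ (I : Ideal (MvPolynomial (Fin N) F)) (x : MvPolynomial (Fin N) F),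
      x ∈ I ⊔ Ideal.span {Q} ↔ ∃ μ ∈ I, ∃ a, x = μ + a * Q := by
    intro I x
    rw [Submodule.mem_sup]
    constructor
    · rintro ⟨μ, hμ, z, hz, rfl⟩
      obtain ⟨a, rfl⟩ := Ideal.mem_span_singleton'.1 hz
      exact ⟨μ, hμ, a, rfl⟩
    · rintro ⟨μ, hμ, a, rfl⟩
      exact ⟨μ, hμ, a * Q, Ideal.mem_span_singleton'.2 ⟨a, rfl⟩, rfl⟩
  refine ⟨?_, ?_, ?_, ?_⟩
  · rintro j g ⟨h, hh, hg⟩
    obtain ⟨μ, hμ, a, hμa⟩ := (hmem _ _).1 hg
    have h1 : h * δ g + g * δ h = δ μ + Q * δ a := by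
      have h2 := congrArg δ hμa
      rw [δ.leibniz, map_add, δ.leibniz, hδ, smul_eq_mul, smul_eq_mul, smul_zero, zero_add,
        smul_eq_mul] at h2
      exact h2
    refine ⟨h ^ 2, ?_, ?_⟩
    · rw [map_pow]
      exact pow_ne_zero _ hh
    · rw [hmem]
      refine ⟨h * δ μ - μ * δ h, Ideal.sub_mem _ (Ideal.mul_mem_left _ _ (OWR_der δ _ j μ hμ))
        (Ideal.mul_mem_right _ _ (Ideal.pow_le_pow_right (Nat.le_succ j) hμ)),
        h * δ a - a * δ h, ?_⟩
      linear_combination h * h1 - δ h * hμa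
  · rintro j g g' ⟨h, hh, hg⟩ ⟨h', hh', hg'⟩
    refine ⟨h * h', ?_, ?_⟩
    · rw [map_mul]
      exact mul_ne_zero hh hh'
    · have h1 : h * h' * (g + g') = h' * (h * g) + h * (h' * g') := by ring
      rw [h1]
      exact Ideal.add_mem _ (Ideal.mul_mem_left _ _ hg) (Ideal.mul_mem_left _ _ hg')
  · rintro j f g ⟨h, hh, hg⟩
    refine ⟨h, hh, ?_⟩
    have h1 : h * (f * g) = f * (h * g) := by ring
    rw [h1]
    exact Ideal.mul_mem_left _ _ hg
  · rintro i j g hij ⟨h, hh, hg⟩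
    refine ⟨h, hh, ?_⟩
    obtain ⟨μ, hμ, a, hμa⟩ := (hmem _ _).1 hg
    exact (hmem _ _).2 ⟨μ, Ideal.pow_le_pow_right hij hμ, a, hμa⟩

end Pool.MPW
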