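import Pool.Agent.Work.MP_f82ddf_W.Interface

set_option autoImplicit false

/-! # Block PTK: the pointed version over any field of characteristic 0 -/

namespace Pool.MPW

open MvPolynomial
open Pool.Agent.Work.MP_f82ddf_M5 (lineAt resAt chow at2 comb Data GoodDer)

section

variable {N : ℕ} {F : Type} [Field F]

/-- the endomorphism `X i ↦ X i + v i * s` -/
noncomputable def PTK_S (v : Fin N → F) :
    Polynomial (MvPolynomial (Fin N) F) →+* Polynomial (MvPolynomial (Fin N) F) :=
  Polynomial.eval₂RingHom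
    (eval₂Hom ((Polynomial.C : MvPolynomial (Fin N) F →+* _).comp C)
      (fun i => Polynomial.C (C (v i)) * Polynomial.X + Polynomial.C (X i)))
    Polynomial.X

theorem PTK_S_X (v : Fin N → F) : PTK_S v Polynomial.X = Polynomial.X := by
  unfold PTK_S
  rw [Polynomial.coe_eval₂RingHom, Polynomial.eval₂_X]

theorem PTK_S_CC (v : Fin N → F) (r : F) :
    PTK_S v (Polynomial.C (C r)) = Polynomial.C (C r) := by
  unfold PTK_S
  rw [Polynomial.coe_eval₂RingHom, Polynomial.eval₂_C, eval₂Hom_C]
  rfl

theorem PTK_S_CX (v : Fin N → F) (i : Fin N) :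
    PTK_S v (Polynomial.C (X i)) =
      Polynomial.C (C (v i)) * Polynomial.X + Polynomial.C (X i) := by
  unfold PTK_S
  rw [Polynomial.coe_eval₂RingHom, Polynomial.eval₂_C, eval₂Hom_X']

theorem PTK_S_comp (v v' : Fin N → F) (h : ∀ i, v i + v' i = 0) :
    (PTK_S v).comp (PTK_S v') = RingHom.id _ := by
  apply Polynomial.ringHom_ext'
  · apply MvPolynomial.ringHom_ext
    · intro r
      have : PTK_S v (PTK_S v' (Polynomial.C (C r))) = Polynomial.C (C r) := by
        rw [PTK_S_CC, PTK_S_CC]
      exact this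
    · intro i
      have : PTK_S v (PTK_S v' (Polynomial.C (X i))) = Polynomial.C (X i) := by
        rw [PTK_S_CX, map_add, map_mul, PTK_S_CC, PTK_S_X, PTK_S_CX, ← add_assoc, ← add_mul,
          ← Polynomial.C_add, ← C_add, add_comm (v' i), h i, C_0, Polynomial.C_0,
          zero_mul, zero_add]
      exact this
  · have : PTK_S v (PTK_S v' Polynomial.X) = Polynomial.X := by
      rw [PTK_S_X, PTK_S_X]
    exact this

/-- the automorphism -/
noncomputable def PTK_E (v : Fin N → F) :
    Polynomial (MvPolynomial (Fin N) F) ≃+* Polynomial (MvPolynomial (Fin N) F) :=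
  RingEquiv.ofRingHom (PTK_S v) (PTK_S (fun i => - v i))
    (PTK_S_comp _ _ (fun i => add_neg_cancel (v i)))
    (PTK_S_comp _ _ (fun i => neg_add_cancel (v i)))

theorem PTK_line (v : Fin N → F) (Q : MvPolynomial (Fin N) F) :
    lineAt (B := MvPolynomial (Fin N) F) C Q (fun i => C (v i)) X =
      PTK_S v (Polynomial.C Q) := by
  unfold PTK_S lineAt
  rw [Polynomial.coe_eval₂RingHom, Polynomial.eval₂_C]
  rfl

theorem PTK_eval (v : Fin N → F) (Q : MvPolynomial (Fin N) F) :
    Polynomial.evalRingHom (0 : MvPolynomial (Fin N) F)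
      (lineAt (B := MvPolynomial (Fin N) F) C Q (fun i => C (v i)) X) = Q := by
  have h : (Polynomial.evalRingHom (0 : MvPolynomial (Fin N) F)).comp
      (eval₂Hom ((Polynomial.C : MvPolynomial (Fin N) F →+* _).comp C)
      (fun i : Fin N => Polynomial.C (C (v i)) * Polynomial.X + Polynomial.C (X i))) =
      RingHom.id _ := by
    apply MvPolynomial.ringHom_ext
    · intro r
      rw [RingHom.comp_apply, eval₂Hom_C]
      simp
    · intro i
      rw [RingHom.comp_apply, eval₂Hom_X']
      simp
  exact RingHom.congr_fun h Q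

end

/-- Block PTK. -/
theorem p_PTK (hFUN : Pool.Agent.Work.MP_f82ddf_M5.Stmt_FUN)
    (hDEG : Pool.Agent.Work.MP_f82ddf_M5.Stmt_DEG)
    (hRES : Pool.Agent.Work.MP_f82ddf_M5.Stmt_RES) : Stmt_PTK := by
  intro F _ _ N e D Q G v hirr hQ hG hdvd hv ⟨i₀, hi₀⟩
  obtain ⟨-, -, hF3, -, -, -⟩ := hFUN
  have hp1 : Prime (lineAt (B := MvPolynomial (Fin N) F) C Q (fun i => C (v i)) X) := by
    rw [PTK_line]
    exact (MulEquiv.prime_iff (PTK_E v).toMulEquiv).mpr (Polynomial.prime_C_iff.mpr hirr.prime)
  have hp3 : ¬ lineAt (B := MvPolynomial (Fin N) F) C Q (fun i => C (v i)) X ∣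
      lineAt (B := MvPolynomial (Fin N) F) C G (fun i => C (v i)) X := by
    intro h
    apply hdvd
    have h1 := map_dvd (Polynomial.evalRingHom (0 : MvPolynomial (Fin N) F)) h
    rw [PTK_eval, PTK_eval] at h1
    exact h1
  have hev : ∀ H : MvPolynomial (Fin N) F,
      eval₂ (C : F →+* MvPolynomial (Fin N) F) (fun i => C (v i)) H = C (eval v H) := by
    intro H
    rw [MvPolynomial.eval, coe_eval₂Hom, MvPolynomial.eval₂_comp_left]
    rfl
  obtain ⟨d1, d2, -, d4⟩ := hDEG N (e + 1) F (MvPolynomial (Fin N) F) C Q (fun i => C (v i)) X hQ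
  obtain ⟨g1, -, -, -⟩ := hDEG N D F (MvPolynomial (Fin N) F) C G (fun i => C (v i)) X hG
  have d5 := d4 e rfl
  rw [hev, hv, C_0] at d2
  have hne : (lineAt (B := MvPolynomial (Fin N) F) C Q (fun i => C (v i)) X).coeff e ≠ 0 := by
    rw [d5]
    intro h0
    have h1 := congrArg (eval (Pi.single i₀ (1 : F) : Fin N → F)) h0
    rw [map_sum, map_zero, Finset.sum_eq_single i₀] at h1
    · rw [map_mul, hev, eval_C, eval_X, Pi.single_eq_same, one_mul] at h1
      exact hi₀ h1
    · intro j _ hj
      rw [map_mul, eval_X, Pi.single_eq_of_ne hj, zero_mul]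
    · intro h
      exact absurd (Finset.mem_univ _) h
  have hdeg : (lineAt (B := MvPolynomial (Fin N) F) C Q (fun i => C (v i)) X).natDegree = e := by
    apply le_antisymm
    · by_contra hcon
      have h1 : (lineAt (B := MvPolynomial (Fin N) F) C Q (fun i => C (v i)) X).natDegree =
          e + 1 := by omega
      have h2 := Polynomial.leadingCoeff_ne_zero.2 hp1.ne_zero
      rw [Polynomial.leadingCoeff, h1] at h2
      exact h2 d2
    · exact Polynomial.le_natDegree_of_ne_zero hne
  have hR : resAt (B := MvPolynomial (Fin N) F) C Q G (fun i => C (v i)) X e D ≠ 0 := by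
    unfold resAt
    rcases Nat.eq_zero_or_pos e with he | he
    · subst he
      rw [Polynomial.resultant_zero_left_deg]
      exact pow_ne_zero _ hne
    · exact hRES _ _ _ e D hp1 hdeg he g1 hp3
  obtain ⟨w, hw⟩ : ∃ w : Fin N → F,
      eval w (resAt (B := MvPolynomial (Fin N) F) C Q G (fun i => C (v i)) X e D) ≠ 0 := by
    by_contra hcon
    push Not at hcon
    exact hR (MvPolynomial.funext fun w => by rw [hcon w, map_zero])
  refine ⟨w, ?_⟩
  rw [hF3] at hw
  have e1 : (eval w).comp (C : F →+* MvPolynomial (Fin N) F) = RingHom.id F := by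
    ext1 z
    simp
  rw [e1] at hw
  simpa using hw

end Pool.MPW
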