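import Pool.Agent.Work.MP_f82ddf_W.Interface

set_option autoImplicit false

open Pool.Agent.Work.MP_f82ddf_nt.DQ

namespace Pool.MPW

open MvPolynomial
open Pool.Agent.Work.MP_f82ddf_M5 (lineAt resAt chow at2 comb Data GoodDer)
open Pool.ThmM.Chow (PluF)

theorem PWT_comb_map {N n : ℕ} {M F : Type} [Field M] [Field F] (ψ : ℂ →+* M) (φ : M →+* F)
    (A : Fin (n + 1) → MvPolynomial (Fin N) ℂ) (x : Fin (n + 1) → M) :
    comb (φ.comp ψ) A (fun i => φ (x i)) = map φ (comb ψ A x) := by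
  unfold comb
  rw [map_sum]
  refine Finset.sum_congr rfl fun i _ => ?_
  rw [map_mul, map_C, map_map]

theorem PWT_comb_hom {N n D : ℕ} {M : Type} [Field M] (ψ : ℂ →+* M)
    (A : Fin (n + 1) → MvPolynomial (Fin N) ℂ) (hA : ∀ i, (A i).IsHomogeneous D)
    (x : Fin (n + 1) → M) : (comb ψ A x).IsHomogeneous D := by
  unfold comb
  refine IsHomogeneous.sum _ _ _ fun i _ => ?_
  have h := (isHomogeneous_C (Fin N) (x i)).mul ((hA i).map ψ)
  rwa [zero_add] at h

theorem p_PWT (hGPA : Stmt_GPA) (hGPB : Stmt_GPB) (hGPC : Stmt_GPC)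
    (hCHP : Pool.ThmM.Chow.Stmt_CHP) (hPFA : Pool.ThmM.Chow.Stmt_PFA)
    (hFUN : Pool.Agent.Work.MP_f82ddf_M5.Stmt_FUN) (hABS : Stmt_ABS) (hNDX : Stmt_NDX)
    (hCNZ : Stmt_CNZ) (hOVF : Stmt_OVF) (hOWR : Stmt_OWR) (hDER : Stmt_DER) (hDVP : Stmt_DVP)
    (hWRX : Stmt_WRX) : Stmt_PWT := by
  intro M _ _ w n a q d D Q A D₁ ε hdat hDQ hB x P hx hP hmov hdvd
  obtain ⟨_, _, _, hF4, hF5, hF6⟩ := hFUN
  have : CharZero M := charZero_of_injective_algebraMap (algebraMap ℂ M).injective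
  obtain ⟨e, rfl⟩ : ∃ e, d = e + 1 := by
    rcases d with _ | e
    · exfalso
      have h0 : Q.totalDegree = 0 := hdat.hom.totalDegree hdat.irr.ne_zero
      rw [totalDegree_eq_zero_iff_eq_C] at h0
      refine hdat.irr.not_isUnit ?_
      rw [h0]
      refine (isUnit_iff_ne_zero.mpr fun hc => hdat.irr.ne_zero ?_).map C
      rw [h0, hc, map_zero]
    · exact ⟨e, rfl⟩
  have h1 : Irreducible (map (algebraMap ℂ M) Q) := hABS M _ Q hdat.irr
  have h2 : (map (algebraMap ℂ M) Q).IsHomogeneous (e + 1) := hdat.hom.map _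
  have h3 : (comb (algebraMap ℂ M) A x).IsHomogeneous (e + 1) := PWT_comb_hom _ A hdat.homA x
  have h4 : ¬ map (algebraMap ℂ M) Q ∣ comb (algebraMap ℂ M) A x := fun h =>
    hx (hNDX _ _ _ _ Q A hdat M x h)
  have h5 : chow (e + 1) (e + 1) (map (algebraMap ℂ M) Q) (comb (algebraMap ℂ M) A x) ≠ 0 :=
    hCNZ _ _ _ _ Q A hdat M x hx
  have h6 : PluF ((e + 1) * (e + 1))
      (chow (e + 1) (e + 1) (map (algebraMap ℂ M) Q) (comb (algebraMap ℂ M) A x)) :=
    hCHP _ _ _ M _ _ h2 h3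
  have h7 : P ∣ chow (e + 1) (e + 1) (map (algebraMap ℂ M) Q) (comb (algebraMap ℂ M) A x) :=
    (dvd_pow_self P (by omega)).trans hdvd
  obtain ⟨ρ, hρ⟩ : ∃ ρ, PluF ρ P := by
    obtain ⟨H, hH⟩ := h7
    rw [hH] at h5 h6
    obtain ⟨ρ, _, hρ⟩ := hPFA _ _ M P H h5 h6
    exact ⟨ρ, hρ⟩
  obtain ⟨F, _, _, b, s, hgen, hQ, hG, hsm⟩ := hGPA M (w + 2) (e + 1) (e + 1) Q _ P hdat.irr
    hdat.hom h3 hP hmov h7
  obtain ⟨u, hu⟩ := hGPB M F w _ _ (pv b s) h1 h4 hQ hG
  have hvan := hGPC M F w ρ P b s u hP hρ hgen hu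
  letI : Algebra ℂ F := ((algebraMap M F).comp (algebraMap ℂ M)).toAlgebra
  have halg : algebraMap ℂ F = (algebraMap M F).comp (algebraMap ℂ M) := rfl
  have hmap : ∀ f : MvPolynomial (Fin (w + 2)) ℂ,
      map (algebraMap ℂ F) f = map (algebraMap M F) (map (algebraMap ℂ M) f) := by
    intro f
    rw [map_map, halg]
  have hcomb : ∀ (n' : ℕ) (A' : Fin (n' + 1) → MvPolynomial (Fin (w + 2)) ℂ)
      (x' : Fin (n' + 1) → M), comb (algebraMap ℂ F) A' (fun i => algebraMap M F (x' i)) =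
        map (algebraMap M F) (comb (algebraMap ℂ M) A' x') := by
    intro n' A' x'
    rw [halg]
    exact PWT_comb_map _ _ A' x'
  have hxF : (fun i => algebraMap M F (x i)) ≠ 0 := by
    intro h
    apply hx
    funext i
    exact (map_eq_zero_iff _ (algebraMap M F).injective).mp (congrFun h i)
  have hQv : eval (pv b s) (map (algebraMap ℂ F) Q) = 0 := by
    rw [hmap, eval_map]
    exact hQ
  have hsmF : ∑ j, b (0, j) * eval (pv b s) (pderiv j (map (algebraMap ℂ F) Q)) ≠ 0 := by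
    intro h0
    apply hsm
    rw [← h0]
    refine Finset.sum_congr rfl fun j _ => ?_
    rw [pderiv_map, hmap, eval_map]
  have hsm1 : ∃ i, eval (pv b s) (pderiv i (map (algebraMap ℂ F) Q)) ≠ 0 := by
    by_contra hcon
    push Not at hcon
    apply hsmF
    refine Finset.sum_eq_zero fun j _ => ?_
    rw [hcon j, mul_zero]
  have hord := hOVF F (w + 2) n e (e + 1) (q + 2) Q A hdat (fun i => algebraMap M F (x i))
    (pv b s) hxF hQv hsm1 (map (algebraMap M F) P)
    (by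
      rw [hcomb, hmap, ← hF6, ← map_pow]
      exact map_dvd (map (algebraMap M F)) hdvd)
    (by
      intro b'
      have h := hvan b'
      unfold at2 at h ⊢
      rw [coe_eval₂Hom] at h ⊢
      rw [eval₂_map]
      exact h)
  obtain ⟨δ, hδ, f, hf⟩ := hWRX F (w + 2) n a q D₁ A ε
  obtain ⟨o1, o2, o3, o4⟩ := hOWR F (w + 2) (map (algebraMap ℂ F) Q) (pv b s) δ
    (by rw [hδ, hDQ, map_zero])
  have hjs : ∀ j : ℕ, j ≤ q → OrdGE (map (algebraMap ℂ F) Q) (pv b s) (q + 2 - j)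
      (δ^[j] (comb (algebraMap ℂ F) A (fun i => algebraMap M F (x i)))) := by
    intro j
    induction j with
    | zero => intro _; exact hord
    | succ j ih =>
      intro hj
      rw [Function.iterate_succ_apply']
      refine o1 _ _ ?_
      have h := ih (by omega)
      rwa [show q + 2 - j = q + 2 - (j + 1) + 1 by omega] at h
  have hW : OrdGE (map (algebraMap ℂ F) Q) (pv b s) 2
      (comb (algebraMap ℂ F) (wr D₁ A ε) (fun i => algebraMap M F (x (ε (Sum.inl i))))) := by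
    rw [hf (fun i => algebraMap M F (x i))]
    refine Finset.sum_induction _ (OrdGE (map (algebraMap ℂ F) Q) (pv b s) 2) (o2 2) ?_ ?_
    · have h := o3 2 0 _ (o4 2 (q + 2) _ (by omega) hord)
      rwa [zero_mul] at h
    · intro j _
      exact o3 2 _ _ (o4 2 (q + 2 - j) _ (by have := j.isLt; omega)
        (hjs j (by have := j.isLt; omega)))
  have hBM : (comb (algebraMap ℂ M) (wr D₁ A ε) (fun i => x (ε (Sum.inl i)))).IsHomogeneous D :=
    PWT_comb_hom _ _ hB _
  refine hDVP M F (Fin 2 × Fin (w + 2)) P _ b hP hgen ?_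
  intro c
  have hBF : (comb (algebraMap ℂ F) (wr D₁ A ε)
      (fun i => algebraMap M F (x (ε (Sum.inl i))))).IsHomogeneous D :=
    PWT_comb_hom _ _ hB _
  have hres := hDER F (w + 2) (e + 1) D (map (algebraMap ℂ F) Q) _ (pv b s)
    (fun j => b (0, j)) (hdat.hom.map _) hBF hQv hsmF hW (fun j => c (0, j))
    (fun j => c (1, j) + s * c (0, j))
  rw [hmap, hcomb a (wr D₁ A ε) (fun i => x (ε (Sum.inl i))), hF4, ← hF5] at hres
  have hplu := (hCHP (w + 2) (e + 1) D M (map (algebraMap ℂ M) Q)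
    (comb (algebraMap ℂ M) (wr D₁ A ε) (fun i => x (ε (Sum.inl i)))) h2 hBM (DualNumber F)
    ((algebraMap F (DualNumber F)).comp (algebraMap M F)) (fun j => dn (b (0, j)) (c (0, j)))
    (fun j => dn (b (1, j)) (c (1, j))) (TrivSqZeroExt.inl s)).2.1
  have hpt : (fun j => dn (b (1, j)) (c (1, j)) +
      (TrivSqZeroExt.inl s : DualNumber F) * dn (b (0, j)) (c (0, j))) =
      fun j => dn (pv b s j) (c (1, j) + s * c (0, j)) := by
    funext j
    unfold dn pv
    ext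
    · simp [TrivSqZeroExt.fst_mul]
      ring
    · simp [TrivSqZeroExt.snd_mul]
  rw [hpt] at hplu
  rw [hplu] at hres
  rw [← hres]
  unfold at2
  rw [coe_eval₂Hom]
  congr 1
  funext p
  rcases p with ⟨i, j⟩
  fin_cases i <;> simp

end Pool.MPW
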