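import Pool.Agent.Work.MP_f82ddf_W.Interface

set_option autoImplicit false

/-! # Block WRC: conjugation of the Wronskian forms -/

namespace Pool.MPW

open MvPolynomial
open Pool.MPL (aq)

theorem WRC_smul (α : ℂ ≃+* ℂ) {N : ℕ} (c : ℂ) (f : MvPolynomial (Fin N) ℂ) :
    aq α (c • f) = α c • aq α f := by
  simp only [aq, smul_eq_C_mul, map_mul, map_C]
  rfl

theorem WRC_symm (α : ℂ ≃+* ℂ) {N : ℕ} (f : MvPolynomial (Fin N) ℂ) :
    aq α (aq α.symm f) = f := by
  simp only [aq, map_map]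
  have h : (α : ℂ →+* ℂ).comp (α.symm : ℂ →+* ℂ) = RingHom.id ℂ := by
    ext c
    simp
  rw [h, map_id]

theorem WRC_symm' (α : ℂ ≃+* ℂ) {N : ℕ} (f : MvPolynomial (Fin N) ℂ) :
    aq α.symm (aq α f) = f := by
  simp only [aq, map_map]
  have h : (α.symm : ℂ →+* ℂ).comp (α : ℂ →+* ℂ) = RingHom.id ℂ := by
    ext c
    simp
  rw [h, map_id]

/-- the conjugate derivation -/
noncomputable def WRC_D (α : ℂ ≃+* ℂ) {N : ℕ}
    (D₁ : Derivation ℂ (MvPolynomial (Fin N) ℂ) (MvPolynomial (Fin N) ℂ)) :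
    Derivation ℂ (MvPolynomial (Fin N) ℂ) (MvPolynomial (Fin N) ℂ) where
  toFun f := aq α (D₁ (aq α.symm f))
  map_add' f g := by simp only [aq, map_add]
  map_smul' c f := by
    rw [WRC_smul, Derivation.map_smul, WRC_smul]
    simp
  map_one_eq_zero' := by
    show aq α (D₁ (aq α.symm 1)) = 0
    simp only [aq, map_one, Derivation.map_one_eq_zero, map_zero]
  leibniz' f g := by
    show aq α (D₁ (aq α.symm (f * g))) = f • aq α (D₁ (aq α.symm g)) + g • aq α (D₁ (aq α.symm f))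
    have h1 : aq α.symm (f * g) = aq α.symm f * aq α.symm g := by simp only [aq, map_mul]
    rw [h1, Derivation.leibniz]
    have h2 : aq α (aq α.symm f • D₁ (aq α.symm g) + aq α.symm g • D₁ (aq α.symm f)) =
        aq α (aq α.symm f) * aq α (D₁ (aq α.symm g)) +
          aq α (aq α.symm g) * aq α (D₁ (aq α.symm f)) := by
      simp only [aq, map_add, smul_eq_mul, map_mul]
    rw [h2, WRC_symm, WRC_symm, smul_eq_mul, smul_eq_mul]

theorem WRC_D_apply (α : ℂ ≃+* ℂ) {N : ℕ}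
    (D₁ : Derivation ℂ (MvPolynomial (Fin N) ℂ) (MvPolynomial (Fin N) ℂ))
    (f : MvPolynomial (Fin N) ℂ) : WRC_D α D₁ (aq α f) = aq α (D₁ f) := by
  show aq α (D₁ (aq α.symm (aq α f))) = aq α (D₁ f)
  rw [WRC_symm']

theorem WRC_iter (α : ℂ ≃+* ℂ) {N : ℕ}
    (D₁ : Derivation ℂ (MvPolynomial (Fin N) ℂ) (MvPolynomial (Fin N) ℂ)) (j : ℕ)
    (f : MvPolynomial (Fin N) ℂ) : (WRC_D α D₁)^[j] (aq α f) = aq α (D₁^[j] f) := by
  induction j generalizing f with
  | zero => rfl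
  | succ j ih =>
    rw [Function.iterate_succ_apply, Function.iterate_succ_apply, WRC_D_apply, ih]

theorem p_WRC : Stmt_WRC := by
  intro α N D₁
  refine ⟨WRC_D α D₁, WRC_D_apply α D₁, ?_⟩
  intro n a q A ε i
  unfold wr
  have h1 : ∀ M : Matrix (Fin (q + 1)) (Fin (q + 1)) (MvPolynomial (Fin N) ℂ),
      aq α M.det = (M.map (aq α)).det := by
    intro M
    show (map (α : ℂ →+* ℂ)) M.det = _
    rw [RingHom.map_det]
    rfl
  rw [h1]
  congr 1
  ext1 j l
  rw [Matrix.map_apply, Matrix.of_apply, Matrix.of_apply, ← WRC_iter]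
  congr 1
  refine Fin.cases ?_ (fun k => ?_) l
  · rfl
  · rfl

end Pool.MPW
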