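import Pool.Agent.Work.MP_f82ddf_W.Interface

set_option autoImplicit false

/-! # Block WRD: the Wronskian forms are a datum -/

namespace Pool.MPW

open MvPolynomial
open Pool.Agent.Work.MP_f82ddf_M5 (comb Data GoodDer)

/-- the family `f₀, f₁, .., f_q` -/
noncomputable def WRD_fam {N q : ℕ} (f : MvPolynomial (Fin N) ℂ)
    (g : Fin q → MvPolynomial (Fin N) ℂ) : Fin (q + 1) → MvPolynomial (Fin N) ℂ :=
  Fin.cons f g

/-- iterates of the derivation as linear maps -/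
theorem WRD_iter {N : ℕ} (D₁ : Derivation ℂ (MvPolynomial (Fin N) ℂ) (MvPolynomial (Fin N) ℂ))
    (j : ℕ) (f : MvPolynomial (Fin N) ℂ) :
    D₁^[j] f = ((D₁ : MvPolynomial (Fin N) ℂ →ₗ[ℂ] MvPolynomial (Fin N) ℂ) ^ j) f := by
  rw [Module.End.pow_apply]
  rfl

theorem WRD_lin {N a : ℕ}
    (D₁ : Derivation ℂ (MvPolynomial (Fin N) ℂ) (MvPolynomial (Fin N) ℂ)) (j : ℕ)
    (y : Fin a → ℂ) (f : Fin a → MvPolynomial (Fin N) ℂ) :
    D₁^[j] (∑ i, C (y i) * f i) = ∑ i, C (y i) * D₁^[j] (f i) := by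
  rw [WRD_iter, map_sum]
  refine Finset.sum_congr rfl fun i _ => ?_
  rw [← smul_eq_C_mul, map_smul, ← WRD_iter, smul_eq_C_mul]

theorem WRD_degiter {N d : ℕ}
    (D₁ : Derivation ℂ (MvPolynomial (Fin N) ℂ) (MvPolynomial (Fin N) ℂ))
    (hD : ∀ (e : ℕ) (f : MvPolynomial (Fin N) ℂ), f.IsHomogeneous e →
      (D₁ f).IsHomogeneous (e + (d - 1))) (e : ℕ) (f : MvPolynomial (Fin N) ℂ)
    (hf : f.IsHomogeneous e) (j : ℕ) : (D₁^[j] f).IsHomogeneous (e + j * (d - 1)) := by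
  induction j with
  | zero => simpa using hf
  | succ j ih =>
    rw [Function.iterate_succ_apply']
    have := hD _ _ ih
    convert this using 1
    ring

/-- the Wronskian matrix -/
noncomputable def WRD_mat {N q : ℕ}
    (D₁ : Derivation ℂ (MvPolynomial (Fin N) ℂ) (MvPolynomial (Fin N) ℂ))
    (F : Fin (q + 1) → MvPolynomial (Fin N) ℂ) :
    Matrix (Fin (q + 1)) (Fin (q + 1)) (MvPolynomial (Fin N) ℂ) :=
  Matrix.of fun j l : Fin (q + 1) => D₁^[(j : ℕ)] (F l)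

theorem WRD_deg {N q d : ℕ}
    (D₁ : Derivation ℂ (MvPolynomial (Fin N) ℂ) (MvPolynomial (Fin N) ℂ))
    (hD : ∀ (e : ℕ) (f : MvPolynomial (Fin N) ℂ), f.IsHomogeneous e →
      (D₁ f).IsHomogeneous (e + (d - 1))) (F : Fin (q + 1) → MvPolynomial (Fin N) ℂ)
    (hF : ∀ l, (F l).IsHomogeneous d) :
    (WRD_mat D₁ F).det.IsHomogeneous (∑ j ∈ Finset.range (q + 1), (d + j * (d - 1))) := by
  rw [Matrix.det_apply']
  refine IsHomogeneous.sum _ _ _ fun σ _ => ?_
  have h1 : (∏ i, WRD_mat D₁ F (σ i) i).IsHomogeneous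
      (∑ j ∈ Finset.range (q + 1), (d + j * (d - 1))) := by
    have h2 := IsHomogeneous.prod Finset.univ (fun i => WRD_mat D₁ F (σ i) i)
      (fun i => d + ((σ i : Fin (q + 1)) : ℕ) * (d - 1))
      (fun i _ => WRD_degiter D₁ hD d (F i) (hF i) _)
    have h3 : ∑ i : Fin (q + 1), (d + ((σ i : Fin (q + 1)) : ℕ) * (d - 1)) =
        ∑ j ∈ Finset.range (q + 1), (d + j * (d - 1)) := by
      rw [Equiv.sum_comp σ (fun j : Fin (q + 1) => d + (j : ℕ) * (d - 1)),
        Finset.sum_range (fun j => d + j * (d - 1))]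
    rw [← h3]
    exact h2
  rcases Int.units_eq_one_or (Equiv.Perm.sign σ) with h | h
  · rw [h]; simpa using h1
  · rw [h]; simpa using h1.neg

theorem WRD_wr {N n a q : ℕ}
    (D₁ : Derivation ℂ (MvPolynomial (Fin N) ℂ) (MvPolynomial (Fin N) ℂ))
    (A : Fin (n + 1) → MvPolynomial (Fin N) ℂ) (ε : Fin (a + 1) ⊕ Fin q ≃ Fin (n + 1))
    (i : Fin (a + 1)) :
    wr D₁ A ε i = (WRD_mat D₁ (WRD_fam (A (ε (Sum.inl i))) (fun l => A (ε (Sum.inr l))))).det :=
  rfl

theorem WRD_expand {N q : ℕ}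
    (D₁ : Derivation ℂ (MvPolynomial (Fin N) ℂ) (MvPolynomial (Fin N) ℂ))
    (f : MvPolynomial (Fin N) ℂ) (g : Fin q → MvPolynomial (Fin N) ℂ) :
    (WRD_mat D₁ (WRD_fam f g)).det = ∑ j : Fin (q + 1), (-1) ^ (j : ℕ) * D₁^[(j : ℕ)] f *
      (Matrix.of fun (x : Fin q) (l : Fin q) => D₁^[((j.succAbove x : Fin (q + 1)) : ℕ)] (g l)).det := by
  rw [Matrix.det_succ_column_zero]
  refine Finset.sum_congr rfl fun j _ => ?_
  congr 1

theorem WRD_det {N a q : ℕ}
    (D₁ : Derivation ℂ (MvPolynomial (Fin N) ℂ) (MvPolynomial (Fin N) ℂ))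
    (f : Fin a → MvPolynomial (Fin N) ℂ) (g : Fin q → MvPolynomial (Fin N) ℂ) (y : Fin a → ℂ) :
    ∑ i, C (y i) * (WRD_mat D₁ (WRD_fam (f i) g)).det =
      (WRD_mat D₁ (WRD_fam (∑ i, C (y i) * f i) g)).det := by
  rw [WRD_expand]
  simp only [WRD_expand, Finset.mul_sum]
  rw [Finset.sum_comm]
  refine Finset.sum_congr rfl fun j _ => ?_
  rw [WRD_lin, Finset.mul_sum, Finset.sum_mul]
  refine Finset.sum_congr rfl fun i _ => ?_
  ring

theorem WRD_comb {N n : ℕ} (A : Fin (n + 1) → MvPolynomial (Fin N) ℂ) (y : Fin (n + 1) → ℂ) :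
    comb (RingHom.id ℂ) A y = ∑ i, C (y i) * A i := by
  unfold comb
  refine Finset.sum_congr rfl fun i _ => ?_
  rw [MvPolynomial.map_id]

/-- Block WRD. -/
theorem p_WRD : Pool.Agent.Work.MP_f82ddf_M5.Stmt_WRO → Stmt_WRD := by
  intro hWRO N n a q d Q A D₁ ε hA hG hD
  refine ⟨hA.irr, hA.hom, ?_, ?_⟩
  · intro i
    rw [WRD_wr]
    refine WRD_deg D₁ hD _ ?_
    intro l
    refine Fin.cases ?_ (fun l => ?_) l
    · exact hA.homA _
    · exact hA.homA _
  · intro y hy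
    by_contra hne
    rw [WRD_comb] at hy
    simp only [WRD_wr] at hy
    rw [WRD_det] at hy
    refine hWRO N (q + 1) Q D₁
      (WRD_fam (∑ i, C (y i) * A (ε (Sum.inl i))) (fun l => A (ε (Sum.inr l)))) hA.irr hG ?_ hy
    intro z hz
    set Y : Fin (n + 1) → ℂ := fun k =>
      Sum.elim (fun i => z 0 * y i) (fun l : Fin q => z l.succ) (ε.symm k) with hY
    have h1 : ∑ l, C (z l) * WRD_fam (∑ i, C (y i) * A (ε (Sum.inl i)))
        (fun l => A (ε (Sum.inr l))) l = comb (RingHom.id ℂ) A Y := by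
      rw [WRD_comb, ← Equiv.sum_comp ε, Fintype.sum_sum_type, Fin.sum_univ_succ]
      congr 1
      · simp only [WRD_fam, Fin.cons_zero, hY, Equiv.symm_apply_apply, Sum.elim_inl, map_mul]
        rw [Finset.mul_sum]
        exact Finset.sum_congr rfl fun i _ => by ring
      · simp only [WRD_fam, Fin.cons_succ, hY, Equiv.symm_apply_apply, Sum.elim_inr]
    rw [h1] at hz
    have h2 := hA.nd Y hz
    have h3 : ∀ x, Y (ε x) = 0 := fun x => by rw [h2]; rfl
    have h4 : z 0 = 0 := by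
      by_contra hz0
      apply hne
      funext i
      have := h3 (Sum.inl i)
      simp only [hY, Equiv.symm_apply_apply, Sum.elim_inl] at this
      rcases mul_eq_zero.1 this with h | h
      · exact absurd h hz0
      · exact h
    funext l
    refine Fin.cases h4 (fun l => ?_) l
    have := h3 (Sum.inr l)
    simp only [hY, Equiv.symm_apply_apply, Sum.elim_inr] at this
    exact this

end Pool.MPW
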