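import Pool.Agent.Work.MP_f82ddf_W.Interface

set_option autoImplicit false

/-! # THEOREM W (MP_f82ddf_nt), block WRX -/

open Pool.Agent.Work.MP_f82ddf_nt.DQ

namespace Pool.MPW

open MvPolynomial
open Pool.Agent.Work.MP_f82ddf_M5 (comb)

/-- Expansion of a determinant along its first column. -/
theorem WRX_exp {R : Type} [CommRing R] {q : ℕ} (c : Fin (q + 1) → R)
    (B : Fin (q + 1) → Fin q → R) :
    (Matrix.of fun j l : Fin (q + 1) => (Fin.cons (c j) (B j) : Fin (q + 1) → R) l).det =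
      ∑ j : Fin (q + 1), ((-1) ^ (j : ℕ) *
        (Matrix.of fun i l : Fin q => B (j.succAbove i) l).det) * c j := by
  rw [Matrix.det_succ_column_zero]
  refine Finset.sum_congr rfl fun j _ => ?_
  have h : ((Matrix.of fun j l : Fin (q + 1) =>
      (Fin.cons (c j) (B j) : Fin (q + 1) → R) l).submatrix j.succAbove Fin.succ) =
      Matrix.of fun i l : Fin q => B (j.succAbove i) l := by
    ext i l
    simp
  rw [h]
  simp only [Matrix.of_apply, Fin.cons_zero]
  ring

/-- The derivation over `F` which extends `D₁`. -/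
noncomputable def WRX_d {N : ℕ} (F : Type) [Field F] [Algebra ℂ F]
    (D₁ : Derivation ℂ (MvPolynomial (Fin N) ℂ) (MvPolynomial (Fin N) ℂ)) :
    Derivation F (MvPolynomial (Fin N) F) (MvPolynomial (Fin N) F) :=
  mkDerivation F fun i => map (algebraMap ℂ F) (D₁ (X i))

theorem WRX_map {N : ℕ} (F : Type) [Field F] [Algebra ℂ F]
    (D₁ : Derivation ℂ (MvPolynomial (Fin N) ℂ) (MvPolynomial (Fin N) ℂ))
    (f : MvPolynomial (Fin N) ℂ) :
    WRX_d F D₁ (map (algebraMap ℂ F) f) = map (algebraMap ℂ F) (D₁ f) := by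
  induction f using MvPolynomial.induction_on with
  | C a =>
    have h1 : D₁ (C a) = 0 := by
      rw [← MvPolynomial.algebraMap_eq]
      exact D₁.map_algebraMap a
    have h2 : WRX_d F D₁ (C (algebraMap ℂ F a)) = 0 := by
      rw [← MvPolynomial.algebraMap_eq]
      exact (WRX_d F D₁).map_algebraMap _
    rw [map_C, h1, h2, map_zero]
  | add p r hp hr => rw [map_add, map_add, map_add, map_add, hp, hr]
  | mul_X p i hp =>
    have h3 : WRX_d F D₁ (X i) = map (algebraMap ℂ F) (D₁ (X i)) := by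
      rw [WRX_d, mkDerivation_X]
    rw [map_mul, map_X, Derivation.leibniz, Derivation.leibniz, hp, h3]
    simp only [smul_eq_mul, map_add, map_mul, map_X]

theorem WRX_iter {N n : ℕ} (F : Type) [Field F] [Algebra ℂ F]
    (D₁ : Derivation ℂ (MvPolynomial (Fin N) ℂ) (MvPolynomial (Fin N) ℂ)) (x : Fin (n + 1) → F)
    (j : ℕ) : ∀ A : Fin (n + 1) → MvPolynomial (Fin N) ℂ,
    (WRX_d F D₁)^[j] (comb (algebraMap ℂ F) A x) =
      ∑ i, C (x i) * map (algebraMap ℂ F) (D₁^[j] (A i)) := by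
  induction j with
  | zero => intro A; rfl
  | succ j ih =>
    intro A
    rw [Function.iterate_succ_apply]
    have h : WRX_d F D₁ (comb (algebraMap ℂ F) A x) =
        comb (algebraMap ℂ F) (fun i => D₁ (A i)) x := by
      unfold comb
      rw [map_sum]
      refine Finset.sum_congr rfl fun i _ => ?_
      rw [← smul_eq_C_mul, ← smul_eq_C_mul, Derivation.map_smul, WRX_map]
    rw [h, ih]
    simp only [Function.iterate_succ_apply]

/-- WRX -/
theorem p_WRX : Stmt_WRX := by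
  intro F _ _ N n a q D₁ A ε
  refine ⟨WRX_d F D₁, WRX_map F D₁, fun j => (-1) ^ (j : ℕ) *
    (Matrix.of fun i l : Fin q =>
      map (algebraMap ℂ F) (D₁^[(j.succAbove i : ℕ)] (A (ε (Sum.inr l))))).det, fun x => ?_⟩
  have hA : ∀ i : Fin (a + 1), ∑ j : Fin (q + 1), ((-1) ^ (j : ℕ) *
      (Matrix.of fun i l : Fin q =>
        map (algebraMap ℂ F) (D₁^[(j.succAbove i : ℕ)] (A (ε (Sum.inr l))))).det) *
        map (algebraMap ℂ F) (D₁^[(j : ℕ)] (A (ε (Sum.inl i)))) =
      map (algebraMap ℂ F) (wr D₁ A ε i) := by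
    intro i
    rw [← WRX_exp (fun j : Fin (q + 1) =>
      map (algebraMap ℂ F) (D₁^[(j : ℕ)] (A (ε (Sum.inl i)))))
      (fun (j : Fin (q + 1)) l => map (algebraMap ℂ F) (D₁^[(j : ℕ)] (A (ε (Sum.inr l))))),
      wr, RingHom.map_det]
    congr 1
    ext1 j l
    refine Fin.cases ?_ (fun l => ?_) l
    · simp
    · simp
  have hB : ∀ l₀ : Fin q, ∑ j : Fin (q + 1), ((-1) ^ (j : ℕ) *
      (Matrix.of fun i l : Fin q =>
        map (algebraMap ℂ F) (D₁^[(j.succAbove i : ℕ)] (A (ε (Sum.inr l))))).det) *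
        map (algebraMap ℂ F) (D₁^[(j : ℕ)] (A (ε (Sum.inr l₀)))) = 0 := by
    intro l₀
    rw [← WRX_exp (fun j : Fin (q + 1) =>
      map (algebraMap ℂ F) (D₁^[(j : ℕ)] (A (ε (Sum.inr l₀)))))
      (fun (j : Fin (q + 1)) l => map (algebraMap ℂ F) (D₁^[(j : ℕ)] (A (ε (Sum.inr l)))))]
    refine Matrix.det_zero_of_column_eq (i := 0) (j := l₀.succ) (Fin.succ_ne_zero l₀).symm ?_
    intro j
    simp
  simp only [WRX_iter]
  have h1 : ∀ g : Fin (q + 1) → MvPolynomial (Fin N) F,
      ∑ j : Fin (q + 1), g j * ∑ i, C (x i) * map (algebraMap ℂ F) (D₁^[(j : ℕ)] (A i)) =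
      ∑ i, C (x i) * ∑ j : Fin (q + 1), g j * map (algebraMap ℂ F) (D₁^[(j : ℕ)] (A i)) := by
    intro g
    simp only [Finset.mul_sum]
    rw [Finset.sum_comm]
    refine Finset.sum_congr rfl fun i _ => Finset.sum_congr rfl fun j _ => ?_
    ring
  rw [h1, ← Equiv.sum_comp ε, Fintype.sum_sum_type]
  simp only [hA, hB, mul_zero, Finset.sum_const_zero, add_zero]
  rfl

end Pool.MPW
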