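import Pool.Agent.Work.MP_f82ddf_V.All
import Pool.Agent.Work.MP_f82ddf_W.B_ABS
import Pool.Agent.Work.MP_f82ddf_W.B_CNZ
import Pool.Agent.Work.MP_f82ddf_W.B_DER
import Pool.Agent.Work.MP_f82ddf_W.B_DIX
import Pool.Agent.Work.MP_f82ddf_W.B_DSF
import Pool.Agent.Work.MP_f82ddf_W.B_DVP
import Pool.Agent.Work.MP_f82ddf_W.B_FW1
import Pool.Agent.Work.MP_f82ddf_W.B_FW2
import Pool.Agent.Work.MP_f82ddf_W.B_GIR
import Pool.Agent.Work.MP_f82ddf_W.B_GLN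
import Pool.Agent.Work.MP_f82ddf_W.B_GNB
import Pool.Agent.Work.MP_f82ddf_W.B_GPA
import Pool.Agent.Work.MP_f82ddf_W.B_GPB
import Pool.Agent.Work.MP_f82ddf_W.B_GPC
import Pool.Agent.Work.MP_f82ddf_W.B_GSM
import Pool.Agent.Work.MP_f82ddf_W.B_GT1
import Pool.Agent.Work.MP_f82ddf_W.B_GT2
import Pool.Agent.Work.MP_f82ddf_W.B_HGD
import Pool.Agent.Work.MP_f82ddf_W.B_IJE
import Pool.Agent.Work.MP_f82ddf_W.B_MPX
import Pool.Agent.Work.MP_f82ddf_W.B_NDX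
import Pool.Agent.Work.MP_f82ddf_W.B_OVF
import Pool.Agent.Work.MP_f82ddf_W.B_OWR
import Pool.Agent.Work.MP_f82ddf_W.B_PTK
import Pool.Agent.Work.MP_f82ddf_W.B_PTW
import Pool.Agent.Work.MP_f82ddf_W.B_PWT
import Pool.Agent.Work.MP_f82ddf_W.B_TRM
import Pool.Agent.Work.MP_f82ddf_W.B_UEW
import Pool.Agent.Work.MP_f82ddf_W.B_WRC
import Pool.Agent.Work.MP_f82ddf_W.B_WRD
import Pool.Agent.Work.MP_f82ddf_W.B_WRX

/-!
# THEOREM W: assembly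
-/

set_option autoImplicit false

namespace Pool.MPW

open Pool.Agent.Work.MP_f82ddf_M5 (stmt_FUN stmt_DEG stmt_RES stmt_NUL stmt_WRO all_LINE all_PTD
  all_IDE all_CON)

theorem all_HGD : Stmt_HGD := p_HGD all_CON
theorem all_WRD : Stmt_WRD := p_WRD stmt_WRO
theorem all_WRC : Stmt_WRC := p_WRC
theorem all_ABS : Stmt_ABS := p_ABS stmt_NUL
theorem all_NDX : Stmt_NDX := p_NDX
theorem all_CNZ : Stmt_CNZ := p_CNZ stmt_NUL stmt_FUN all_LINE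
theorem all_PTK : Stmt_PTK := p_PTK stmt_FUN stmt_DEG stmt_RES
theorem all_DSF : Stmt_DSF := p_DSF Pool.MPL.all_FPR stmt_RES
theorem all_GPA : Stmt_GPA := p_GPA stmt_FUN stmt_DEG all_DSF
theorem all_GPB : Stmt_GPB := p_GPB stmt_RES
theorem all_TRM : Stmt_TRM := p_TRM
theorem all_GPC : Stmt_GPC := p_GPC all_TRM Pool.ThmM.Chow.q_PGL
theorem all_OVF : Stmt_OVF := p_OVF stmt_FUN all_IDE all_PTK all_NDX all_ABS
theorem all_OWR : Stmt_OWR := p_OWR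
theorem all_DER : Stmt_DER := p_DER stmt_DEG
theorem all_DVP : Stmt_DVP := p_DVP
theorem all_WRX : Stmt_WRX := p_WRX
theorem all_PWT : Stmt_PWT := p_PWT all_GPA all_GPB all_GPC Pool.ThmM.Chow.q_CHP
  Pool.ThmM.Chow.q_PFA stmt_FUN all_ABS all_NDX all_CNZ all_OVF all_OWR all_DER all_DVP all_WRX
theorem all_GLN : Stmt_GLN := p_GLN stmt_FUN stmt_DEG all_CNZ
theorem all_GT1 : Stmt_GT1 := p_GT1 Pool.MPL.all_FPR all_GLN stmt_RES
theorem all_GT2 : Stmt_GT2 := p_GT2 Pool.MPL.all_FPR all_GLN all_GT1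
theorem all_GSM : Stmt_GSM := p_GSM stmt_FUN all_PTD all_IDE
theorem all_GIR : Stmt_GIR := p_GIR all_GLN all_GT2 all_GSM
theorem all_GNB : Stmt_GNB := p_GNB Pool.MPL.all_MIR Pool.MPL.all_DSC all_GLN all_GIR stmt_FUN
theorem all_PTW : Stmt_PTW := p_PTW Pool.ThmM0.all_T3 Pool.MPV.all_DRF all_HGD all_WRD all_WRC
  all_PWT all_GNB Pool.MPL.all_TRP Pool.MPV.all_EXF Pool.MPL.all_MVP Pool.MPL.all_MIR
theorem all_UEW : Stmt_UEW := p_UEW all_PTW Pool.MPL.all_AUT Pool.MPL.all_DSE Pool.MPL.all_RKT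
theorem all_MPX : Stmt_MPX := p_MPX all_UEW p_IJE Pool.MPL.all_SLO Pool.ThmP.all_MPT
  Pool.MPV.all_ORF Pool.ThmP.all_FIB Pool.ThmM0.stmt_CST
theorem all_DIX : Stmt_DIX := p_DIX all_MPX Pool.ThmP.all_MPT Pool.ThmP.all_FIB Pool.ThmP.p_TRX
  Pool.ThmM0.stmt_HOMR
/-- THEOREM W, first part. -/
theorem all_W1 : Stmt_W1 := p_FW1 all_MPX Pool.ThmM0.stmt_MREL
/-- THEOREM W, second part. -/
theorem all_W2 : Stmt_W2 := p_FW2 all_DIX (Pool.ThmM0.stmt_IMG Pool.ThmM0.stmt_MREL)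
  (Pool.ThmM0.stmt_PAI Pool.ThmM0.stmt_DHO) Pool.MCL.all_P6C Pool.ThmM0.stmt_DHO

end Pool.MPW
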