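import Pool.Agent.Work.MP_f82ddf_W.Interface2

set_option autoImplicit false

/-! # Block SL: a line as an entire curve -/

namespace Pool.MPW

open MvPolynomial
open Pool.Agent.Work.MP_f82ddf_nt (PSpace HolomorphicOn)

theorem p_SL : Stmt_SL := by
  intro N ρ hρ
  obtain ⟨i, j, hij, hi, hj⟩ := hρ
  have hij' : ((i : ℕ) : ℂ) ≠ ((j : ℕ) : ℂ) := by
    intro h
    exact hij (Fin.ext (by exact_mod_cast h))
  let g : ℂ → Fin (N + 1) → ℂ := fun z k => ρ k * (((k : ℕ) : ℂ) - z)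
  have hg : ∀ z, g z ≠ 0 := by
    intro z h
    have h1 : ρ i * (((i : ℕ) : ℂ) - z) = 0 := congrFun h i
    have h2 : ρ j * (((j : ℕ) : ℂ) - z) = 0 := congrFun h j
    have h3 := (mul_eq_zero.1 h1).resolve_left hi
    have h4 := (mul_eq_zero.1 h2).resolve_left hj
    exact hij' ((sub_eq_zero.1 h3).trans (sub_eq_zero.1 h4).symm)
  have hga : ∀ z₀, AnalyticAt ℂ g z₀ := by
    intro z₀
    refine analyticAt_pi_iff.2 fun k => ?_
    exact analyticAt_const.mul (analyticAt_const.sub analyticAt_id)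
  refine ⟨fun z => Projectivization.mk ℂ (g z) (hg z), ?_, ?_, ?_⟩
  · intro z₀ _
    exact ⟨g, hga z₀, Filter.Eventually.of_forall fun z => ⟨hg z, rfl⟩⟩
  · refine ⟨((i : ℕ) : ℂ), ((j : ℕ) : ℂ), ?_⟩
    intro h
    rw [Projectivization.mk_eq_mk_iff'] at h
    obtain ⟨a, ha⟩ := h
    have h1 := congrFun ha i
    have h2 : a * (ρ i * (((i : ℕ) : ℂ) - ((j : ℕ) : ℂ))) =
        ρ i * (((i : ℕ) : ℂ) - ((i : ℕ) : ℂ)) := h1
    rw [sub_self, mul_zero] at h2
    have h3 : a = 0 := by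
      rcases mul_eq_zero.1 h2 with h | h
      · exact h
      · exact absurd h (mul_ne_zero hi (sub_ne_zero.2 hij'))
    have h4 := congrFun ha j
    have h5 : a * (ρ j * (((j : ℕ) : ℂ) - ((j : ℕ) : ℂ))) =
        ρ j * (((j : ℕ) : ℂ) - ((i : ℕ) : ℂ)) := h4
    rw [h3, zero_mul] at h5
    exact mul_ne_zero hj (sub_ne_zero.2 hij'.symm) h5.symm
  · intro z
    obtain ⟨d, hd⟩ := Projectivization.exists_smul_eq_mk_rep ℂ (g z) (hg z)
    refine ⟨(d : ℂ), d.ne_zero, fun k => ?_⟩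
    have h1 := congrFun hd k
    exact h1.symm

end Pool.MPW
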