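import Pool.Agent.Work.MP_f82ddf_W.Interface2

set_option autoImplicit false

/-! # Block SR (helper52): division with remainder -/

namespace Pool.MPW

open Polynomial in
theorem p_SR : Stmt_SR := by
  intro q d p hp
  obtain ⟨f, hf⟩ : ∃ f : Polynomial ℂ, f = ∑ i : Fin (d + 2), C (p i) * X ^ (q + (i : ℕ)) :=
    ⟨_, rfl⟩
  have hfc : ∀ i : Fin (d + 2), f.coeff (q + (i : ℕ)) = p i := by
    intro i
    rw [hf, Polynomial.finsetSum_coeff, Finset.sum_eq_single i]
    · rw [Polynomial.coeff_C_mul, Polynomial.coeff_X_pow, if_pos rfl, mul_one]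
    · intro j _ hj
      rw [Polynomial.coeff_C_mul, Polynomial.coeff_X_pow, if_neg, mul_zero]
      intro h
      apply hj
      apply Fin.ext
      omega
    · intro h
      exact absurd (Finset.mem_univ i) h
  have hfd : f.natDegree ≤ q + d + 1 := by
    rw [hf]
    apply Polynomial.natDegree_sum_le_of_forall_le
    intro i _
    refine (Polynomial.natDegree_C_mul_X_pow_le _ _).trans ?_
    have := i.2
    omega
  -- the root
  have hdeg : (hasseDeriv q f).degree ≠ 0 := by
    have h1 : (hasseDeriv q f).coeff (d + 1) ≠ 0 := by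
      rw [hasseDeriv_coeff]
      have e : d + 1 + q = q + ((Fin.last (d + 1) : Fin (d + 2)) : ℕ) := by
        simp only [Fin.val_last]; omega
      have h2 : ((d + 1 + q).choose q : ℂ) ≠ 0 := by
        exact_mod_cast (Nat.choose_pos (by omega)).ne'
      refine mul_ne_zero h2 ?_
      rw [e, hfc]
      exact hp
    intro h0
    have h3 : d + 1 ≤ (hasseDeriv q f).natDegree := Polynomial.le_natDegree_of_ne_zero h1
    have h4 : (hasseDeriv q f).natDegree = 0 :=
      Polynomial.natDegree_eq_zero_iff_degree_le_zero.2 h0.le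
    omega
  obtain ⟨s, hs⟩ := IsAlgClosed.exists_root (hasseDeriv q f) hdeg
  obtain ⟨g, hg⟩ : ∃ g : Polynomial ℂ, g = (X - C s) ^ (q + 1) := ⟨_, rfl⟩
  have hgm : g.Monic := by rw [hg]; exact (monic_X_sub_C s).pow _
  have hgd : g.natDegree = q + 1 := by
    rw [hg, Polynomial.natDegree_pow, Polynomial.natDegree_X_sub_C, mul_one]
  have hdiv := Polynomial.modByMonic_add_div f g
  have hrd : (f %ₘ g).natDegree < q + 1 := by
    have := Polynomial.natDegree_modByMonic_lt f hgm (by
      intro h
      rw [h, Polynomial.natDegree_one] at hgd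
      omega)
    omega
  have hr0 : (f %ₘ g).coeff q = 0 := by
    have h1 : (taylor s f).coeff q = 0 := by
      rw [taylor_coeff]
      exact hs
    have h2 : (taylor s (g * (f /ₘ g))).coeff q = 0 := by
      rw [taylor_mul]
      have e : taylor s g = X ^ (q + 1) := by
        rw [hg, taylor_pow, map_sub, taylor_X, taylor_C]
        simp
      rw [e, Polynomial.coeff_X_pow_mul', if_neg (by omega)]
    have h3 : (taylor s (f %ₘ g)).coeff q = 0 := by
      have h4 : taylor s f = taylor s (f %ₘ g) + taylor s (g * (f /ₘ g)) := by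
        rw [← map_add, hdiv]
      rw [h4, Polynomial.coeff_add, h2, add_zero] at h1
      exact h1
    rw [taylor_coeff] at h3
    have h5 : hasseDeriv q (f %ₘ g) = C ((f %ₘ g).coeff q) := by
      ext n
      rw [hasseDeriv_coeff, Polynomial.coeff_C]
      by_cases hn : n = 0
      · subst hn
        simp
      · rw [if_neg hn, Polynomial.coeff_eq_zero_of_natDegree_lt, mul_zero]
        omega
    rw [h5, Polynomial.eval_C] at h3
    exact h3
  have hfin : ∀ i : Fin (d + 2), ((f /ₘ g) * (X - C s) ^ (q + 1)).coeff (q + (i : ℕ)) = p i := by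
    intro i
    rw [← hg, mul_comm]
    have h1 : (f %ₘ g).coeff (q + (i : ℕ)) = 0 := by
      by_cases hi : (i : ℕ) = 0
      · rw [hi, add_zero]; exact hr0
      · apply Polynomial.coeff_eq_zero_of_natDegree_lt
        omega
    have h2 : (f %ₘ g + g * (f /ₘ g)).coeff (q + (i : ℕ)) = f.coeff (q + (i : ℕ)) := by
      rw [hdiv]
    rw [Polynomial.coeff_add, h1, zero_add] at h2
    rw [h2, hfc]
  refine ⟨s, f /ₘ g, ?_, ?_, hfin⟩
  · intro h
    have := hfin (Fin.last (d + 1))
    rw [h, zero_mul, Polynomial.coeff_zero] at this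
    exact hp this.symm
  · rw [Polynomial.natDegree_divByMonic f hgm, hgd]
    omega

end Pool.MPW
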