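import Pool.Agent.Work.MP_f82ddf_W.Interface2

/-! # Block SV of THEOREM W (helper72) -/

set_option autoImplicit false

open Pool.Agent.Work.MP_f82ddf_nt.DQ

namespace Pool.MPW

open MvPolynomial

theorem p_SV : Stmt_SV := by
  intro n N v hv
  classical
  set p : Polynomial (AlgebraicClosure ℚ) :=
    ∑ i : Fin (n + 1), Polynomial.C (v i) * Polynomial.X ^ (i : ℕ) with hp
  have hev : ∀ t, p.eval t = ∑ i : Fin (n + 1), t ^ (i : ℕ) * v i := by
    intro t
    rw [hp, Polynomial.eval_finsetSum]
    refine Finset.sum_congr rfl fun i _ => ?_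
    rw [Polynomial.eval_mul, Polynomial.eval_C, Polynomial.eval_pow, Polynomial.eval_X, mul_comm]
  have hco : ∀ i : Fin (n + 1), p.coeff (i : ℕ) = v i := by
    intro i
    rw [hp, Polynomial.finsetSum_coeff]
    simp only [Polynomial.coeff_C_mul, Polynomial.coeff_X_pow]
    rw [Finset.sum_eq_single i]
    · simp
    · intro j _ hj
      rw [if_neg fun h => hj (Fin.ext h.symm), mul_zero]
    · simp
  have hp0 : p ≠ 0 := by
    intro h
    apply hv
    funext i
    rw [← hco i, h]
    simp
  have hdeg : p.natDegree ≤ n := by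
    rw [hp]
    refine Polynomial.natDegree_sum_le_of_forall_le _ _ fun i _ => ?_
    exact (Polynomial.natDegree_C_mul_X_pow_le _ _).trans (by omega)
  have hsub : (fun j : Fin (N + 1) => ((j : ℕ) : AlgebraicClosure ℚ)) ''
      {j : Fin (N + 1) | ∑ i : Fin (n + 1),
        ((j : ℕ) : AlgebraicClosure ℚ) ^ (i : ℕ) * v i = 0} ⊆ (p.roots.toFinset : Set _) := by
    rintro _ ⟨j, hj, rfl⟩
    rw [Finset.mem_coe, Multiset.mem_toFinset, Polynomial.mem_roots hp0, Polynomial.IsRoot.def, hev]
    exact hj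
  have hinj : Function.Injective (fun j : Fin (N + 1) => ((j : ℕ) : AlgebraicClosure ℚ)) := by
    intro a b hab
    exact Fin.ext (Nat.cast_injective hab)
  calc {j : Fin (N + 1) | ∑ i : Fin (n + 1),
        ((j : ℕ) : AlgebraicClosure ℚ) ^ (i : ℕ) * v i = 0}.ncard
      = ((fun j : Fin (N + 1) => ((j : ℕ) : AlgebraicClosure ℚ)) ''
        {j : Fin (N + 1) | ∑ i : Fin (n + 1),
        ((j : ℕ) : AlgebraicClosure ℚ) ^ (i : ℕ) * v i = 0}).ncard :=
        (Set.ncard_image_of_injective _ hinj).symm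
    _ ≤ (p.roots.toFinset : Set _).ncard := Set.ncard_le_ncard hsub (Finset.finite_toSet _)
    _ = p.roots.toFinset.card := Set.ncard_coe_finset _
    _ ≤ p.roots.card := Multiset.toFinset_card_le _
    _ ≤ p.natDegree := Polynomial.card_roots' p
    _ ≤ n := hdeg

end Pool.MPW
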