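import Pool.Agent.Work.MP_f82ddf_W.Interface2

/-! # Block SX of THEOREM W (helper72) -/

set_option autoImplicit false

open Pool.Agent.Work.MP_f82ddf_nt.DQ

namespace Pool.MPW

open MvPolynomial
open Pool.Agent.Work.MP_f82ddf_nt (PSpace HolomorphicOn complexPoints points KobayashiHyperbolic)
open Pool.ThmP (Mor OnX OnK tm)
open Pool.MPV (Ful Full)

/-- The inverse of the Vandermonde matrix. -/
theorem SX_M (n : ℕ) : ∃ M : Fin (n + 1) → Fin (n + 1) → ℚ,
    ∀ c m : Fin (n + 1), ∑ i : Fin (n + 1), M c i * ((i : ℕ) : ℚ) ^ (m : ℕ) =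
      if c = m then 1 else 0 := by
  set V : Matrix (Fin (n + 1)) (Fin (n + 1)) ℚ :=
    Matrix.vandermonde fun i : Fin (n + 1) => ((i : ℕ) : ℚ) with hV
  have hdet : IsUnit V.det := by
    rw [isUnit_iff_ne_zero, hV, Matrix.det_vandermonde_ne_zero_iff]
    intro a b hab
    exact Fin.ext (Nat.cast_injective hab)
  refine ⟨fun c i => V⁻¹ c i, fun c m => ?_⟩
  have h := congrFun (congrFun (Matrix.nonsing_inv_mul V hdet) c) m
  rw [Matrix.mul_apply, Matrix.one_apply] at h
  rw [← h]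
  rfl

theorem SX_claim {F : Type} [Field F] (φ : ℚ →+* F) (n k N : ℕ) (hnN : n ≤ N)
    (M : Fin (n + 1) → Fin (n + 1) → ℚ)
    (hM : ∀ c m : Fin (n + 1), ∑ i : Fin (n + 1), M c i * ((i : ℕ) : ℚ) ^ (m : ℕ) =
      if c = m then 1 else 0)
    (v : Fin (N + 1) → F)
    (hv : ∀ a : Fin (N + 1) → ℚ,
      (∀ i : Fin (n + 1), ∑ j : Fin (N + 1), a j * ((j : ℕ) : ℚ) ^ (i : ℕ) = 0) →
      ∑ j : Fin (N + 1), φ (a j) * v j ^ k = 0) (j : Fin (N + 1)) :
    v j ^ k = ∑ c : Fin (n + 1), ((j : ℕ) : F) ^ (c : ℕ) *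
      ∑ i : Fin (n + 1), φ (M c i) * v (Fin.castLE (by omega) i) ^ k := by
  classical
  set L : Fin (n + 1) → ℚ := fun i => ∑ c : Fin (n + 1), ((j : ℕ) : ℚ) ^ (c : ℕ) * M c i with hL
  have hLm : ∀ m : Fin (n + 1), ∑ i : Fin (n + 1), L i * ((i : ℕ) : ℚ) ^ (m : ℕ) =
      ((j : ℕ) : ℚ) ^ (m : ℕ) := by
    intro m
    simp only [hL, Finset.sum_mul]
    rw [Finset.sum_comm]
    have : ∀ c : Fin (n + 1), ∑ i : Fin (n + 1),
        ((j : ℕ) : ℚ) ^ (c : ℕ) * M c i * ((i : ℕ) : ℚ) ^ (m : ℕ) =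
        ((j : ℕ) : ℚ) ^ (c : ℕ) * (if c = m then 1 else 0) := by
      intro c
      rw [← hM c m, Finset.mul_sum]
      exact Finset.sum_congr rfl fun i _ => by ring
    simp only [this]
    rw [Finset.sum_eq_single m]
    · simp
    · intro c _ hc
      rw [if_neg hc, mul_zero]
    · simp
  have hcast : ∀ i : Fin (n + 1), ((Fin.castLE (show n + 1 ≤ N + 1 by omega) i : Fin (N + 1)) : ℕ) =
      (i : ℕ) := fun i => rfl
  have h := hv (fun j' => (if j' = j then 1 else 0) - ∑ i : Fin (n + 1),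
      (if j' = Fin.castLE (show n + 1 ≤ N + 1 by omega) i then L i else 0)) ?_
  · have h1 : ∀ j' : Fin (N + 1), φ ((if j' = j then 1 else 0) - ∑ i : Fin (n + 1),
        (if j' = Fin.castLE (show n + 1 ≤ N + 1 by omega) i then L i else 0)) * v j' ^ k =
        (if j' = j then v j' ^ k else 0) - ∑ i : Fin (n + 1),
        (if j' = Fin.castLE (show n + 1 ≤ N + 1 by omega) i then φ (L i) * v j' ^ k else 0) := by
      intro j'
      rw [map_sub, map_sum, sub_mul, Finset.sum_mul]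
      congr 1
      · by_cases hj : j' = j <;> simp [hj]
      · refine Finset.sum_congr rfl fun i _ => ?_
        by_cases hj : j' = Fin.castLE (show n + 1 ≤ N + 1 by omega) i <;> simp [hj]
    rw [Finset.sum_congr rfl fun j' _ => h1 j', Finset.sum_sub_distrib, Finset.sum_comm] at h
    simp only [Finset.sum_ite_eq', Finset.mem_univ, if_true] at h
    rw [sub_eq_zero] at h
    rw [h]
    simp only [Finset.mul_sum]
    rw [Finset.sum_comm]
    refine Finset.sum_congr rfl fun i _ => ?_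
    simp only [hL, map_sum, map_mul, map_pow, map_natCast, Finset.sum_mul]
    exact Finset.sum_congr rfl fun c _ => by ring
  · intro m
    have h1 : ∀ j' : Fin (N + 1), ((if j' = j then 1 else 0) - ∑ i : Fin (n + 1),
        (if j' = Fin.castLE (show n + 1 ≤ N + 1 by omega) i then L i else 0)) *
          ((j' : ℕ) : ℚ) ^ (m : ℕ) =
        (if j' = j then ((j' : ℕ) : ℚ) ^ (m : ℕ) else 0) - ∑ i : Fin (n + 1),
        (if j' = Fin.castLE (show n + 1 ≤ N + 1 by omega) i then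
          L i * ((j' : ℕ) : ℚ) ^ (m : ℕ) else 0) := by
      intro j'
      rw [sub_mul, Finset.sum_mul]
      congr 1
      · by_cases hj : j' = j <;> simp [hj]
      · refine Finset.sum_congr rfl fun i _ => ?_
        by_cases hj : j' = Fin.castLE (show n + 1 ≤ N + 1 by omega) i <;> simp [hj]
    rw [Finset.sum_congr rfl fun j' _ => h1 j', Finset.sum_sub_distrib, Finset.sum_comm]
    simp only [Finset.sum_ite_eq', Finset.mem_univ, if_true, hcast]
    rw [hLm m, sub_self]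

theorem p_SX (hFFB : Pool.ThmP.Stmt_FFB) : Stmt_SX := by
  intro n k N hk hnN
  classical
  obtain ⟨M, hM⟩ := SX_M n
  set S : Set (MvPolynomial (Fin (N + 1)) ℚ) := {F | ∃ a : Fin (N + 1) → ℚ,
    (∀ i : Fin (n + 1), ∑ j : Fin (N + 1), a j * ((j : ℕ) : ℚ) ^ (i : ℕ) = 0) ∧
      F = ∑ j : Fin (N + 1), C (a j) * X j ^ k} with hS
  set s : Fin (n + 1) → MvPolynomial (Fin (N + 1)) (AlgebraicClosure ℚ) := fun c =>
    ∑ i : Fin (n + 1), C (algebraMap ℚ (AlgebraicClosure ℚ) (M c i)) *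
      X (Fin.castLE (show n + 1 ≤ N + 1 by omega) i) ^ k with hs
  have hSh : ∀ F ∈ S, ∃ d, F.IsHomogeneous d := by
    rintro F ⟨a, _, rfl⟩
    refine ⟨k, IsHomogeneous.sum _ _ _ fun j _ => ?_⟩
    have := (isHomogeneous_C (Fin (N + 1)) (a j)).mul ((isHomogeneous_X ℚ j).pow k)
    simpa using this
  have hsh : ∀ c, (s c).IsHomogeneous k := by
    intro c
    refine IsHomogeneous.sum _ _ _ fun i _ => ?_
    have := (isHomogeneous_C (Fin (N + 1)) (algebraMap ℚ (AlgebraicClosure ℚ) (M c i))).mul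
      ((isHomogeneous_X (AlgebraicClosure ℚ) (Fin.castLE (show n + 1 ≤ N + 1 by omega) i)).pow k)
    simpa using this
  have hOn : ∀ v : Fin (N + 1) → AlgebraicClosure ℚ, OnX S v → ∀ a : Fin (N + 1) → ℚ,
      (∀ i : Fin (n + 1), ∑ j : Fin (N + 1), a j * ((j : ℕ) : ℚ) ^ (i : ℕ) = 0) →
      ∑ j : Fin (N + 1), algebraMap ℚ (AlgebraicClosure ℚ) (a j) * v j ^ k = 0 := by
    intro v hv a ha
    have h := hv _ ⟨a, ha, rfl⟩
    rw [map_sum] at h
    rw [← h]
    refine Finset.sum_congr rfl fun j _ => ?_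
    rw [map_mul, map_pow, aeval_X]
    congr 1
    exact (MvPolynomial.algHom_C _ _).symm
  have hev : ∀ (v : Fin (N + 1) → AlgebraicClosure ℚ) (c : Fin (n + 1)), eval v (s c) =
      ∑ i : Fin (n + 1), algebraMap ℚ (AlgebraicClosure ℚ) (M c i) *
        v (Fin.castLE (show n + 1 ≤ N + 1 by omega) i) ^ k := by
    intro v c
    simp only [hs, map_sum, map_mul, map_pow, eval_C, eval_X]
  have hcl : ∀ v : Fin (N + 1) → AlgebraicClosure ℚ, OnX S v → ∀ j : Fin (N + 1),
      v j ^ k = ∑ c : Fin (n + 1), ((j : ℕ) : AlgebraicClosure ℚ) ^ (c : ℕ) * eval v (s c) := by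
    intro v hv j
    rw [SX_claim (algebraMap ℚ (AlgebraicClosure ℚ)) n k N hnN M hM v (hOn v hv) j]
    simp only [hev]
  have hz : ∀ v : Fin (N + 1) → AlgebraicClosure ℚ, OnX S v → (∀ c, eval v (s c) = 0) → v = 0 := by
    intro v hv h0
    funext j
    have h1 := hcl v hv j
    simp only [h0, mul_zero, Finset.sum_const_zero] at h1
    exact pow_eq_zero_iff (by omega : k ≠ 0) |>.1 h1
  obtain ⟨g, hg, hgf⟩ := hFFB ℚ (AlgebraicClosure ℚ) N n k S s hSh hk hsh hz
  refine ⟨S, g, hSh, hgf, ?_, ?_, ?_⟩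
  · rw [hg]
    exact ⟨s, rfl⟩
  · intro j v hv hvX
    refine ⟨s, by rw [hg]; rfl, ?_, 0, 1, 1, fun _ => X j, fun _ => 1, fun _ => k,
      isHomogeneous_one _ _, fun _ => isHomogeneous_X _ _, fun _ => le_rfl, by simp, ?_⟩
    · by_contra h
      push Not at h
      exact hv (hz v hvX h)
    · intro u hu
      simp only [map_one, one_mul, Finset.univ_unique, Finset.prod_singleton, eval_X]
      rw [hcl u hu j]
  · intro τ x y hy
    constructor
    · rintro F ⟨a, ha, rfl⟩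
      rw [eval₂_sum]
      have h1 : ∀ j : Fin (N + 1), eval₂ (τ.comp (algebraMap ℚ (AlgebraicClosure ℚ))) y
          (C (a j) * X j ^ k) = ∑ i : Fin (n + 1), x i * ((a j : ℂ) * ((j : ℕ) : ℂ) ^ (i : ℕ)) := by
        intro j
        rw [eval₂_mul, eval₂_C, eval₂_pow, eval₂_X, hy j, Finset.mul_sum]
        refine Finset.sum_congr rfl fun i _ => ?_
        rw [eq_ratCast (τ.comp (algebraMap ℚ (AlgebraicClosure ℚ))) (a j)]
        ring
      rw [Finset.sum_congr rfl fun j _ => h1 j, Finset.sum_comm]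
      refine Finset.sum_eq_zero fun i _ => ?_
      rw [← Finset.mul_sum]
      have h2 : ∑ j : Fin (N + 1), ((a j : ℂ) * ((j : ℕ) : ℂ) ^ (i : ℕ)) =
          ((∑ j : Fin (N + 1), a j * ((j : ℕ) : ℚ) ^ (i : ℕ) : ℚ) : ℂ) := by
        push_cast
        rfl
      rw [h2, ha i]
      simp
    · intro s' hs' c
      rw [hg, Set.mem_singleton_iff] at hs'
      rw [hs']
      simp only [hs]
      rw [eval₂_sum]
      have h1 : ∀ i : Fin (n + 1), eval₂ τ y
          (C (algebraMap ℚ (AlgebraicClosure ℚ) (M c i)) *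
            X (Fin.castLE (show n + 1 ≤ N + 1 by omega) i) ^ k) =
          ∑ m : Fin (n + 1), x m * ((M c i : ℂ) * ((i : ℕ) : ℂ) ^ (m : ℕ)) := by
        intro i
        rw [eval₂_mul, eval₂_C, eval₂_pow, eval₂_X, hy _, Finset.mul_sum]
        refine Finset.sum_congr rfl fun m _ => ?_
        rw [show τ (algebraMap ℚ (AlgebraicClosure ℚ) (M c i)) =
          (τ.comp (algebraMap ℚ (AlgebraicClosure ℚ))) (M c i) from rfl,
          eq_ratCast (τ.comp (algebraMap ℚ (AlgebraicClosure ℚ))) (M c i)]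
        simp only [Fin.val_castLE]
        ring
      rw [Finset.sum_congr rfl fun i _ => h1 i, Finset.sum_comm]
      have h2 : ∀ m : Fin (n + 1), ∑ i : Fin (n + 1),
          x m * ((M c i : ℂ) * ((i : ℕ) : ℂ) ^ (m : ℕ)) = if c = m then x m else 0 := by
        intro m
        rw [← Finset.mul_sum]
        have h3 : ∑ i : Fin (n + 1), ((M c i : ℂ) * ((i : ℕ) : ℂ) ^ (m : ℕ)) =
            ((∑ i : Fin (n + 1), M c i * ((i : ℕ) : ℚ) ^ (m : ℕ) : ℚ) : ℂ) := by
          push_cast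
          rfl
        rw [h3, hM c m]
        by_cases hcm : c = m <;> simp [hcm]
      rw [Finset.sum_congr rfl fun m _ => h2 m]
      simp

end Pool.MPW
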