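import Pool.Agent.Work.MP_f82ddf_W.All
import Pool.Agent.Work.MP_f82ddf_P.All
import Pool.Agent.Work.MP_f82ddf_W.B_SX
import Pool.Agent.Work.MP_f82ddf_W.B_SV
import Pool.Agent.Work.MP_f82ddf_W.B_SR
import Pool.Agent.Work.MP_f82ddf_W.B_SL
import Pool.Agent.Work.MP_f82ddf_W.B_SF

/-!
# THEOREM W, optimality of the dimension: assembly
-/

set_option autoImplicit false

namespace Pool.MPW

/-- The dimension `n + 1 - k` in THEOREM W is optimal. -/
theorem all_WS : Stmt_WS := p_SF (p_SX Pool.ThmP.all_FFB) p_SV p_SR p_SL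

end Pool.MPW
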