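import Pool.Agent.Work.MP_f82ddf_W.Interface

set_option autoImplicit false

/-! # Block GLN of THEOREM W (MP_f82ddf_nt): the universal Chow form for forms of degree `D` -/

namespace Pool.MPW

open MvPolynomial
open Pool.Agent.Work.MP_f82ddf_M5 (lineAt resAt chow at2 comb Data)
open Pool.MPL (RX inc f0 fR gR)

/-- `lineAt` as a ring homomorphism. -/
noncomputable def GLN_hom {N : ℕ} {R B : Type} [CommRing R] [CommRing B] (φ : R →+* B)
    (a b : Fin N → B) : MvPolynomial (Fin N) R →+* Polynomial B :=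
  eval₂Hom (Polynomial.C.comp φ)
    (fun i => Polynomial.C (a i) * Polynomial.X + Polynomial.C (b i))

lemma GLN_hom_apply {N : ℕ} {R B : Type} [CommRing R] [CommRing B] (φ : R →+* B)
    (F : MvPolynomial (Fin N) R) (a b : Fin N → B) : lineAt φ F a b = GLN_hom φ a b F := rfl

lemma GLN_hom_C {N : ℕ} {R B : Type} [CommRing R] [CommRing B] (φ : R →+* B)
    (r : R) (a b : Fin N → B) : GLN_hom φ a b (C r) = Polynomial.C (φ r) := by
  simp [GLN_hom]

/-- `fR n Q` as a line. -/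
lemma GLN_fR (hFUN : Pool.Agent.Work.MP_f82ddf_M5.Stmt_FUN) {N : ℕ} (n : ℕ)
    (Q : MvPolynomial (Fin N) ℂ) :
    fR n Q = lineAt (C : RX n →+* MvPolynomial (Fin 2 × Fin N) (RX n))
      (map (algebraMap ℂ (RX n)) Q) (fun i => X (0, i)) (fun i => X (1, i)) := by
  rw [hFUN.2.1 N ℂ (RX n) (MvPolynomial (Fin 2 × Fin N) (RX n)) C (algebraMap ℂ (RX n)) Q
    (fun i => X (0, i)) (fun i => X (1, i))]
  unfold fR f0
  rw [hFUN.1 N ℂ (MvPolynomial (Fin 2 × Fin N) ℂ) (MvPolynomial (Fin 2 × Fin N) (RX n)) C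
    (inc n (Fin 2 × Fin N)) Q (fun i => X (0, i)) (fun i => X (1, i))]
  have h1 : (inc n (Fin 2 × Fin N)).comp (C : ℂ →+* MvPolynomial (Fin 2 × Fin N) ℂ)
      = (C : RX n →+* MvPolynomial (Fin 2 × Fin N) (RX n)).comp (algebraMap ℂ (RX n)) := by
    ext r
    · simp only [RingHom.comp_apply, inc, map_C]
  rw [h1]
  simp only [inc, map_X]

lemma GLN_gR (hFUN : Pool.Agent.Work.MP_f82ddf_M5.Stmt_FUN) {N n : ℕ}
    (A : Fin (n + 1) → MvPolynomial (Fin N) ℂ) :
    gR A = lineAt (C : RX n →+* MvPolynomial (Fin 2 × Fin N) (RX n))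
      (comb (algebraMap ℂ (RX n)) A X) (fun i => X (0, i)) (fun i => X (1, i)) := by
  rw [GLN_hom_apply]
  unfold comb gR
  rw [map_sum]
  refine Finset.sum_congr rfl fun i _ => ?_
  rw [map_mul, GLN_hom_C, ← GLN_hom_apply, GLN_fR hFUN]

lemma GLN_deg (hDEG : Pool.Agent.Work.MP_f82ddf_M5.Stmt_DEG) {N : ℕ} (n d : ℕ)
    (Q : MvPolynomial (Fin N) ℂ) (hQ : Q.IsHomogeneous d) : (fR n Q).natDegree ≤ d := by
  unfold fR
  refine Polynomial.natDegree_map_le.trans ?_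
  exact (hDEG N d ℂ (MvPolynomial (Fin 2 × Fin N) ℂ) C Q (fun i => X (0, i))
    (fun i => X (1, i)) hQ).1

lemma GLN_degG (hDEG : Pool.Agent.Work.MP_f82ddf_M5.Stmt_DEG) {N n : ℕ} (D : ℕ)
    (A : Fin (n + 1) → MvPolynomial (Fin N) ℂ) (hA : ∀ i, (A i).IsHomogeneous D) :
    (gR A).natDegree ≤ D := by
  unfold gR
  refine Polynomial.natDegree_sum_le_of_forall_le _ _ fun i _ => ?_
  exact (Polynomial.natDegree_C_mul_le _ _).trans (GLN_deg hDEG n D (A i) (hA i))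

theorem p_GLN (hFUN : Pool.Agent.Work.MP_f82ddf_M5.Stmt_FUN)
    (hDEG : Pool.Agent.Work.MP_f82ddf_M5.Stmt_DEG)
    (hCNZ : Stmt_CNZ) : Stmt_GLN := by
  intro N n d D Q A hD
  have h3 : ∀ (K : Type) [CommRing K] [Algebra ℂ K] (x : Fin (n + 1) → K),
      map ((aeval x : RX n →ₐ[ℂ] K) : RX n →+* K) (UG d D Q A) =
        chow d D (map (algebraMap ℂ K) Q) (comb (algebraMap ℂ K) A x) := by
    intro K _ _ x
    have h6 : (((aeval x : RX n →ₐ[ℂ] K) : RX n →+* K)).comp (algebraMap ℂ (RX n)) =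
        algebraMap ℂ K := by
      ext r
      simp
    unfold UG
    rw [hFUN.2.2.2.2.2 N d D (RX n) K ((aeval x : RX n →ₐ[ℂ] K) : RX n →+* K)]
    congr 1
    · rw [map_map, h6]
    · unfold comb
      rw [map_sum]
      refine Finset.sum_congr rfl fun i _ => ?_
      rw [map_mul, map_C, map_map, h6]
      simp
  refine ⟨?_, ⟨GLN_deg hDEG n d Q hD.hom, GLN_degG hDEG D A hD.homA⟩, h3, ?_⟩
  · rw [GLN_fR hFUN, GLN_gR hFUN]
    rfl
  · intro h0
    have h1 := h3 ℂ (Pi.single 0 1)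
    rw [h0, map_zero] at h1
    refine hCNZ N n d D Q A hD ℂ (Pi.single 0 1) ?_ h1.symm
    intro h4
    have h5 := congrFun h4 0
    simp at h5

end Pool.MPW
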