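import Pool.Agent.Work.MP_f82ddf_W.Interface

set_option autoImplicit false

/-! Block NDX: `Q` does not divide a nonzero combination of the `A_i` over extensions. -/

open Pool.Agent.Work.MP_f82ddf_nt.DQ

namespace Pool.MPW

open MvPolynomial
open Pool.Agent.Work.MP_f82ddf_M5 (lineAt resAt chow at2 comb Data GoodDer)

/-- coefficientwise application of an additive map -/
theorem NDX_ex {N : ℕ} {κ : Type} [Field κ] [Algebra ℂ κ] (ϑ : κ →ₗ[ℂ] ℂ)
    (H : MvPolynomial (Fin N) κ) : ∃ H' : MvPolynomial (Fin N) ℂ,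
      ∀ b, coeff b H' = ϑ (coeff b H) := by
  classical
  refine ⟨∑ b ∈ H.support, monomial b (ϑ (coeff b H)), fun b => ?_⟩
  rw [coeff_sum]
  simp only [coeff_monomial]
  rw [Finset.sum_ite_eq' H.support b (fun b => ϑ (coeff b H))]
  split_ifs with h
  · rfl
  · rw [notMem_support_iff.1 h, map_zero]

theorem NDX_mul {κ : Type} [Field κ] [Algebra ℂ κ] (ϑ : κ →ₗ[ℂ] ℂ) (c : ℂ) (y : κ) :
    ϑ (algebraMap ℂ κ c * y) = c * ϑ y := by
  rw [← Algebra.smul_def, map_smul, smul_eq_mul]

theorem p_NDX : Stmt_NDX := by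
  classical
  intro N n d D Q A hD κ _ _ x hx
  obtain ⟨H, hH⟩ := hx
  have key : ∀ ϑ : κ →ₗ[ℂ] ℂ, ∀ i, ϑ (x i) = 0 := by
    intro ϑ
    obtain ⟨H', hH'⟩ := NDX_ex ϑ H
    have h1 : comb (RingHom.id ℂ) A (fun i => ϑ (x i)) = Q * H' := by
      ext m
      have h2 : ϑ (coeff m (comb (algebraMap ℂ κ) A x)) =
          ϑ (coeff m (map (algebraMap ℂ κ) Q * H)) := by rw [hH]
      rw [coeff_mul, map_sum] at h2
      rw [coeff_mul]
      have h3 : ∀ p ∈ Finset.HasAntidiagonal.antidiagonal m,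
          ϑ (coeff p.1 (map (algebraMap ℂ κ) Q) * coeff p.2 H) =
            coeff p.1 Q * coeff p.2 H' := by
        intro p _
        rw [coeff_map, NDX_mul, hH']
      rw [Finset.sum_congr rfl h3] at h2
      rw [← h2]
      unfold comb
      rw [coeff_sum, coeff_sum, map_sum]
      refine Finset.sum_congr rfl fun i _ => ?_
      rw [coeff_C_mul, coeff_C_mul, coeff_map, coeff_map, mul_comm (x i), NDX_mul]
      simp only [RingHom.id_apply]
      ring
    have h4 := hD.nd (fun i => ϑ (x i)) ⟨H', h1⟩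
    intro i
    exact congrFun h4 i
  funext i
  exact (Module.forall_dual_apply_eq_zero_iff ℂ (x i)).1 fun ϑ => key ϑ i

end Pool.MPW
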