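import Pool.Agent.Work.MP_f82ddf_V.Interface

set_option autoImplicit false

/-! # THEOREM W (MP_f82ddf_nt): the exceptional set for multiplicities at least `k`

Folder `Pool/Agent/Work/MP_f82ddf_W`, table `mpw_blocks`.  Block file `B_X.lean`: import this file
(and other block files for auxiliary lemmas), namespace `Pool.MPW`, final theorem
`p_X : Stmt_A → Stmt_B → .. → Stmt_X` with the blocks of the column `uses` as hypotheses, in that
order; all other lemmas with the prefix `X_`.  In the column `uses` `V.ORF` means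
`Pool.MPV.Stmt_ORF`, `U.DSC` means `Pool.MPL.Stmt_DSC`, `M5.RES` means
`Pool.Agent.Work.MP_f82ddf_M5.Stmt_RES`, `M3.PFA` means `Pool.ThmM.Chow.Stmt_PFA`, `M2.T3` means
`Pool.ThmM.Stmt_T3`, `M1.ORD` means `Pool.ThmM.Stmt_ORD`, `P.MPT` means `Pool.ThmP.Stmt_MPT`,
`M0.CST` means `Pool.ThmM0.Stmt_CST`, `P6C` means `Pool.MCL.stmt_P6C`.

IDEA.  CORF gives a moving irreducible factor `P` of the Chow form `Φ` of `G = ∑ x_i A_i` with
`P ^ k ∣ Φ`, `k = q + 2`.  `P` is the Chow form of a component `C` of the divisor `G = 0` on the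
hypersurface `Q = 0`; let `v` be the generic point of `C`.  Then `G` has order `≥ q + 2` at `v` on
`Q = 0`.  Let `D₁` be a good derivation (M5).  The determinant `W` of the matrix with the columns
`(D₁^j G)_(j ≤ q)`, `(D₁^j A_l)_(j ≤ q)` for `q` of the `A_l` has order `≥ 2` at `v`, and
`W = ∑ x_i B_i`, the sum over the `a + 1 = n + 1 - q` other indices, where `B_i` is the determinant with
`A_i` in the first column.  So `P ^ 2` divides the Chow form of `∑ x_i B_i`, and THEOREM U for the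
datum `(Q, B)` gives a uniform relation `D = 0` between these `a + 1` coordinates.  So the
exceptional set has dimension at most `a - 1 = n - k + 1`. -/

open Pool.Agent.Work.MP_f82ddf_nt.DQ

namespace Pool.MPW

open MvPolynomial
open Pool.Agent.Work.MP_f82ddf_nt (PSpace HolomorphicOn complexPoints points KobayashiHyperbolic)
open Pool.Agent.Work.MP_f82ddf_M5 (lineAt resAt chow at2 comb Data GoodDer)
open Pool.ThmM (NonProp HypData IsRat om dv vP)
open Pool.ThmM0 (Per ImageDimLE)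
open Pool.ThmM.Chow (ppt Phi Mov subC PluF)
open Pool.ThmP (Mor OnX OnK tm)
open Pool.MPL (RX NC aq ae NPr Spn inc f0 fR gR)
open Pool.MPV (Ful Full)

/-- The Wronskian form: the determinant with the columns `(D₁^j A_(ε (inl i)))_j` and
`(D₁^j A_(ε (inr l)))_j`, `l < q`, `j ≤ q`. -/
noncomputable def wr {N n a q : ℕ}
    (D₁ : Derivation ℂ (MvPolynomial (Fin N) ℂ) (MvPolynomial (Fin N) ℂ))
    (A : Fin (n + 1) → MvPolynomial (Fin N) ℂ) (ε : Fin (a + 1) ⊕ Fin q ≃ Fin (n + 1))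
    (i : Fin (a + 1)) : MvPolynomial (Fin N) ℂ :=
  (Matrix.of fun j l : Fin (q + 1) => D₁^[(j : ℕ)]
    ((Fin.cons (A (ε (Sum.inl i))) (fun l => A (ε (Sum.inr l))) :
      Fin (q + 1) → MvPolynomial (Fin N) ℂ) l)).det

/-- The point `s b₁ + b₂` of the line through `b₁` and `b₂`. -/
def pv {N : ℕ} {F : Type} [CommRing F] (b : Fin 2 × Fin N → F) (s : F) : Fin N → F :=
  fun j => s * b (0, j) + b (1, j)

/-- `g` has order at least `j` at the point `v` of `Q = 0`. -/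
def OrdGE {N : ℕ} {F : Type} [Field F] (Q : MvPolynomial (Fin N) F) (v : Fin N → F) (j : ℕ)
    (g : MvPolynomial (Fin N) F) : Prop :=
  ∃ h : MvPolynomial (Fin N) F, eval v h ≠ 0 ∧
    h * g ∈ (RingHom.ker (eval v : MvPolynomial (Fin N) F →+* F)) ^ j ⊔ Ideal.span {Q}

/-- The dual number `a + c ε`. -/
def dn {F : Type} [Field F] (a c : F) : DualNumber F :=
  TrivSqZeroExt.inl a + TrivSqZeroExt.inr c

/-- The universal Chow form of `(Q, A)` for forms `A i` of degree `D`. -/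
noncomputable def UG {N n : ℕ} (d D : ℕ) (Q : MvPolynomial (Fin N) ℂ)
    (A : Fin (n + 1) → MvPolynomial (Fin N) ℂ) : MvPolynomial (Fin 2 × Fin N) (RX n) :=
  chow d D (map (algebraMap ℂ (RX n)) Q) (comb (algebraMap ℂ (RX n)) A X)

/-! ## A. The Wronskian forms -/

/-- HGD (80 lines), uses M5.CON.  A homogeneous good derivation.  PROOF.  The derivation of
`MP_f82ddf_M5/T_GDR.lean` (read the docstring of M5.GDR; if `T_GDR.lean` has a lemma for the
explicit derivation, cite it, otherwise copy the file): `X_i ↦ c_i X_i ∂_(i₀) Q` for `i ≠ i₀`,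
`X_(i₀) ↦ - ∑_(j ≠ i₀) c_j X_j ∂_j Q`, forms of degree `d` (`∂_j Q` is a form of degree `d - 1`,
`d ≥ 1`).  `D₁ f = ∑ ∂_i f * D₁ X_i` (`MvPolynomial.mkDerivation_apply` or
`Derivation` and `pderiv`) is a form of degree `(e - 1) + d`, and `0` for `e = 0`. -/
def Stmt_HGD : Prop :=
  ∀ (N d : ℕ) (Q : MvPolynomial (Fin N) ℂ), Irreducible Q → Q.IsHomogeneous d →
    ∃ D₁ : Derivation ℂ (MvPolynomial (Fin N) ℂ) (MvPolynomial (Fin N) ℂ), GoodDer Q D₁ ∧
      ∀ (e : ℕ) (f : MvPolynomial (Fin N) ℂ), f.IsHomogeneous e →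
        (D₁ f).IsHomogeneous (e + (d - 1))

/-- WRD (130 lines), uses M5.WRO.  The Wronskian forms are a datum.  PROOF.  DEGREE: the entry
`(j, l)` is a form of degree `d + j (d - 1)` (iterate), so every term of the Leibniz expansion
(`Matrix.det_apply`, product over the rows `j`) has degree `∑_(j ≤ q) (d + j (d - 1))`.
INDEPENDENCE: let `Q ∣ ∑ y_i B_i` and `y ≠ 0`.  The determinant is linear in the first column and
`D₁^j` is `ℂ`-linear, so `∑ y_i B_i` is the determinant of `(D₁^j f_l)` with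
`f_0 = ∑ y_i A_(ε (inl i))`, `f_(l+1) = A_(ε (inr l))`.  The `f_l` are independent modulo `Q`: if
`Q ∣ ∑ z_l f_l`, this is `comb id A Y` with `Y (ε (inl i)) = z_0 y_i`, `Y (ε (inr l)) = z_(l+1)`;
`Data.nd` gives `Y = 0`, so `z = 0` because `y ≠ 0`.  M5.WRO: `Q` does not divide the determinant,
a contradiction. -/
def Stmt_WRD : Prop :=
  ∀ (N n a q d : ℕ) (Q : MvPolynomial (Fin N) ℂ) (A : Fin (n + 1) → MvPolynomial (Fin N) ℂ)
    (D₁ : Derivation ℂ (MvPolynomial (Fin N) ℂ) (MvPolynomial (Fin N) ℂ))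
    (ε : Fin (a + 1) ⊕ Fin q ≃ Fin (n + 1)), Data N n d d Q A → GoodDer Q D₁ →
    (∀ (e : ℕ) (f : MvPolynomial (Fin N) ℂ), f.IsHomogeneous e →
      (D₁ f).IsHomogeneous (e + (d - 1))) →
    Data N a d (∑ j ∈ Finset.range (q + 1), (d + j * (d - 1))) Q (wr D₁ A ε)

/-- WRC (60 lines).  Conjugation.  PROOF.  `D₂ f = aq α (D₁ (aq α.symm f))` is `ℂ`-linear
(`aq α.symm (C c * f) = C (α⁻¹ c) * aq α.symm f`) and satisfies the Leibniz rule.  So
`D₂^[j] (aq α f) = aq α (D₁^[j] f)`, and `aq α` commutes with determinants (`RingHom.map_det`). -/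
def Stmt_WRC : Prop :=
  ∀ (α : ℂ ≃+* ℂ) (N : ℕ)
    (D₁ : Derivation ℂ (MvPolynomial (Fin N) ℂ) (MvPolynomial (Fin N) ℂ)),
    ∃ D₂ : Derivation ℂ (MvPolynomial (Fin N) ℂ) (MvPolynomial (Fin N) ℂ),
      (∀ f, D₂ (aq α f) = aq α (D₁ f)) ∧
      ∀ (n a q : ℕ) (A : Fin (n + 1) → MvPolynomial (Fin N) ℂ)
        (ε : Fin (a + 1) ⊕ Fin q ≃ Fin (n + 1)) (i : Fin (a + 1)),
        aq α (wr D₁ A ε i) = wr D₂ (fun i => aq α (A i)) ε i

/-! ## B. Extension of the field of coefficients -/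

/-- ABS (80 lines), uses M5.NUL.  PROOF.  `Q` is not a constant, so neither is its image.  Suppose
`map Q = A₁ * A₂` with `A₁`, `A₂` not constant, of total degrees `a₁, a₂ ≥ 1`; `a₁ + a₂ = deg Q`.  M5.NUL
with `s` = all the coefficients of `A₁`, `A₂` and `u` = the product of a nonzero coefficient of `A₁`
of an exponent of degree `a₁` and of a nonzero coefficient of `A₂` of degree `a₂`: a subalgebra `B`
and `θ : B → ℂ` with `θ(u) ≠ 0`.  `A₁`, `A₂` come from polynomials over `B` with product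
`map (algebraMap ℂ B) Q` (`B ⊆ κ` is injective), so `Q` is the product of their images under `θ`,
which have total degrees `a₁`, `a₂`: not constants.  Contradiction. -/
def Stmt_ABS : Prop :=
  ∀ (κ : Type) [Field κ] [Algebra ℂ κ] (N : ℕ) (Q : MvPolynomial (Fin N) ℂ), Irreducible Q →
    Irreducible (map (algebraMap ℂ κ) Q)

/-- NDX (50 lines).  PROOF.  For a `ℂ`-linear functional `ϑ : κ → ℂ` let `ϑ_*` be its coefficientwise
extension to polynomials, `ϑ_* (F * map G) = ϑ_* F * G` for `G` over `ℂ`.  Apply it to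
`comb A x = map Q * H`: `comb id A (ϑ ∘ x) = Q * ϑ_* H`, so `ϑ ∘ x = 0` by `Data.nd`, for all `ϑ`; so
`x = 0` (functionals separate points: `Module.forall_dual_apply_eq_zero_iff`). -/
def Stmt_NDX : Prop :=
  ∀ (N n d D : ℕ) (Q : MvPolynomial (Fin N) ℂ) (A : Fin (n + 1) → MvPolynomial (Fin N) ℂ),
    Data N n d D Q A → ∀ (κ : Type) [Field κ] [Algebra ℂ κ] (x : Fin (n + 1) → κ),
      map (algebraMap ℂ κ) Q ∣ comb (algebraMap ℂ κ) A x → x = 0

/-- CNZ (60 lines), uses M5.NUL M5.FUN M5.LINE.  The Chow form is not zero over any field.  PROOF.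
Let `x i ≠ 0` and suppose that the Chow form is `0`.  M5.NUL with `s` = the `x j`, `u = x i` gives
`θ : B → ℂ` with `θ(x i) ≠ 0`; the Chow form over `B` is `0` (M5.FUN (6), `B ⊆ κ` injective), so by
M5.FUN (6) the Chow form of `comb id A (θ ∘ x)` over `ℂ` is `0`, against M5.LINE and `Data.nd`. -/
def Stmt_CNZ : Prop :=
  ∀ (N n d D : ℕ) (Q : MvPolynomial (Fin N) ℂ) (A : Fin (n + 1) → MvPolynomial (Fin N) ℂ),
    Data N n d D Q A → ∀ (κ : Type) [Field κ] [Algebra ℂ κ] (x : Fin (n + 1) → κ), x ≠ 0 →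
      chow d D (map (algebraMap ℂ κ) Q) (comb (algebraMap ℂ κ) A x) ≠ 0

/-- PTK (120 lines), uses M5.FUN M5.DEG M5.RES.  The pointed version over any field `F` of
characteristic `0`.  PROOF.  As `MP_f82ddf_M5/B_PTD.lean` and `T_PRI.lean` with `F` in the place of
`ℂ` (`τ` empty): in `F[b₂][s]` the polynomial `Q (s v + b₂)` is prime and divides `G (s v + b₂)` only
if `Q` divides `G`; its degree in `s` is exactly `e` (the coefficient of `s ^ (e + 1)` is `Q(v) = 0`,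
that of `s ^ e` is `∑ b₂_i ∂_i Q(v)`, not `0`).  M5.RES (for `e = 0`: `Polynomial.resultant` with
formal degree `0` on the left is `Q(b₂) ^ D`), so the resultant is a nonzero polynomial in `b₂` and
does not vanish at some `b` (`F` is infinite). -/
def Stmt_PTK : Prop :=
  ∀ (F : Type) [Field F] [CharZero F] (N e D : ℕ) (Q G : MvPolynomial (Fin N) F) (v : Fin N → F),
    Irreducible Q → Q.IsHomogeneous (e + 1) → G.IsHomogeneous D → ¬ Q ∣ G → eval v Q = 0 →
    (∃ i, eval v (pderiv i Q) ≠ 0) →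
    ∃ b : Fin N → F, resAt (RingHom.id F) Q G v b e D ≠ 0

/-- DSF (90 lines), uses U.FPR M5.RES.  The discriminant on lines.  PROOF.  `f₀ = f0 Q` is prime of
degree `d ≥ 1` in `s` (FPR), its derivative `f₀'` is not `0` and has degree `≤ d - 1`, so `f₀` does
not divide it, and `Δ` = the resultant with formal degrees `d`, `d - 1` is not `0` (M5.RES).
`Polynomial.exists_mul_add_mul_eq_C_resultant`: `C Δ = p f₀ + q f₀'`.  Take the value at `(b, s)`:
`f₀(b, s) = Q(pv b s) = 0` and `f₀'(b, s) = ∑ b₁_j ∂_j Q(pv b s)` (chain rule: both sides are additive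
in `Q` and satisfy the product rule, compare on constants and variables). -/
def Stmt_DSF : Prop :=
  ∀ (N d : ℕ) (Q : MvPolynomial (Fin N) ℂ), Irreducible Q → Q.IsHomogeneous d →
    ∃ Δ : MvPolynomial (Fin 2 × Fin N) ℂ, Δ ≠ 0 ∧
      ∀ (F : Type) [Field F] [Algebra ℂ F] (b : Fin 2 × Fin N → F) (s : F),
        eval₂ (algebraMap ℂ F) b Δ ≠ 0 → eval₂ (algebraMap ℂ F) (pv b s) Q = 0 →
        ∑ j, b (0, j) * eval₂ (algebraMap ℂ F) (pv b s) (pderiv j Q) ≠ 0

/-! ## C. The generic point of a component -/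

/-- GPA (150 lines), uses M5.FUN M5.DEG DSF.  The generic point of `P = 0` and a common root.
PROOF.  `P` is prime.  `L` = the fraction field of `M[b] / (P)`, `F` = the algebraic closure of `L`,
`b p` = the image of `X p`: the first property.  Let `f = Q (s b₁ + b₂)`, `g = G (s b₁ + b₂)` in
`F[s]` (`lineAt`).  The coefficient of `s ^ d` in `f` is `Q(b₁)`, not `0` because `P` does not divide
the image of the complex polynomial `Q(X(0, ·)) ≠ 0`; so `f` has degree exactly `d ≥ 1`.  The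
resultant of `f`, `g` with formal degrees `d`, `D` is the value of the Chow form at `b` (M5.FUN (5),
(3)), which is `0`.  So `f` and `g` are not coprime (`Polynomial.resultant_add_right_deg`,
`Polynomial.resultant_eq_zero_iff`) and have a common root `s` in the algebraically closed field
`F`: `Q(pv b s) = 0 = G(pv b s)`.  The last property: DSF (with the `ℂ`-algebra structure
`(algebraMap M F).comp (algebraMap ℂ M)` on `F`), because `P` does not divide `map Δ`. -/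
def Stmt_GPA : Prop :=
  ∀ (M : Type) [Field M] [Algebra ℂ M] (N d D : ℕ) (Q : MvPolynomial (Fin N) ℂ)
    (G : MvPolynomial (Fin N) M) (P : MvPolynomial (Fin 2 × Fin N) M), Irreducible Q →
    Q.IsHomogeneous d → G.IsHomogeneous D → Irreducible P →
    (∀ H : MvPolynomial (Fin 2 × Fin N) ℂ, H ≠ 0 → ¬ P ∣ map (algebraMap ℂ M) H) →
    P ∣ chow d D (map (algebraMap ℂ M) Q) G →
    ∃ (F : Type) (_ : Field F) (_ : Algebra M F) (b : Fin 2 × Fin N → F) (s : F),
      (∀ H : MvPolynomial (Fin 2 × Fin N) M, eval₂ (algebraMap M F) b H = 0 ↔ P ∣ H) ∧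
      eval₂ (algebraMap M F) (pv b s) (map (algebraMap ℂ M) Q) = 0 ∧
      eval₂ (algebraMap M F) (pv b s) G = 0 ∧
      ∑ j, b (0, j) *
        eval₂ (algebraMap M F) (pv b s) (map (algebraMap ℂ M) (pderiv j Q)) ≠ 0

/-- GPB (150 lines), uses M5.RES.  The points of `Q = G = 0` have transcendence degree at most
`w`.  PROOF.  Let `B` be a maximal subset of `range v` which is algebraically independent over `M`
(`exists_isTranscendenceBasis_subset` or `AlgebraicIndependent.matroid`); all the `v j` are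
algebraic over `M(B)`.  If `B` has at most `w` elements we are done (fill up with zeros).  `B` does not
come from all `w + 2` indices because `Q(v) = 0`, `Q ≠ 0`.  So suppose that for some `j₁` the
`v j`, `j ≠ j₁`, are algebraically independent.  Write `Q`, `G` as polynomials `f`, `g` in `X_(j₁)` over
`B₀ = M[X_j, j ≠ j₁]` (`MvPolynomial.finSuccEquiv` after a permutation of the variables).  `f` is
irreducible, hence prime; its degree `m` in `X_(j₁)` is positive, because a nonzero element of `B₀`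
does not vanish at `(v j)_(j ≠ j₁)`; `f` does not divide `g`.  M5.RES: the resultant `ρ ∈ B₀` with
formal degrees `m`, `natDegree g` is not `0`, but it is in the ideal generated by `f`, `g`, so it
vanishes at `v`, a contradiction. -/
def Stmt_GPB : Prop :=
  ∀ (M F : Type) [Field M] [Field F] [Algebra M F] (w : ℕ) (Q G : MvPolynomial (Fin (w + 2)) M)
    (v : Fin (w + 2) → F), Irreducible Q → ¬ Q ∣ G → eval₂ (algebraMap M F) v Q = 0 →
    eval₂ (algebraMap M F) v G = 0 →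
    ∃ u : Fin w → F, ∀ j, IsAlgebraic (IntermediateField.adjoin M (Set.range u)) (v j)

/-- TRM (40 lines).  As M5.TRD (`MP_f82ddf_M5/T_TRD.lean`) over any field. -/
def Stmt_TRM : Prop :=
  ∀ (k F : Type) [Field k] [Field F] [Algebra k F] (m t : ℕ) (u : Fin m → F) (s : Fin t → F),
    AlgebraicIndependent k u →
    (∀ j, IsAlgebraic (IntermediateField.adjoin k (Set.range s)) (u j)) → m ≤ t

/-- GPC (200 lines), uses TRM M3.PGL.  `P` vanishes on all the lines through the point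
`v = pv b s`.  PROOF.  (1) `P(b₁, v) = P(b₁, b₂ + s b₁) = P(b₁, b₂) = 0` (`PluF`, second property,
with `φ = algebraMap M F`; the last one is the first hypothesis for `H = P`).
(2) Let `K₁` be the field of all elements of `F` which are algebraic over `M(u)`
(`algebraicClosure`, or `IntermediateField.algebraicClosure`); `v_j ∈ K₁`.  CLAIM: the `w + 2` elements
`b₁_j = b (0, j)` are algebraically independent over `K₁`.  Otherwise some `b₁_(j₀)` is algebraic
over `K₁(b₁_j, j ≠ j₀)`, hence over the field `E` generated over `M` by the `u_i` (`w` elements), the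
`b₁_j`, `j ≠ j₀` (`w + 1` elements), and `s`: `2 w + 2` elements.  `b₂_j = v_j - s b₁_j` is algebraic
over `E` too.  So all the `b p` are algebraic over `E`.  But `P` contains some variable `p₀`
(it is not a constant), and the `2 w + 3` elements `b p`, `p ≠ p₀`, are algebraically independent over
`M`: if `H ≠ 0` does not contain the variable `p₀` and `H(b) = 0` then `P ∣ H`, but
`degreeOf p₀ P ≤ degreeOf p₀ H = 0`.  TRM: `2 w + 3 ≤ 2 w + 2`, a contradiction.
(3) `P(X, v)` is a polynomial with coefficients in `K₁` which vanishes at the algebraically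
independent elements `b₁`: it is `0`, so `P(b', v) = 0` for all `b'`.
(4) PGL with `p = s = 0`, `q = r = 1`: `P(v, b') = (-1) ^ ρ P(b', v) = 0`. -/
def Stmt_GPC : Prop :=
  ∀ (M F : Type) [Field M] [Field F] [Algebra M F] (w ρ : ℕ)
    (P : MvPolynomial (Fin 2 × Fin (w + 2)) M) (b : Fin 2 × Fin (w + 2) → F) (s : F)
    (u : Fin w → F), Irreducible P → PluF ρ P →
    (∀ H : MvPolynomial (Fin 2 × Fin (w + 2)) M, eval₂ (algebraMap M F) b H = 0 ↔ P ∣ H) →
    (∀ j, IsAlgebraic (IntermediateField.adjoin M (Set.range u)) (pv b s j)) →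
    ∀ b' : Fin (w + 2) → F, at2 (algebraMap M F) (pv b s) b' P = 0

/-! ## D. Orders at a point -/

/-- OVF (150 lines), uses M5.FUN M5.IDE PTK NDX ABS.  PROOF.  Let `G = comb A x`, not divisible by
`Q_F = map Q` (NDX); `Q_F` is irreducible (ABS).  PTK: `b'` with `resAt id Q_F G v b' e D ≠ 0`.  Work in
`F[X]` with the points `X` (the variables) and `C ∘ b'`: `R₁ = resAt C Q_F G X (C ∘ b') (e + 1) D`,
`h = resAt C Q_F G X (C ∘ b') e D`.  `R₁ = at2 C X (C ∘ b') (chow ..)` (M5.FUN (5)) is divisible by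
`p ^ k`, `p = at2 C X (C ∘ b') Ψ`, and `p(v) = at2 id v b' Ψ = 0`, so `R₁ ∈ ker(eval v) ^ k`.  In
`F[X] / (Q_F)` IDE gives `R₁ ≡ (-1) ^ D G h` (FUN (3) for the quotient map; see the proof of
M5.ORD, `MP_f82ddf_M5/T_ORD.lean`).  So `h * G ∈ ker(eval v) ^ k ⊔ (Q_F)`, and
`h(v) = resAt id Q_F G v b' e D ≠ 0`. -/
def Stmt_OVF : Prop :=
  ∀ (F : Type) [Field F] [Algebra ℂ F] (N n e D k : ℕ) (Q : MvPolynomial (Fin N) ℂ)
    (A : Fin (n + 1) → MvPolynomial (Fin N) ℂ), Data N n (e + 1) D Q A →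
    ∀ (x : Fin (n + 1) → F) (v : Fin N → F), x ≠ 0 → eval v (map (algebraMap ℂ F) Q) = 0 →
      (∃ i, eval v (pderiv i (map (algebraMap ℂ F) Q)) ≠ 0) →
      ∀ Ψ : MvPolynomial (Fin 2 × Fin N) F,
        Ψ ^ k ∣ chow (e + 1) D (map (algebraMap ℂ F) Q) (comb (algebraMap ℂ F) A x) →
        (∀ b' : Fin N → F, at2 (RingHom.id F) v b' Ψ = 0) →
        OrdGE (map (algebraMap ℂ F) Q) v k (comb (algebraMap ℂ F) A x)

/-- OWR (100 lines).  Rules for orders.  `m = ker(eval v)`.  PROOF.  (1) Let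
`h g = μ + a Q`, `μ ∈ m ^ (j + 1)`.  Apply `δ`: `h δg = δμ + Q δa - g δh`, multiply by `h`:
`h ^ 2 δg = h δμ + h Q δa - (μ + a Q) δh`, and `δμ ∈ m ^ j` (a derivation maps `m ^ (j + 1)` to
`m ^ j`: product rule, `Submodule.pow_induction_on_left` or induction), `μ ∈ m ^ j`.
(2) `h h' (g + g')`.  (3) clear.  (4) `m ^ j ≤ m ^ i`. -/
def Stmt_OWR : Prop :=
  ∀ (F : Type) [Field F] (N : ℕ) (Q : MvPolynomial (Fin N) F) (v : Fin N → F)
    (δ : Derivation F (MvPolynomial (Fin N) F) (MvPolynomial (Fin N) F)), δ Q = 0 →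
    (∀ (j : ℕ) (g : MvPolynomial (Fin N) F), OrdGE Q v (j + 1) g → OrdGE Q v j (δ g)) ∧
    (∀ (j : ℕ) (g g' : MvPolynomial (Fin N) F), OrdGE Q v j g → OrdGE Q v j g' →
      OrdGE Q v j (g + g')) ∧
    (∀ (j : ℕ) (f g : MvPolynomial (Fin N) F), OrdGE Q v j g → OrdGE Q v j (f * g)) ∧
    (∀ (i j : ℕ) (g : MvPolynomial (Fin N) F), i ≤ j → OrdGE Q v j g → OrdGE Q v i g)

/-- DER (120 lines), uses M5.DEG.  The resultant vanishes to order 2.  PROOF.  `A = F[ε]` (dual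
numbers), `b₁' = b₁ + ε c₁`, `v' = v + ε c₂`, `κ = ∑ b₁_j ∂_j Q(v) ≠ 0`, `s₁ = - (∑ c₂_j ∂_j Q(v)) / κ`,
`σ = ε s₁`, `p = σ b₁' + v' = v + ε (c₂ + s₁ b₁)`.  Taylor: for every polynomial `H` over `F`,
`H(p) = H(v) + ε ∑ (c₂ + s₁ b₁)_j ∂_j H(v)` (compare ring homomorphisms to `F[ε]` on constants
and variables, or induction).  So `Q(p) = 0`.  `h W = μ + a Q` with `μ ∈ ker(eval v) ^ 2`, `h(v) ≠ 0`:
`μ(p) = 0` (a product of two polynomials vanishing at `v` has value in `(ε) ^ 2 = 0`), so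
`h(p) W(p) = 0`, and `h(p)` is a unit (`TrivSqZeroExt.isUnit_iff_isUnit_fst`), so `W(p) = 0`.  The
polynomials `f = lineAt .. Q b₁' v'` and `g = lineAt .. W b₁' v'` in `A[s]` have
`f(σ) = Q(p) = 0`, `g(σ) = W(p) = 0`, and the resultant with formal degrees `d`, `D` (`≥` the true
degrees, M5.DEG) is `p₁ f + p₂ g` (`Polynomial.exists_mul_add_mul_eq_C_resultant`; it needs
`d ≠ 0` or `D ≠ 0`: `d = 0` would make `Q` a constant with `∂_j Q = 0`), whose value at `σ` is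
`0`. -/
def Stmt_DER : Prop :=
  ∀ (F : Type) [Field F] (N d D : ℕ) (Q W : MvPolynomial (Fin N) F) (v b₁ : Fin N → F),
    Q.IsHomogeneous d → W.IsHomogeneous D → eval v Q = 0 →
    ∑ j, b₁ j * eval v (pderiv j Q) ≠ 0 → OrdGE Q v 2 W → ∀ c₁ c₂ : Fin N → F,
      resAt (algebraMap F (DualNumber F)) Q W (fun j => dn (b₁ j) (c₁ j))
        (fun j => dn (v j) (c₂ j)) d D = 0

/-- DVP (100 lines).  A criterion for `P ^ 2 ∣ Φ`.  PROOF.  Taylor: the value of `Φ` at
`b + ε c` is `Φ(b) + ε ∑ c_p ∂_p Φ(b)`.  So `Φ(b) = 0` and `∂_p Φ(b) = 0` for all `p`, that is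
`P ∣ Φ`, `Φ = P * Φ₁`, and `P ∣ ∂_p Φ = Φ₁ ∂_p P + P ∂_p Φ₁`.  `P` is not a constant, so some
`∂_p P ≠ 0` (characteristic 0) and `P ∤ ∂_p P` (degree in `X_p`); `P` is prime and divides
`Φ₁ ∂_p P`, so `P ∣ Φ₁`. -/
def Stmt_DVP : Prop :=
  ∀ (M F : Type) [Field M] [CharZero M] [Field F] [Algebra M F] (σ : Type) [Finite σ]
    (P Φ : MvPolynomial σ M) (b : σ → F), Irreducible P →
    (∀ H : MvPolynomial σ M, eval₂ (algebraMap M F) b H = 0 ↔ P ∣ H) →
    (∀ c : σ → F, eval₂ ((algebraMap F (DualNumber F)).comp (algebraMap M F))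
      (fun p => dn (b p) (c p)) Φ = 0) → P ^ 2 ∣ Φ

/-- WRX (100 lines).  The expansion of the Wronskian with constant coefficients `x_i ∈ F`.  PROOF.
`δ = mkDerivation F (fun i => map (D₁ (X i)))`; `δ (map f) = map (D₁ f)` (both sides are derivations
along `map`; check on the variables, or `MvPolynomial.induction_on`).  So
`δ^[j] (comb A x) = ∑ C (x_i) * map (D₁^[j] A_i)`.  The matrix `Z` over `F[X]` with the columns
`(δ^[j] (comb A x))_j`, `(map (D₁^[j] A_(ε (inr l))))_j`: its first column is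
`∑_i x_(ε (inl i)) (map (D₁^[j] A_(ε (inl i))))_j` plus a combination of the other columns, so
`det Z = ∑_i x_(ε (inl i)) map (B_i)` (`Matrix.det_updateCol_add`, `det_updateCol_smul`,
`det_zero_of_column_eq`, or `Matrix.detRowAlternating`).  Expand `det Z` along the first column
(`Matrix.det_succ_column_zero`): the `f j` are the signed minors. -/
def Stmt_WRX : Prop :=
  ∀ (F : Type) [Field F] [Algebra ℂ F] (N n a q : ℕ)
    (D₁ : Derivation ℂ (MvPolynomial (Fin N) ℂ) (MvPolynomial (Fin N) ℂ))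
    (A : Fin (n + 1) → MvPolynomial (Fin N) ℂ) (ε : Fin (a + 1) ⊕ Fin q ≃ Fin (n + 1)),
    ∃ δ : Derivation F (MvPolynomial (Fin N) F) (MvPolynomial (Fin N) F),
      (∀ f : MvPolynomial (Fin N) ℂ, δ (map (algebraMap ℂ F) f) = map (algebraMap ℂ F) (D₁ f)) ∧
      ∃ f : Fin (q + 1) → MvPolynomial (Fin N) F, ∀ x : Fin (n + 1) → F,
        comb (algebraMap ℂ F) (wr D₁ A ε) (fun i => x (ε (Sum.inl i))) =
          ∑ j : Fin (q + 1), f j * δ^[(j : ℕ)] (comb (algebraMap ℂ F) A x)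

/-- PWT (250 lines), uses GPA GPB GPC M3.CHP M3.PFA M5.FUN ABS NDX CNZ OVF OWR DER DVP WRX.  The
transfer.  PROOF.  `d = e + 1` (`Q` is not a constant).  `Q_M = map Q` is irreducible (ABS),
`G = comb A x` is a form of degree `d`, not divisible by `Q_M` (NDX), `Φ = chow d d Q_M G ≠ 0` (CNZ),
`PluF (d * d) Φ` (CHP), so `P`, a divisor of `Φ`, is `PluF ρ` for some `ρ` (PFA).
(1) GPA: `F, b, s`; `v = pv b s`.  GPB (with `Q_M`, `G`): `u`.  GPC: `P(v, b') = 0` for all `b'`.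
Give `F` the structure of a `ℂ`-algebra through `M` (then `map (algebraMap ℂ F) Q` is the image of
`Q_M`, and similarly for `comb` with `x_F i = algebraMap M F (x i)`).
(2) OVF with `Ψ` = the image of `P` and `k = q + 2` (`Ψ ^ k` divides the image of `Φ`, which is the Chow
form over `F` by M5.FUN (6); `at2 id v b' Ψ = at2 (algebraMap M F) v b' P`; `v` is a smooth point by
the last property of GPA): `OrdGE Q_F v (q + 2) (comb A x_F)`.
(3) WRX: `δ`, `f`; `δ Q_F = map (D₁ Q) = 0`; by OWR `δ^[j] (comb A x_F)` has `OrdGE .. 2` for `j ≤ q`,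
and so has `W = comb (wr D₁ A ε) (x_F ∘ ε ∘ inl)`.
(4) DER with `b₁ = b (0, ·)`: the resultant at `(b₁ + ε c₁, v + ε c₂)` is `0` for all `c₁`, `c₂`.
(5) Let `Φ' = chow d D Q_M (comb (wr D₁ A ε) (x ∘ ε ∘ inl))`, `PluF (d * D) Φ'` (CHP).  The value of
`Φ'` at `b + ε c` is, by the second property of `PluF` (with `B = DualNumber F` and the constant
`s`), its value at the pair of points `b₁ + ε c₁`, `b₂ + ε c₂ + s (b₁ + ε c₁) = v + ε (c₂ + s c₁)`,
which is the resultant of (4) by M5.FUN (5), (4), so it is `0`.  DVP: `P ^ 2 ∣ Φ'`. -/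
def Stmt_PWT : Prop :=
  ∀ (M : Type) [Field M] [Algebra ℂ M] (w n a q d D : ℕ) (Q : MvPolynomial (Fin (w + 2)) ℂ)
    (A : Fin (n + 1) → MvPolynomial (Fin (w + 2)) ℂ)
    (D₁ : Derivation ℂ (MvPolynomial (Fin (w + 2)) ℂ) (MvPolynomial (Fin (w + 2)) ℂ))
    (ε : Fin (a + 1) ⊕ Fin q ≃ Fin (n + 1)), Data (w + 2) n d d Q A → D₁ Q = 0 →
    (∀ i, (wr D₁ A ε i).IsHomogeneous D) →
    ∀ (x : Fin (n + 1) → M) (P : MvPolynomial (Fin 2 × Fin (w + 2)) M), x ≠ 0 → Irreducible P →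
      (∀ H : MvPolynomial (Fin 2 × Fin (w + 2)) ℂ, H ≠ 0 → ¬ P ∣ map (algebraMap ℂ M) H) →
      P ^ (q + 2) ∣ chow d d (map (algebraMap ℂ M) Q) (comb (algebraMap ℂ M) A x) →
      P ^ 2 ∣ chow d D (map (algebraMap ℂ M) Q)
        (comb (algebraMap ℂ M) (wr D₁ A ε) (fun i => x (ε (Sum.inl i))))

/-! ## E. The universal Chow form for forms `A i` of degree `D`

The six blocks GLN, GT1, GT2, GSM, GIR, GNB are ULN, TR1, TR2, USM, UIR of
`MP_f82ddf_U/Interface.lean` and UNB of `MP_f82ddf_V/Interface.lean` for `Data N n d D Q A`: copy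
the files and replace the second formal degree `d` by `D`. -/

/-- GLN (60 lines), uses M5.FUN M5.DEG CNZ.  As U.ULN.  (4): from (3) with `K = ℂ`, `x = e_0` and
CNZ. -/
def Stmt_GLN : Prop :=
  ∀ (N n d D : ℕ) (Q : MvPolynomial (Fin N) ℂ) (A : Fin (n + 1) → MvPolynomial (Fin N) ℂ),
    Data N n d D Q A →
    UG d D Q A = (fR n Q).resultant (gR A) d D ∧
    ((fR n Q).natDegree ≤ d ∧ (gR A).natDegree ≤ D) ∧
    (∀ (K : Type) [CommRing K] [Algebra ℂ K] (x : Fin (n + 1) → K),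
      map ((aeval x : RX n →ₐ[ℂ] K) : RX n →+* K) (UG d D Q A) =
        chow d D (map (algebraMap ℂ K) Q) (comb (algebraMap ℂ K) A x)) ∧
    UG d D Q A ≠ 0

/-- GT1 (250 lines), uses U.FPR GLN M5.RES.  As U.TR1. -/
def Stmt_GT1 : Prop :=
  ∀ (N n d D : ℕ) (Q : MvPolynomial (Fin N) ℂ) (A : Fin (n + 1) → MvPolynomial (Fin N) ℂ),
    Data N n d D Q A →
    ∃ (H : MvPolynomial (Fin 2 × Fin N) (RX n)) (q : MvPolynomial (Fin 2 × Fin N) ℂ)
      (M P : Polynomial (MvPolynomial (Fin 2 × Fin N) (RX n))),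
      Irreducible H ∧ H ∣ UG d D Q A ∧ q ≠ 0 ∧
      Polynomial.C (inc n (Fin 2 × Fin N) q * H) = gR A * M + fR n Q * P

/-- GT2 (100 lines), uses U.FPR GLN GT1.  As U.TR2, with
`Res_(d, D+E) (f, gR A * M) = UG * Res_(d, E) (f, M)` and
`UG ∣ inc (ℓ₀ ^ (D + E) * q ^ d) * H ^ d`. -/
def Stmt_GT2 : Prop :=
  ∀ (N n d D : ℕ) (Q : MvPolynomial (Fin N) ℂ) (A : Fin (n + 1) → MvPolynomial (Fin N) ℂ),
    Data N n d D Q A →
    ∃ (H : MvPolynomial (Fin 2 × Fin N) (RX n)) (δ : MvPolynomial (Fin 2 × Fin N) ℂ),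
      Irreducible H ∧ H ∣ UG d D Q A ∧ δ ≠ 0 ∧ UG d D Q A ∣ inc n (Fin 2 × Fin N) δ * H ^ d

/-- GSM (130 lines), uses M5.FUN M5.PTD M5.IDE.  As U.USM. -/
def Stmt_GSM : Prop :=
  ∀ (N n d D : ℕ) (Q : MvPolynomial (Fin N) ℂ) (A : Fin (n + 1) → MvPolynomial (Fin N) ℂ),
    1 ≤ n → Data N n d D Q A →
    ∃ (v b : Fin N → ℂ) (L h : RX n), Prime L ∧ ¬ L ∣ h ∧
      eval (fun p => C (ppt v b p)) (UG d D Q A) = L * h

/-- GIR (150 lines), uses GLN GT2 GSM.  As U.UIR. -/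
def Stmt_GIR : Prop :=
  ∀ (N n d D : ℕ) (Q : MvPolynomial (Fin N) ℂ) (A : Fin (n + 1) → MvPolynomial (Fin N) ℂ),
    1 ≤ n → Data N n d D Q A →
    ∃ (Fix : MvPolynomial (Fin 2 × Fin N) ℂ) (H : MvPolynomial (Fin 2 × Fin N) (RX n)),
      Fix ≠ 0 ∧ Irreducible H ∧ UG d D Q A = inc n (Fin 2 × Fin N) Fix * H

/-- GNB (80 lines), uses U.MIR U.DSC GLN GIR M5.FUN.  As V.UNB. -/
def Stmt_GNB : Prop :=
  ∀ (N n d D : ℕ) (Q : MvPolynomial (Fin N) ℂ) (A : Fin (n + 1) → MvPolynomial (Fin N) ℂ),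
    1 ≤ n → Data N n d D Q A →
    ∃ D₀ : RX n, D₀ ≠ 0 ∧ ∀ (α : ℂ ≃+* ℂ) (x : Fin (n + 1) → Mer)
      (P : MvPolynomial (Fin 2 × Fin N) Mer), Irreducible P → Mov P →
      P ^ 2 ∣ chow d D (map (algebraMap ℂ Mer) (aq α Q))
        (comb (algebraMap ℂ Mer) (fun i => aq α (A i)) x) → aeval x (aq α D₀) = 0

/-! ## F. Assembly -/

/-- PTW (200 lines), uses M2.T3 V.DRF HGD WRD WRC PWT GNB U.TRP V.EXF U.MVP U.MIR.  PROOF.  As
`MP_f82ddf_V/B_PTF.lean`.  T3 for `S` with the function of DRF; `Data (w + 2) n d d Q A`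
(`CORE_data`).  HGD: `D₁`; WRD: `Data (w + 2) a d D' Q B`, `B = wr D₁ A ε`, `D'` the sum in WRD; GNB
for `(Q, B)`: `D₀ ≠ 0` in `RX a`; `D₁' = D₀ * X 0`, `D` = a nonzero homogeneous component.  Let `α`,
`x` be given; `x' = t (φ ∘ x)`, `φ` from EXF, `t ∈ ℂ`, `t ≠ 0`: `Ful (q + 2) x' (α ∘ u)`, `NC x'`, `Per`,
`x' ≠ 0`.  The conjugate datum `(aq α Q, aq α ∘ A)` (TRP) and MVP: its Chow form `Phi Mer d ..` is
moving; DRF: an irreducible moving `P` with `P ^ (q + 2) ∣ Phi Mer d (aq α Q) (aq α ∘ A) x'`.  MIR: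
`P` does not divide a nonzero complex polynomial.  WRC: `D₂` with `D₂ (aq α Q) = aq α (D₁ Q) = 0` and
`aq α ∘ B = wr D₂ (aq α ∘ A) ε`, forms of degree `D'` (TRP or `IsHomogeneous.map`).  PWT for
`(aq α Q, aq α ∘ A, D₂)`: `P ^ 2` divides the Chow form of `(aq α Q, aq α ∘ B)` at
`x' ∘ ε ∘ inl`; GNB: `aeval (x' ∘ ε ∘ inl) (aq α D₀) = 0`.  End as in B_PTA.lean (all `t ≠ 0`,
homogeneous components, `φ` injective). -/
def Stmt_PTW : Prop :=
  ∀ n c : ℕ, 1 ≤ n → ∃ N₁ : ℕ, ∀ S : Finset (Fin (n + 1) → ℂ),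
    (∀ u ∈ S, ∀ v ∈ S, u ≠ v → NonProp u v) → Spn c S → N₁ ≤ S.card →
    ∀ (a q : ℕ) (ε : Fin (a + 1) ⊕ Fin q ≃ Fin (n + 1)), 1 ≤ a →
    ∃ (e : ℕ) (D : RX a), 1 ≤ e ∧ D.IsHomogeneous e ∧ D ≠ 0 ∧
      ∀ (α : ℂ ≃+* ℂ) (x : Fin (n + 1) → Mer), NC x →
        (∀ u ∈ S, Ful (q + 2) x (fun i => α (u i))) →
        aeval (fun i => x (ε (Sum.inl i))) (aq α D) = 0

/-- UEW (100 lines), uses PTW U.AUT U.DSE U.RKT.  PROOF.  As `MP_f82ddf_V/B_UEF.lean`. -/
def Stmt_UEW : Prop :=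
  ∀ n c : ℕ, 1 ≤ n → ∃ N₁ : ℕ, ∀ (Ω : Type) [Field Ω] [IsAlgClosed Ω] [Countable Ω]
    (S : Finset (Fin (n + 1) → Ω)), (∀ u ∈ S, ∀ v ∈ S, u ≠ v → NPr u v) → Spn c S →
    N₁ ≤ S.card →
    ∀ (a q : ℕ) (ε : Fin (a + 1) ⊕ Fin q ≃ Fin (n + 1)), 1 ≤ a →
    ∃ (e : ℕ) (D : MvPolynomial (Fin (a + 1)) Ω), 1 ≤ e ∧ D.IsHomogeneous e ∧ D ≠ 0 ∧
      ∀ (τ : Ω →+* ℂ) (x : Fin (n + 1) → Mer), NC x →
        (∀ u ∈ S, Ful (q + 2) x (fun i => τ (u i))) →
        eval₂ (tm τ) (fun i => x (ε (Sum.inl i))) D = 0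

/-- IJE (40 lines).  PROOF.  The complement of the range of `σ` has `q` elements. -/
def Stmt_IJE : Prop :=
  ∀ (n a q : ℕ) (σ : Fin (a + 1) ↪ Fin (n + 1)), n = a + q →
    ∃ ε : Fin (a + 1) ⊕ Fin q ≃ Fin (n + 1), ∀ i, ε (Sum.inl i) = σ i

/-- MPX (120 lines), uses UEW IJE U.SLO P.MPT V.ORF P.FIB M0.CST.  PROOF.  As
`MP_f82ddf_V/B_MPF.lean`, for every `σ` (IJE: `ε`; UEW: `D σ`). -/
def Stmt_MPX : Prop :=
  ∀ n c : ℕ, 1 ≤ n → ∃ N₀ : ℕ, ∀ (Ω : Type) [Field Ω] [IsAlgClosed Ω] [Countable Ω] (N : ℕ)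
    (l : Fin (N + 1) → Fin (n + 1) → Ω), N₀ ≤ N →
    (∀ v : Fin (n + 1) → Ω, v ≠ 0 → {j | ∑ i, l j i * v i = 0}.ncard ≤ c) →
    ∀ a q : ℕ, 1 ≤ a → n = a + q →
    ∃ D : (Fin (a + 1) ↪ Fin (n + 1)) → MvPolynomial (Fin (a + 1)) Ω,
      (∀ σ, D σ ≠ 0 ∧ ∃ e, (D σ).IsHomogeneous e) ∧
      ∀ (K : Type) [Field K] [Algebra K Ω] (m : ℕ)
        (S : Set (MvPolynomial (Fin (m + 1)) K)), (∀ F ∈ S, ∃ d, F.IsHomogeneous d) →
        ∀ (g : Mor K Ω m n S), g.Finite → (∀ j, Full g (q + 2) (l j)) →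
        ∀ (τ : Ω →+* ℂ) (x : Fin (m + 1) → Mer), OnK (tm τ) S x →
          (∃ i₀ i, x i₀ ≠ 0 ∧ ∀ a : ℂ, x i ≠ algebraMap ℂ Mer a * x i₀) →
          ∀ s ∈ g.tuples, ∀ σ, eval₂ (tm τ) (fun i => eval₂ (tm τ) x (s (σ i))) (D σ) = 0

/-- DIX (150 lines), uses MPX P.MPT P.FIB P.TRX M0.HOMR.  PROOF.  As `MP_f82ddf_V/B_DIF.lean`.  Let
`x` be a point over `Mer` and suppose that the `a + 1 = (a - 1) + 2` coordinates `x ∘ r` satisfy no
homogeneous relation.  `x (r 0) ≠ 0`; HOMR: the `a ≥ 1` elements `x (r (i+1)) / x (r 0)` are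
algebraically independent over `ℂ`; in particular `x` is not constant.  FIB and TRX: `a`
algebraically independent elements `t_i = y_(c_i) / y_(c₀)`; the indices `c₀, c_1, .., c_a` are
different (`t_i ≠ 1`, `t_i ≠ t_j`), so they are an embedding `σ`, and `D_σ(y ∘ σ) = 0` (MPX) is a
nontrivial relation between the `t_i` (divide by `y_(c₀) ^ e`; the form `map τ (D σ) ≠ 0` is
determined by its dehomogenisation), a contradiction. -/
def Stmt_DIX : Prop :=
  ∀ n c : ℕ, 1 ≤ n → ∃ N₀ : ℕ, ∀ N : ℕ, N₀ ≤ N →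
    ∀ (K : Type) [Field K] [NumberField K]
      (l : Fin (N + 1) → Fin (n + 1) → AlgebraicClosure K),
      (∀ v : Fin (n + 1) → AlgebraicClosure K, v ≠ 0 → {j | ∑ i, l j i * v i = 0}.ncard ≤ c) →
      ∀ a q : ℕ, 1 ≤ a → n = a + q →
      ∀ (m : ℕ) (S : Set (MvPolynomial (Fin (m + 1)) K)), (∀ F ∈ S, ∃ d, F.IsHomogeneous d) →
        ∀ (g : Mor K (AlgebraicClosure K) m n S), g.Finite → (∀ j, Full g (q + 2) (l j)) →
          Pool.ThmM0.DimMer S (a - 1)

/-- The complex points of `X` whose images under `g` satisfy all the equations `D σ = 0`. -/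
def ExcW {K Ω : Type} [Field K] [Field Ω] [Algebra K Ω] {m n a : ℕ}
    {S : Set (MvPolynomial (Fin (m + 1)) K)} (g : Mor K Ω m n S)
    (D : (Fin (a + 1) ↪ Fin (n + 1)) → MvPolynomial (Fin (a + 1)) Ω) (τ : Ω →+* ℂ) :
    Set (PSpace ℂ m) :=
  {p | p ∈ complexPoints S (τ.comp (algebraMap K Ω)) ∧
    ∀ s ∈ g.tuples, ∀ σ, eval₂ τ (fun i => eval₂ τ p.rep (s (σ i))) (D σ) = 0}

/-- THEOREM W, first part: the exceptional set, of dimension at most `a - 1 = n - k + 1` with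
`k = q + 2`. -/
def Stmt_W1 : Prop :=
  ∀ n c : ℕ, 1 ≤ n → ∃ N₀ : ℕ, ∀ N : ℕ, N₀ ≤ N →
    ∀ (K : Type) [Field K] [NumberField K]
      (l : Fin (N + 1) → Fin (n + 1) → AlgebraicClosure K),
      (∀ v : Fin (n + 1) → AlgebraicClosure K, v ≠ 0 → {j | ∑ i, l j i * v i = 0}.ncard ≤ c) →
      ∀ a q : ℕ, 1 ≤ a → n = a + q →
      ∃ D : (Fin (a + 1) ↪ Fin (n + 1)) → MvPolynomial (Fin (a + 1)) (AlgebraicClosure K),
        (∀ σ, D σ ≠ 0 ∧ ∃ e, (D σ).IsHomogeneous e) ∧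
        ∀ (m : ℕ) (S : Set (MvPolynomial (Fin (m + 1)) K)),
          (∀ F ∈ S, ∃ d, F.IsHomogeneous d) →
          ∀ (g : Mor K (AlgebraicClosure K) m n S), g.Finite →
          (∀ j, Full g (q + 2) (l j)) → ∀ (τ : AlgebraicClosure K →+* ℂ),
            (∀ f : ℂ → PSpace ℂ m, HolomorphicOn f Set.univ →
              (∀ z, f z ∈ complexPoints S (τ.comp (algebraMap K (AlgebraicClosure K)))) →
              (∃ a b, f a ≠ f b) → ∀ z, f z ∈ ExcW g D τ) ∧
            (KobayashiHyperbolic (complexPoints S (τ.comp (algebraMap K (AlgebraicClosure K)))) ↔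
              KobayashiHyperbolic (ExcW g D τ))

/-- FW1 (120 lines), uses MPX M0.MREL.  PROOF of `Stmt_W1`.  As `MP_f82ddf_V/B_FNV.lean` (which is
`MP_f82ddf_U/B_FNU.lean`). -/
def Stmt_FW1 : Prop := Stmt_W1

/-- THEOREM W, second part: dimension of the entire curves, and rational points for `k ≥ n`
(`a ≤ 2`), hyperbolicity for `k > n` (`a = 1`). -/
def Stmt_W2 : Prop :=
  ∀ n c : ℕ, 1 ≤ n → ∃ N₀ : ℕ, ∀ N : ℕ, N₀ ≤ N →
    ∀ (K : Type) [Field K] [NumberField K]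
      (l : Fin (N + 1) → Fin (n + 1) → AlgebraicClosure K),
      (∀ v : Fin (n + 1) → AlgebraicClosure K, v ≠ 0 → {j | ∑ i, l j i * v i = 0}.ncard ≤ c) →
      ∀ a q : ℕ, 1 ≤ a → n = a + q →
      ∀ (m : ℕ) (S : Set (MvPolynomial (Fin (m + 1)) K)), (∀ F ∈ S, ∃ d, F.IsHomogeneous d) →
        ∀ (g : Mor K (AlgebraicClosure K) m n S), g.Finite → (∀ j, Full g (q + 2) (l j)) →
          (∀ (σ : K →+* ℂ) (f : ℂ → PSpace ℂ m), HolomorphicOn f Set.univ →
            (∀ z, f z ∈ complexPoints S σ) → ImageDimLE f (a - 1)) ∧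
          (a = 1 → ∀ σ : K →+* ℂ, KobayashiHyperbolic (complexPoints S σ)) ∧
          (a ≤ 2 → (∀ σ : K →+* ℂ, KobayashiHyperbolic (complexPoints S σ) ↔
              ¬ Pool.MCL.CubicImage S (AlgebraicClosure K)
                (algebraMap K (AlgebraicClosure K))) ∧
            (Pool.MCL.CubicImage S (AlgebraicClosure K) (algebraMap K (AlgebraicClosure K)) →
              ∃ (L : Type) (_ : Field L) (_ : Algebra K L) (_ : FiniteDimensional K L),
                (points S L).Infinite))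

/-- FW2 (90 lines), uses DIX M0.IMG M0.PAI P6C M0.DHO.  PROOF of `Stmt_W2`.  `N₀` from DIX.  First clause:
IMG.  `a ≤ 2`: PAI and P6C as at the end of `MP_f82ddf_P/B_F12.lean`.  `a = 1`: `DimMer S 0`: any two
coordinates of a point over `Mer` satisfy a homogeneous relation, so (DHO or directly: a form in two
variables over `ℂ` is a product of linear forms) `x i / x i₀` is algebraic over `ℂ`, a constant; if
`X_σ` were not hyperbolic there would be a nonconstant entire curve (`exists_entire_curve`), and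
`exists_mer_of_curve` gives a point over `Mer` which is not constant. -/
def Stmt_FW2 : Prop := Stmt_W2

end Pool.MPW
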