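import Pool.Agent.Work.MP_f82ddf_W.Interface
import Pool.Agent.Work.MP_f82ddf_P.Interface2

set_option autoImplicit false

/-! # THEOREM W (MP_f82ddf_nt), optimality of the dimension `n + 1 - k`

Table `mpw_blocks`, same rules as in `Interface.lean` (import this file instead).  In the column
`uses` `P.FFB` means `Pool.ThmP.Stmt_FFB`.

EXAMPLE.  The hyperplanes `l_j = (1, j, j ^ 2, .., j ^ n)`, `j = 0, .., N`, `X : y_j ^ k = l_j(x)` (the
relations between the `l_j(x)` give the equations of `X` in the projective space of dimension `N`) and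
the lines `y_j = ρ_j (j - z)`, `ρ_j ^ k = R(j)`, for polynomials `R` of degree `≤ n - k`: their images
are the points `x` whose coordinates are the coefficients of `R(t) (t - z) ^ k`, and these are not
contained in a closed set of dimension `n - k`. -/

open Pool.Agent.Work.MP_f82ddf_nt.DQ

namespace Pool.MPW

open MvPolynomial
open Pool.Agent.Work.MP_f82ddf_nt (PSpace HolomorphicOn complexPoints points KobayashiHyperbolic)
open Pool.ThmP (Mor OnX OnK tm)
open Pool.MPV (Ful Full)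

/-- SX (150 lines), uses P.FFB.  PROOF.  `S` = the set of all `∑ j, C (a j) * X j ^ k` with
`a : Fin (N + 1) → ℚ`, `∑ j, a j * j ^ i = 0` for all `i ≤ n`.  Let `L_i ∈ ℚ[t]`, `i ≤ n`, be the Lagrange
basis polynomials for the nodes `0, .., n` (`Lagrange.basis`), of degree `≤ n`, and
`s c = ∑_(i ≤ n) C ((L_i).coeff c) * X_i ^ k`.  CLAIM: if the vector `v` over a field `F` (with
`ℚ → F`) satisfies the equations in `S`, then `v_j ^ k = ∑_(c ≤ n) s_c(v) j ^ c` for all `j ≤ N`: the right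
side is `∑_(i ≤ n) L_i(j) v_i ^ k`; for `j ≤ n` this is `v_j ^ k`, for `j > n` use the equation with
`a = e_j - ∑_(i ≤ n) L_i(j) e_i` (`j ^ m = ∑_i L_i(j) i ^ m` for `m ≤ n`: `Lagrange.interpolate` of a
polynomial of degree `≤ n` is the polynomial).  So FFB (`e = k`; all `s_c(v) = 0` gives `v = 0`)
gives `g` with `g.tuples = {s}`.  `Full`: `t = 1`, `a = 1`, `b = X j`, `μ = k`, and some `s_c(v) ≠ 0`
for `v ≠ 0` on `X`.  Last claim: the equations in `S` hold for `y` because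
`∑_j a_j y_j ^ k = ∑_i x_i ∑_j a_j j ^ i = 0`, and
`s_c(y) = ∑_(i ≤ n) (L_i).coeff c * x(i) = x_c` with `x(t) = ∑ x_c t ^ c` (interpolation). -/
def Stmt_SX : Prop :=
  ∀ n k N : ℕ, 1 ≤ k → n ≤ N → ∃ (S : Set (MvPolynomial (Fin (N + 1)) ℚ))
    (g : Mor ℚ (AlgebraicClosure ℚ) N n S), (∀ F ∈ S, ∃ d, F.IsHomogeneous d) ∧ g.Finite ∧
    g.tuples.Nonempty ∧ (∀ j : Fin (N + 1), Full g k
      (fun i : Fin (n + 1) => ((j : ℕ) : AlgebraicClosure ℚ) ^ (i : ℕ))) ∧
    ∀ (τ : AlgebraicClosure ℚ →+* ℂ) (x : Fin (n + 1) → ℂ) (y : Fin (N + 1) → ℂ),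
      (∀ j : Fin (N + 1), y j ^ k = ∑ i : Fin (n + 1), x i * ((j : ℕ) : ℂ) ^ (i : ℕ)) →
      (∀ F ∈ S, eval₂ (τ.comp (algebraMap ℚ (AlgebraicClosure ℚ))) y F = 0) ∧
      ∀ s ∈ g.tuples, ∀ c, eval₂ τ y (s c) = x c

/-- SV (30 lines).  PROOF.  The polynomial `∑ v_i t ^ i` is not `0` and has degree `≤ n`, so it has at
most `n` roots (`Polynomial.card_roots'`), and different `j` are different elements of a field of
characteristic `0`. -/
def Stmt_SV : Prop :=
  ∀ (n N : ℕ) (v : Fin (n + 1) → AlgebraicClosure ℚ), v ≠ 0 →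
    {j : Fin (N + 1) | ∑ i : Fin (n + 1),
      ((j : ℕ) : AlgebraicClosure ℚ) ^ (i : ℕ) * v i = 0}.ncard ≤ n

/-- SR (80 lines).  PROOF.  `p(t) = ∑ p_i t ^ i`, `f = t ^ q p(t)` of degree exactly `q + d + 1`,
`k = q + 1`.  The polynomial `c(s) = ∑_i p_i binom(q + i, q) s ^ i` (`hasseDeriv q f`) has degree
`d + 1 ≥ 1` (`hasseDeriv_coeff`), so it has a root `s`.  Let `R`, `r` be the quotient and the
remainder of the division of `f` by the monic polynomial `(t - s) ^ k` (`divByMonic`, `modByMonic`):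
`R` has degree `d`, `r` has degree `≤ q`.  Apply `hasseDeriv q` and put `t = s`: the left side is
`c(s) = 0`, the multiple of `(t - s) ^ (q + 1)` gives `0` (for example `Polynomial.taylor`: the
coefficient `q` of `taylor s` of it; `Polynomial.taylor_coeff`), and `hasseDeriv q r` is the constant
`r.coeff q`.  So `r.coeff q = 0` and `r` has degree `< q`, and the coefficients of `R (t - s) ^ k` and of
`f` at `t ^ (q + i)` agree. -/
def Stmt_SR : Prop :=
  ∀ (q d : ℕ) (p : Fin (d + 2) → ℂ), p (Fin.last (d + 1)) ≠ 0 →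
    ∃ (s : ℂ) (R : Polynomial ℂ), R ≠ 0 ∧ R.natDegree ≤ d ∧
      ∀ i : Fin (d + 2), (R * (Polynomial.X - Polynomial.C s) ^ (q + 1)).coeff (q + (i : ℕ)) = p i

/-- SL (60 lines).  A line as an entire curve.  PROOF.  `f z` = the point with the coordinates
`ρ_j (j - z)`; they are not all `0`: for the two indices `i ≠ j` not both `i - z`, `j - z` are `0`.
Not constant: `f i ≠ f j` (the coordinate `i` of `f i` is `0`, that of `f j` is not). -/
def Stmt_SL : Prop :=
  ∀ (N : ℕ) (ρ : Fin (N + 1) → ℂ), (∃ i j, i ≠ j ∧ ρ i ≠ 0 ∧ ρ j ≠ 0) →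
    ∃ f : ℂ → PSpace ℂ N, HolomorphicOn f Set.univ ∧ (∃ a b, f a ≠ f b) ∧
      ∀ z, ∃ c : ℂ, c ≠ 0 ∧ ∀ j : Fin (N + 1), (f z).rep j = c * (ρ j * (((j : ℕ) : ℂ) - z))

/-- The dimension `n + 1 - k` in THEOREM W is optimal: for `n = k + d` there are (for every `N ≥ n`)
`N + 1` hyperplanes, at most `n` of them through any point, and `X`, `g` over `ℚ` such that no closed
set of dimension `d = n - k`, given by forms `D s` as in THEOREM W, contains all the entire
curves. -/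
def Stmt_WS : Prop :=
  ∀ n k d N : ℕ, 2 ≤ k → k + d = n → n ≤ N → ∃ (S : Set (MvPolynomial (Fin (N + 1)) ℚ))
    (g : Mor ℚ (AlgebraicClosure ℚ) N n S) (l : Fin (N + 1) → Fin (n + 1) → AlgebraicClosure ℚ),
    (∀ F ∈ S, ∃ d, F.IsHomogeneous d) ∧
    (∀ v : Fin (n + 1) → AlgebraicClosure ℚ, v ≠ 0 → {j | ∑ i, l j i * v i = 0}.ncard ≤ n) ∧
    g.Finite ∧ (∀ j, Full g k (l j)) ∧
    ∀ D : (Fin (d + 2) ↪ Fin (n + 1)) → MvPolynomial (Fin (d + 2)) (AlgebraicClosure ℚ),
      (∀ s, D s ≠ 0 ∧ ∃ e, (D s).IsHomogeneous e) → ∀ τ : AlgebraicClosure ℚ →+* ℂ,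
        ∃ f : ℂ → PSpace ℂ N, HolomorphicOn f Set.univ ∧
          (∀ z, f z ∈ complexPoints S (τ.comp (algebraMap ℚ (AlgebraicClosure ℚ)))) ∧
          (∃ a b, f a ≠ f b) ∧ ∃ z, f z ∉ ExcW (a := d + 1) g D τ

/-- SF (120 lines), uses SX SV SR SL.  PROOF of `Stmt_WS`.  `S`, `g` from SX, `l j i = j ^ i`, SV.  Let `D`,
`τ` be given, `k = q + 1`, `n = q + d + 1`, and `s₀ : i ↦ q + i` (`i ≤ d + 1`).  The polynomial
`map τ (D s₀) * X (last)` is not `0`, so it does not vanish at some `p` (`MvPolynomial.funext`).  SR: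
`s`, `R`.  `R(j) ≠ 0` for two different `j ≤ N` (`R` has at most `d` roots and `N + 1 ≥ d + 3`); choose
`ρ_j` with `ρ_j ^ k = R(j)` (`IsAlgClosed.exists_pow_nat_eq`); SL: `f`.  For every `z`, with `c` from
SL: `((f z).rep j) ^ k = c ^ k R(j) (j - z) ^ k = ∑_(i ≤ n) x_i j ^ i` with
`x_i = c ^ k * (R (t - z) ^ k).coeff i` (`Polynomial.eval_eq_sum_range'`, the degree is
`≤ d + k = n`).  SX: `f z` is in `X_τ`, and `s_i(rep) = x_i`.  At `z = s`:
`eval₂ τ (fun i => x (s₀ i)) (D s₀) = (map τ (D s₀))(c ^ k p) = c ^ (k e) (map τ (D s₀))(p) ≠ 0`, so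
`f s` is not in `ExcW g D τ` (`g.tuples` is not empty). -/
def Stmt_SF : Prop := Stmt_WS

end Pool.MPW
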